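import Pool.Agent.Lib.MP_df705a_gt.Coll.Defs

/-!
# Module Y: rules for the gradient product
-/

open scoped Manifold ContDiff Topology
open Set Bundle Module Filter MeasureTheory

noncomputable section

namespace Pool.Agent.Lib.MP_df705a_gt.Coll.Y

open Pool.Agent.Lib.MP_df705a_gt.Twist Pool.Agent.Lib.MP_df705a_gt.Perm
open Pool.Agent.Lib.MP_df705a_gt.Circ (Horizontal Submersion cf Para HorConf)

variable {E : Type*} [NormedAddCommGroup E] [NormedSpace ℝ E] [FiniteDimensional ℝ E]
  {M : Type*} [TopologicalSpace M] [ChartedSpace E M] [IsManifold 𝓘(ℝ, E) ∞ M]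

/-- The coefficients of a metric are symmetric: unfold `Grd`, `gradC` and use that the inverse of
the (positive definite) matrix `coeff g x y` is symmetric. -/
theorem grd_comm (g : Met E M) (u v : M → ℝ) (x : M) : Grd g u v x = Grd g v u x :=
  Fib.gradC_comm (chartMetric_posDef 𝓘(ℝ, E) (finBasis ℝ E) g x (mem_extChartAt_target x))

/-- See `Fib.grd_sub_left` (Fib/DivId.lean) and `Fib.gradC_sub` for the model. -/
theorem grd_add_left (g : Met E M) {u v : M → ℝ} (hu : Sm E u) (hv : Sm E v) (w : M → ℝ) (x : M) :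
    Grd g (fun x => u x + v x) w x = Grd g u w x + Grd g v w x := by
  have h1 := Fib.grd_sub_left g (ContMDiff.add hu hv) hv w x
  have h2 : (fun x => (u + v) x - v x) = u := by
    funext x
    simp
  rw [h2] at h1
  have h3 : (fun x => u x + v x) = u + v := rfl
  rw [h3]
  linarith

/-- See `Fib.grd_mul_left` (Fib/DivId.lean). -/
theorem grd_smul_left (g : Met E M) {u : M → ℝ} (hu : Sm E u) (c : ℝ) (w : M → ℝ) (x : M) :
    Grd g (fun x => c * u x) w x = c * Grd g u w x := by
  rw [Fib.grd_mul_left g (sm_const c) hu, Circ.grd_const_left]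
  ring

/-- The differential of a constant is zero. -/
theorem grd_const_left (g : Met E M) (c : ℝ) (w : M → ℝ) (x : M) :
    Grd g (fun _ => c) w x = 0 :=
  Circ.grd_const_left g c w x

/-- `Grd (u v) w = u Grd v w + v Grd u w` (this is `Fib.grd_mul_left`), applied to `u = v`. -/
theorem grd_sq_left (g : Met E M) {u : M → ℝ} (hu : Sm E u) (w : M → ℝ) (x : M) :
    Grd g (fun x => u x ^ 2) w x = 2 * u x * Grd g u w x := by
  have h1 : (fun x => u x ^ 2) = fun x => u x * u x := by
    funext x
    ring
  rw [h1, Fib.grd_mul_left g hu hu]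
  ring

/-- `0 ≤ |a du + b dv|²`, from `Perm.grd_nonneg` for the function `a * u + b * v` and the rules
above (`a`, `b` are numbers). -/
theorem grd_quad (g : Met E M) {u v : M → ℝ} (hu : Sm E u) (hv : Sm E v) (a b : ℝ) (x : M) :
    0 ≤ a ^ 2 * Grd g u u x + 2 * a * b * Grd g u v x + b ^ 2 * Grd g v v x := by
  have h1 := grd_nonneg g (fun x => a * u x + b * v x) x
  have h2 := sm_smul hu a
  have h3 := sm_smul hv b
  rw [grd_add_left g h2 h3, grd_smul_left g hu, grd_smul_left g hv,
    grd_comm g u, grd_comm g v, grd_add_left g h2 h3, grd_add_left g h2 h3,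
    grd_smul_left g hu, grd_smul_left g hu, grd_smul_left g hv, grd_smul_left g hv,
    grd_comm g v u] at h1
  nlinarith [h1]

/-- Products of smooth functions are smooth (`ContMDiff.mul`). -/
theorem sm_mul {u v : M → ℝ} (hu : Sm E u) (hv : Sm E v) : Sm E (fun x => u x * v x) :=
  ContMDiff.mul hu hv

end Pool.Agent.Lib.MP_df705a_gt.Coll.Y
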