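import Pool.Agent.Lib.MP_df705a_gt.Coll.IR
import Pool.Agent.Lib.MP_df705a_gt.Coll.Y.Calc

/-!
# Module Y: the inequality of Barta for the conformal Laplacian
-/

open scoped Manifold ContDiff Topology
open Set Bundle Module Filter MeasureTheory

noncomputable section

namespace Pool.Agent.Lib.MP_df705a_gt.Coll.Y

open Pool.Agent.Lib.MP_df705a_gt.Twist Pool.Agent.Lib.MP_df705a_gt.Perm
open Pool.Agent.Lib.MP_df705a_gt.Circ (Horizontal Submersion cf Para HorConf)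

variable {E : Type*} [NormedAddCommGroup E] [NormedSpace ℝ E] [FiniteDimensional ℝ E]
  {M : Type*} [TopologicalSpace M] [ChartedSpace E M] [IsManifold 𝓘(ℝ, E) ∞ M]

/-- `hc` gives `ψ, g'` with `g' = e^{2ψ} g` of positive scalar curvature.  `Perm.IsConf.scal`:
`Scal g' = e^{-2ψ} (Scal g - 2(n-1) Lap g ψ - (n-1)(n-2) Grd g ψ ψ)`; by `Perm.exists_scal_lower`
`m ≤ Scal g'` for some `m > 0` and `e^{2ψ}` is bounded below by a positive number (compactness). -/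
theorem barta0 [CompactSpace M] [Nonempty M] {g : Met E M} (hc : ConfPSC g) :
    ∃ (δ : ℝ) (ψ : M → ℝ), 0 < δ ∧ Sm E ψ ∧ ∀ x, δ ≤ Scal g x -
      2 * ((finrank ℝ E : ℝ) - 1) * Lap g ψ x -
      ((finrank ℝ E : ℝ) - 1) * ((finrank ℝ E : ℝ) - 2) * Grd g ψ ψ x := by
  obtain ⟨ψ, g', hψ, hconf, hpos⟩ := hc
  obtain ⟨m, hm, hmx⟩ := exists_scal_lower g' hpos
  have hcont : Continuous ψ := ContMDiff.continuous hψ
  obtain ⟨x₀, -, hx₀⟩ := isCompact_univ.exists_isMinOn univ_nonempty hcont.continuousOn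
  refine ⟨Real.exp (2 * ψ x₀) * m, ψ, mul_pos (Real.exp_pos _) hm, hψ, fun x => ?_⟩
  have h1 := hconf.scal hψ x
  have h2 : Scal g x - 2 * ((finrank ℝ E : ℝ) - 1) * Lap g ψ x -
      ((finrank ℝ E : ℝ) - 1) * ((finrank ℝ E : ℝ) - 2) * Grd g ψ ψ x =
      Real.exp (2 * ψ x) * Scal g' x := by
    rw [h1, ← mul_assoc, ← Real.exp_add, add_neg_cancel, Real.exp_zero, one_mul]
  rw [h2]
  have h3 : ψ x₀ ≤ ψ x := hx₀ (mem_univ x)
  have h4 : Real.exp (2 * ψ x₀) ≤ Real.exp (2 * ψ x) := Real.exp_le_exp.2 (by linarith)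
  exact mul_le_mul h4 (hmx x) hm.le (Real.exp_pos _).le

/-- A continuous function on the compact space `M` is bounded, and `μ` is finite (`hμ.fin`):
see `Perm.mmain_integrable`. -/
theorem integ [MeasurableSpace E] [BorelSpace E] [MeasurableSpace M] [BorelSpace M]
    [CompactSpace M] {g : Met E M} {μ : Measure M} (hμ : IsRVol g μ) {f : M → ℝ}
    (hf : Continuous f) : Integrable f μ := by
  have : IsFiniteMeasure μ := hμ.fin
  exact mmain_integrable μ hf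

/-- Take `δ', ψ` from `barta0` and `δ = (n-2) δ'`.  Multiply the inequality by `(n-2) φ²` and
integrate.  Green's formula `IsRVol.green` with `v = φ²`, `u = ψ` and `grd_sq_left`:
`∫ φ² Lap ψ = - ∫ 2 φ Grd φ ψ`.  So
`(n-2) ∫ Scal φ² ≥ δ ∫ φ² + ∫ [ - 4 (n-1)(n-2) φ Grd φ ψ + (n-1)(n-2)² φ² Grd ψ ψ ]`,
and pointwise, by `grd_quad` with `a = 2`, `b = -(n-2) φ x`, multiplied by `n-1`,
`- 4 (n-1)(n-2) φ Grd φ ψ + (n-1)(n-2)² φ² Grd ψ ψ ≥ - 4 (n-1) Grd φ φ`.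
All functions are continuous (`Circ.sm_grd`, `Circ.sm_lap`, `Perm.scal_cont`,
`ContMDiff.continuous`), hence integrable by `integ`. -/
theorem barta [MeasurableSpace E] [BorelSpace E] [MeasurableSpace M] [BorelSpace M]
    [CompactSpace M] [T2Space M] [Nonempty M] (hn : 3 ≤ finrank ℝ E) {g : Met E M}
    {μ : Measure M} (hμ : IsRVol g μ) (hc : ConfPSC g) :
    ∃ δ : ℝ, 0 < δ ∧ ∀ φ : M → ℝ, Sm E φ → δ * ∫ p, φ p ^ 2 ∂μ ≤
      ∫ p, (4 * ((finrank ℝ E : ℝ) - 1) * Grd g φ φ p +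
        ((finrank ℝ E : ℝ) - 2) * Scal g p * φ p ^ 2) ∂μ := by
  obtain ⟨δ, ψ, hδ, hψ, hle⟩ := barta0 hc
  have hn3 : (3 : ℝ) ≤ (finrank ℝ E : ℝ) := by exact_mod_cast hn
  set n : ℝ := (finrank ℝ E : ℝ) with hn'
  have hn1 : 0 < n - 1 := by linarith
  have hn2 : 0 < n - 2 := by linarith
  refine ⟨(n - 2) * δ, mul_pos hn2 hδ, fun φ hφ => ?_⟩
  have hφ2 : Sm E (fun p => φ p ^ 2) := by
    have := sm_mul hφ hφ
    have e : (fun x => φ x * φ x) = fun p => φ p ^ 2 := by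
      funext p
      ring
    rwa [e] at this
  have cφ : Continuous φ := ContMDiff.continuous hφ
  have cφ2 : Continuous (fun p => φ p ^ 2) := cφ.pow 2
  have cLap : Continuous (Lap g ψ) := ContMDiff.continuous (Circ.sm_lap g hψ)
  have cG1 : Continuous (Grd g (fun p => φ p ^ 2) ψ) := ContMDiff.continuous (Circ.sm_grd g hφ2 hψ)
  have cG2 : Continuous (Grd g φ φ) := ContMDiff.continuous (Circ.sm_grd g hφ hφ)
  have cS : Continuous (Scal g) := scal_cont g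
  have hgreen := hμ.green hψ hφ2
  have i1 : Integrable (fun p => (n - 2) * δ * φ p ^ 2) μ := integ hμ (continuous_const.mul cφ2)
  have i2 : Integrable (fun p => 2 * (n - 1) * (n - 2) *
      (φ p ^ 2 * Lap g ψ p + Grd g (fun p => φ p ^ 2) ψ p)) μ :=
    integ hμ (continuous_const.mul ((cφ2.mul cLap).add cG1))
  have i3 : Integrable (fun p => 4 * (n - 1) * Grd g φ φ p + (n - 2) * Scal g p * φ p ^ 2) μ :=
    integ hμ ((continuous_const.mul cG2).add ((continuous_const.mul cS).mul cφ2))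
  have h1 : (n - 2) * δ * ∫ p, φ p ^ 2 ∂μ =
      ∫ p, ((n - 2) * δ * φ p ^ 2 + 2 * (n - 1) * (n - 2) *
        (φ p ^ 2 * Lap g ψ p + Grd g (fun p => φ p ^ 2) ψ p)) ∂μ := by
    rw [integral_add i1 i2, integral_const_mul, integral_const_mul, hgreen, mul_zero, add_zero]
  rw [h1]
  refine integral_mono (i1.add i2) i3 fun p => ?_
  have h2 := hle p
  have h3 := grd_quad g hφ hψ 2 (-((n - 2) * φ p)) p
  have h4 := grd_sq_left g hφ ψ p
  change (n - 2) * δ * φ p ^ 2 + 2 * (n - 1) * (n - 2) *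
        (φ p ^ 2 * Lap g ψ p + Grd g (fun p => φ p ^ 2) ψ p) ≤
      4 * (n - 1) * Grd g φ φ p + (n - 2) * Scal g p * φ p ^ 2
  rw [h4]
  have h5 : 0 ≤ (n - 2) * φ p ^ 2 := mul_nonneg hn2.le (sq_nonneg _)
  have h6 := mul_le_mul_of_nonneg_left h2 h5
  have h7 := mul_nonneg hn1.le h3
  have e1 : (n - 2) * φ p ^ 2 * (Scal g p - 2 * (n - 1) * Lap g ψ p -
      (n - 1) * (n - 2) * Grd g ψ ψ p) = (n - 2) * Scal g p * φ p ^ 2 -
      2 * (n - 1) * (n - 2) * (φ p ^ 2 * Lap g ψ p) -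
      (n - 1) * (n - 2) ^ 2 * φ p ^ 2 * Grd g ψ ψ p := by ring
  have e2 : (n - 1) * (2 ^ 2 * Grd g φ φ p + 2 * 2 * (-((n - 2) * φ p)) * Grd g φ ψ p +
      (-((n - 2) * φ p)) ^ 2 * Grd g ψ ψ p) = 4 * (n - 1) * Grd g φ φ p -
      2 * (n - 1) * (n - 2) * (2 * φ p * Grd g φ ψ p) +
      (n - 1) * (n - 2) ^ 2 * φ p ^ 2 * Grd g ψ ψ p := by ring
  rw [e1] at h6
  rw [e2] at h7
  have e3 : (n - 2) * φ p ^ 2 * δ = (n - 2) * δ * φ p ^ 2 := by ring
  rw [e3] at h6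
  have e4 : 2 * (n - 1) * (n - 2) * (φ p ^ 2 * Lap g ψ p + 2 * φ p * Grd g φ ψ p) =
      2 * (n - 1) * (n - 2) * (φ p ^ 2 * Lap g ψ p) +
      2 * (n - 1) * (n - 2) * (2 * φ p * Grd g φ ψ p) := by ring
  rw [e4]
  linarith

end Pool.Agent.Lib.MP_df705a_gt.Coll.Y
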