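import Pool.Agent.Lib.MP_df705a_gt.Coll.Defs

/-!
# Module Y: conformal classes
-/

open scoped Manifold ContDiff Topology
open Set Bundle Module Filter MeasureTheory

noncomputable section

namespace Pool.Agent.Lib.MP_df705a_gt.Coll.Y

open Pool.Agent.Lib.MP_df705a_gt.Twist Pool.Agent.Lib.MP_df705a_gt.Perm
open Pool.Agent.Lib.MP_df705a_gt.Circ (Horizontal Submersion cf Para HorConf)
open Pool.Agent.Lib.MP_df705a_gt.Fib (RiemSub Biconformal)

variable {E₁ : Type*} [NormedAddCommGroup E₁] [NormedSpace ℝ E₁] [FiniteDimensional ℝ E₁]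
  {B : Type*} [TopologicalSpace B] [ChartedSpace E₁ B] [IsManifold 𝓘(ℝ, E₁) ∞ B]
  {E : Type*} [NormedAddCommGroup E] [NormedSpace ℝ E] [FiniteDimensional ℝ E]
  {M : Type*} [TopologicalSpace M] [ChartedSpace E M] [IsManifold 𝓘(ℝ, E) ∞ M]

namespace ConfAux

theorem log_smooth (a : ℝ) {t : ℝ} (ht : 0 < t) :
    ContDiffAt ℝ ∞ (fun s => a * Real.log s) t :=
  contDiffAt_const.mul (Real.contDiffAt_log.2 ht.ne')

theorem deriv_alog (a : ℝ) : deriv (fun s => a * Real.log s) = fun t => a * t⁻¹ := by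
  funext t
  rw [deriv_const_mul_field, Real.deriv_log]

theorem deriv_deriv_alog (a t : ℝ) :
    deriv (deriv (fun s => a * Real.log s)) t = - (a * (t ^ 2)⁻¹) := by
  rw [deriv_alog, deriv_const_mul_field, deriv_inv]
  ring

/-- The scalar curvature expression of `ψ = a log w`. -/
theorem expr_eq (g : Met E M) {w : M → ℝ} (hw : Sm E w) (hpos : ∀ x, 0 < w x) (a : ℝ) :
    Sm E (fun x => a * Real.log (w x)) ∧
      (∀ x, Lap g (fun x => a * Real.log (w x)) x =
        a * (w x)⁻¹ * Lap g w x - a * (w x ^ 2)⁻¹ * Grd g w w x) ∧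
      ∀ x, Grd g (fun x => a * Real.log (w x)) (fun x => a * Real.log (w x)) x =
        a ^ 2 * (w x ^ 2)⁻¹ * Grd g w w x := by
  have hs : ∀ x, ContDiffAt ℝ ∞ (fun s => a * Real.log s) (w x) := fun x => log_smooth a (hpos x)
  refine ⟨sm_comp hw hs, fun x => ?_, fun x => ?_⟩
  · have h := lap_comp g hw hs x
    rw [deriv_deriv_alog, deriv_alog] at h
    rw [h]
    ring
  · have h := grd_comp g hw hs x
    rw [deriv_alog] at h
    rw [h]
    ring

end ConfAux

/-- This is `Perm.exists_almost_nonpos` (Perm/Dich.lean; copy its proof) without the extra term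
`κ (n-1) Grd ψ ψ`, for `n ≥ 3`: use the dichotomy for `c = 4(n-1)/(n-2)` and `V = Scal g`.
First alternative: `w > 0` smooth with `-c Lap w + Scal w > 0`; with `ψ = (2/(n-2)) log w`
(`Dich.expr_eq` is private: copy it) one has `Scal - 2(n-1) Lap ψ - (n-1)(n-2) Grd ψ ψ
= (Scal w - c Lap w) / w > 0` (the terms with `Grd w w / w²` cancel:
`2(n-1)·2/(n-2) - (n-1)(n-2)·4/(n-2)² = 0`), so `exists_conf` and `IsConf.scal` give `ConfPSC g`:
contradiction.  Second alternative: `u > 0` with `-c Lap u + Scal u < ε u`, and the same identity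
for `ψ = (2/(n-2)) log u` gives the result. -/
theorem almost_nonpos0 [CompactSpace M] [T2Space M] [ConnectedSpace M] (hn : 3 ≤ finrank ℝ E)
    {g : Met E M} (hg : ¬ ConfPSC g) {ε : ℝ} (hε : 0 < ε) :
    ∃ ψ : M → ℝ, Sm E ψ ∧ ∀ x, Scal g x - 2 * ((finrank ℝ E : ℝ) - 1) * Lap g ψ x -
      ((finrank ℝ E : ℝ) - 1) * ((finrank ℝ E : ℝ) - 2) * Grd g ψ ψ x ≤ ε := by
  have hn3 : (3 : ℝ) ≤ (finrank ℝ E : ℝ) := by exact_mod_cast hn
  have : SecondCountableTopology M :=
    ChartedSpace.secondCountable_of_sigmaCompact E M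
  obtain ⟨A, hS, hL, hG⟩ := exists_sys g
  set n : ℝ := (finrank ℝ E : ℝ) with hn'
  have hn1 : 0 < n - 1 := by linarith
  have hn2 : 0 < n - 2 := by linarith
  set a : ℝ := 2 / (n - 2) with ha
  have haa : a * (n - 2) = 2 := by
    rw [ha]
    field_simp
  set c : ℝ := a * (2 * (n - 1)) with hc
  have ha0 : 0 < a := by positivity
  have hc0 : 0 < c := by positivity
  have key : ∀ (w : M → ℝ) (x : M), 0 < w x → Scal g x - 2 * (n - 1) * (a * (w x)⁻¹ * Lap g w x -
      a * (w x ^ 2)⁻¹ * Grd g w w x) -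
      (n - 1) * (n - 2) * (a ^ 2 * (w x ^ 2)⁻¹ * Grd g w w x) =
      (w x)⁻¹ * (-c * Lap g w x + Scal g x * w x) := by
    intro w x hwx
    have h1 : (n - 1) * (n - 2) * (a ^ 2 * (w x ^ 2)⁻¹ * Grd g w w x) =
        2 * (n - 1) * (a * (w x ^ 2)⁻¹ * Grd g w w x) := by
      have h2 : (n - 1) * (n - 2) * (a ^ 2 * (w x ^ 2)⁻¹ * Grd g w w x) =
          (a * (n - 2)) * ((n - 1) * (a * (w x ^ 2)⁻¹ * Grd g w w x)) := by ring
      rw [h2, haa]
      ring
    have h3 : (w x)⁻¹ * (Scal g x * w x) = Scal g x := by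
      rw [mul_comm (Scal g x), ← mul_assoc, inv_mul_cancel₀ hwx.ne', one_mul]
    rw [h1, mul_add, h3, hc]
    ring
  rcases dichotomy A hc0 (V := Scal g) (scal_cont g) hε with ⟨w, hw, hpos, hop⟩ |
    ⟨u, hu, hpos, hop⟩
  · exfalso
    apply hg
    rw [hS] at hw
    obtain ⟨h1, h2, h3⟩ := ConfAux.expr_eq g hw hpos a
    obtain ⟨g', hg'⟩ := exists_conf g h1
    refine ⟨_, g', h1, hg', ?_⟩
    intro z y hy
    rw [scal_chart g' z hy, hg'.scal h1]
    set x := (extChartAt 𝓘(ℝ, E) z).symm y with hx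
    have hop' := hop x
    simp only [LapSys.op, hL] at hop'
    refine mul_pos (Real.exp_pos _) ?_
    rw [h2, h3, ← hn', key w x (hpos x)]
    exact mul_pos (inv_pos.2 (hpos x)) hop'
  · rw [hS] at hu
    obtain ⟨h1, h2, h3⟩ := ConfAux.expr_eq g hu hpos a
    refine ⟨_, h1, fun x => ?_⟩
    have hop' := hop x
    simp only [LapSys.op, hL] at hop'
    rw [h2, h3, key u x (hpos x), inv_mul_le_iff₀ (hpos x)]
    linarith

/-- `hc` gives `φ` and `g'' = e^{2φ} g` with positive scalar curvature; `g = e^{-2ψ} g'`, so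
`g'' = e^{2(φ-ψ)} g'`. -/
theorem of_conf {g g' : Met E M} {ψ : M → ℝ} (hψ : Sm E ψ) (hg : IsConf ψ g g')
    (hc : ConfPSC g) : ConfPSC g' := by
  obtain ⟨φ, g'', hφ, hc', hpos⟩ := hc
  refine ⟨fun x => φ x - ψ x, g'', ContMDiff.sub hφ hψ, ?_, hpos⟩
  intro x u v
  rw [hc' x u v, hg x u v, Real.exp_sub, div_pow, ← mul_assoc,
    div_mul_cancel₀ _ (pow_ne_zero 2 (Real.exp_pos (ψ x)).ne')]

/-- Pointwise at `p`: `g'` and `g` have the same orthogonal complements of the fibre (`hg` multiplies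
the scalar product by the positive number `e^{2ψ p}`), and for `u, v` horizontal for `g'` (hence
for `g`) and `w, z` vertical, `gε'(u+w, v+z) = e^{2ψ} gε(u+w, v+z) = e^{2ψ} (g(u,v) + ε² g(w,z))
= g'(u,v) + ε² g'(w,z)`. -/
theorem biconf_conf {pr : M → B} {g g' gε gε' : Met E M} {ψ : M → ℝ} {ε : ℝ}
    (hg : IsConf ψ g g') (hε : IsConf ψ gε gε')
    (h : Biconformal E₁ g gε pr (fun _ => 1) (fun _ => ε)) :
    Biconformal E₁ g' gε' pr (fun _ => 1) (fun _ => ε) := by
  intro p u v w z hu hv hw hz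
  have hpos : Real.exp (ψ p) ^ 2 ≠ 0 := pow_ne_zero 2 (Real.exp_pos (ψ p)).ne'
  have hh : ∀ u : TangentSpace 𝓘(ℝ, E) p, Horizontal (E₁ := E₁) g' pr p u →
      Horizontal (E₁ := E₁) g pr p u := by
    intro u hu w hw
    have h1 := hu w hw
    rw [hg p u w] at h1
    exact (mul_eq_zero.1 h1).resolve_left hpos
  rw [hε p (u + w) (v + z), h p u v w z (hh u hu) (hh v hv) hw hz, hg p u v, hg p w z]
  ring

end Pool.Agent.Lib.MP_df705a_gt.Coll.Y
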