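import Pool.Agent.Lib.MP_df705a_gt.Coll.Defs

/-!
# Module Y: the Gram matrix of the horizontal lifts
-/

open scoped Manifold ContDiff Topology
open Set Bundle Module Filter MeasureTheory

noncomputable section

namespace Pool.Agent.Lib.MP_df705a_gt.Coll.Y

open Pool.Agent.Lib.MP_df705a_gt.Twist Pool.Agent.Lib.MP_df705a_gt.Perm
open Pool.Agent.Lib.MP_df705a_gt.Sub (mB)
open Pool.Agent.Lib.MP_df705a_gt.Circ (Horizontal Submersion cf Para HorConf)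
open Pool.Agent.Lib.MP_df705a_gt.Fib (RiemSub Biconformal gσ fm gam normT)

variable {E₁ : Type*} [NormedAddCommGroup E₁] [NormedSpace ℝ E₁] [FiniteDimensional ℝ E₁]
  {B : Type*} [TopologicalSpace B] [ChartedSpace E₁ B] [IsManifold 𝓘(ℝ, E₁) ∞ B]
  {E₂ : Type*} [NormedAddCommGroup E₂] [NormedSpace ℝ E₂] [FiniteDimensional ℝ E₂]
  {F : Type*} [TopologicalSpace F] [ChartedSpace E₂ F] [IsManifold 𝓘(ℝ, E₂) ∞ F]
  {E : Type*} [NormedAddCommGroup E] [NormedSpace ℝ E] [FiniteDimensional ℝ E]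
  {M : Type*} [TopologicalSpace M] [ChartedSpace E M] [IsManifold 𝓘(ℝ, E) ∞ M]

namespace HmAux

theorem clm_sm {X : Type*} [NormedAddCommGroup X] [NormedSpace ℝ X]
    {V : Type*} [NormedAddCommGroup V] [NormedSpace ℝ V] [FiniteDimensional ℝ V]
    {W : Type*} [NormedAddCommGroup W] [NormedSpace ℝ W]
    {f : X → V →L[ℝ] W} {q : X}
    (h : ∀ u, ContDiffAt ℝ ∞ (fun y => f y u) q) : ContDiffAt ℝ ∞ f q := by
  let d := finrank ℝ V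
  have hd : d = finrank ℝ (Fin d → ℝ) := (finrank_fin_fun ℝ).symm
  let e₁ := ContinuousLinearEquiv.ofFinrankEq hd
  let e₂ := (e₁.arrowCongr (1 : W ≃L[ℝ] W)).trans (ContinuousLinearEquiv.piRing (Fin d))
  rw [← Function.id_comp f, ← e₂.symm_comp_self]
  exact e₂.symm.contDiff.contDiffAt.comp q (contDiffAt_pi.mpr fun i => h _)

theorem mB_bas {V : Type*} [NormedAddCommGroup V] [NormedSpace ℝ V] [FiniteDimensional ℝ V]
    (A : Matrix (Fin (finrank ℝ V)) (Fin (finrank ℝ V)) ℝ) (i j) :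
    mB A (finBasis ℝ V i) (finBasis ℝ V j) = A i j := by
  simp [mB, Finsupp.single_apply]

theorem gs_sm (g : Met E M) {σ : E₁ × E₂ → M} {q : E₁ × E₂}
    (hp : ∀ᶠ y in 𝓝 q, Para E σ y) : ContDiffAt ℝ ∞ (gσ g σ) q :=
  clm_sm fun v => clm_sm fun w => Fib.G2.gσ_smooth g hp v w

theorem chart_D {pr : M → B} (hpr : Submersion E E₁ pr) {σ : E₁ × E₂ → M}
    {q : E₁ × E₂} {z : B} (hA : Fib.AC E pr σ q z) (w : E₁ × E₂) :
    mfderiv 𝓘(ℝ, E₁) 𝓘(ℝ, E₁) (extChartAt 𝓘(ℝ, E₁) z) (pr (σ q))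
      (mfderiv 𝓘(ℝ, E) 𝓘(ℝ, E₁) pr (σ q)
        (mfderiv 𝓘(ℝ, E₁ × E₂) 𝓘(ℝ, E) σ q w)) = w.1 := by
  have hσd : MDifferentiableAt 𝓘(ℝ, E₁ × E₂) 𝓘(ℝ, E) σ q :=
    hA.para.self_of_nhds.smooth.mdifferentiableAt (by simp)
  have hprd : MDifferentiableAt 𝓘(ℝ, E) 𝓘(ℝ, E₁) pr (σ q) :=
    (hpr.1 (σ q)).mdifferentiableAt (by simp)
  have hcd : MDifferentiableAt 𝓘(ℝ, E₁) 𝓘(ℝ, E₁) (extChartAt 𝓘(ℝ, E₁) z) (pr (σ q)) := by
    apply mdifferentiableAt_extChartAt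
    have := hA.src.self_of_nhds
    rwa [extChartAt_source] at this
  have h1 := mfderiv_comp (I := 𝓘(ℝ, E₁ × E₂)) (I' := 𝓘(ℝ, E)) (I'' := 𝓘(ℝ, E₁)) q hprd hσd
  have hpσ : MDifferentiableAt 𝓘(ℝ, E₁ × E₂) 𝓘(ℝ, E₁) (pr ∘ σ) q := hprd.comp q hσd
  have h2 := mfderiv_comp (I := 𝓘(ℝ, E₁ × E₂)) (I' := 𝓘(ℝ, E₁)) (I'' := 𝓘(ℝ, E₁)) q
    (g := extChartAt 𝓘(ℝ, E₁) z) (f := pr ∘ σ) hcd hpσ
  have h3 : mfderiv 𝓘(ℝ, E₁ × E₂) 𝓘(ℝ, E₁) ((extChartAt 𝓘(ℝ, E₁) z) ∘ (pr ∘ σ)) q =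
      mfderiv 𝓘(ℝ, E₁ × E₂) 𝓘(ℝ, E₁) (Prod.fst : E₁ × E₂ → E₁) q := by
    apply Filter.EventuallyEq.mfderiv_eq
    filter_upwards [hA.fst] with y hy
    exact hy
  have hfm : mfderiv 𝓘(ℝ, E₁ × E₂) 𝓘(ℝ, E₁) (Prod.fst : E₁ × E₂ → E₁) q =
      ContinuousLinearMap.fst ℝ E₁ E₂ := by
    rw [mfderiv_eq_fderiv]
    exact fderiv_fst
  have h4 : mfderiv 𝓘(ℝ, E₁ × E₂) 𝓘(ℝ, E₁) ((extChartAt 𝓘(ℝ, E₁) z) ∘ (pr ∘ σ)) q w = w.1 :=
    (DFunLike.congr_fun (show (mfderiv 𝓘(ℝ, E₁ × E₂) 𝓘(ℝ, E₁)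
        ((extChartAt 𝓘(ℝ, E₁) z) ∘ (pr ∘ σ)) q : (E₁ × E₂) →L[ℝ] E₁) =
          ContinuousLinearMap.fst ℝ E₁ E₂ from h3.trans hfm) w).trans rfl
  rw [h2, h1] at h4
  exact h4

theorem chart_inj {pr : M → B} {σ : E₁ × E₂ → M}
    {q : E₁ × E₂} {z : B} (hA : Fib.AC E pr σ q z) :
    Function.Injective (mfderiv 𝓘(ℝ, E₁) 𝓘(ℝ, E₁) (extChartAt 𝓘(ℝ, E₁) z) (pr (σ q))) :=
  (isInvertible_mfderiv_extChartAt hA.src.self_of_nhds).injective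

end HmAux

/-- `Fib.AC` is an open condition: `Filter.eventually_eventually_nhds`. -/
theorem ac_ev {pr : M → B} {σ : E₁ × E₂ → M} {q : E₁ × E₂} {z : B}
    (hA : Fib.AC E pr σ q z) : ∀ᶠ y in 𝓝 q, Fib.AC E pr σ y z := by
  filter_upwards [hA.para.eventually_nhds, hA.src.eventually_nhds, hA.fst.eventually_nhds]
    with y h1 h2 h3
  exact ⟨h1, h2, h3⟩

/-- `hm g σ q i j = gσ g σ q (e_i, Γ e_i) (e_j, Γ e_j)`; expand in the basis. -/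
theorem mB_hm (g : Met E M) (σ : E₁ × E₂ → M) (q : E₁ × E₂) (u v : E₁) :
    mB (hm g σ q) u v = gσ g σ q (u, gam g σ q u) (v, gam g σ q v) := by
  let L : E₁ →L[ℝ] E₁ × E₂ := (ContinuousLinearMap.id ℝ E₁).prod (gam g σ q)
  have h3 := bilin_sum (finBasis ℝ E₁) ((gσ g σ q).bilinearComp L L)
    (fun i => (finBasis ℝ E₁).repr u i) (fun i => (finBasis ℝ E₁).repr v i)
  rw [(finBasis ℝ E₁).sum_repr, (finBasis ℝ E₁).sum_repr] at h3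
  have h4 : gσ g σ q (u, gam g σ q u) (v, gam g σ q v) = (gσ g σ q).bilinearComp L L u v := rfl
  rw [h4, h3]
  unfold mB
  refine Finset.sum_congr rfl fun i _ => Finset.sum_congr rfl fun j _ => ?_
  have h5 : (gσ g σ q).bilinearComp L L (finBasis ℝ E₁ i) (finBasis ℝ E₁ j) = hm g σ q i j := rfl
  rw [h5]
  ring

/-- The same for `gam g σ` and `fm g σ`. -/
private theorem gam_smooth' (g : Met E M) {σ : E₁ × E₂ → M} {q : E₁ × E₂}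
    (hp : ∀ᶠ y in 𝓝 q, Para E σ y) : ContDiffAt ℝ ∞ (gam g σ) q := by
  have hf : ∀ i j, ContDiffAt ℝ ∞ (fun y => fm g σ y i j) q := fun i j =>
    Fib.G2.gσ_smooth g hp _ _
  apply Fib.G2.clm_smooth
  intro u
  have h2 : (fun y => gam g σ y u) = fun y => ∑ i, (∑ j, -(fm g σ y)⁻¹ i j *
      gσ g σ y (0, finBasis ℝ E₂ j) (u, 0)) • finBasis ℝ E₂ i := by
    funext y
    unfold gam
    rw [sum_apply]
    refine Finset.sum_congr rfl fun i _ => ?_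
    rw [ContinuousLinearMap.smulRight_apply, sum_apply]
    congr 1
  rw [h2]
  refine ContDiffAt.sum fun i _ => ?_
  refine ContDiffAt.smul (ContDiffAt.sum fun j _ => ?_) contDiffAt_const
  refine ContDiffAt.mul ?_ (Fib.G2.gσ_smooth g hp _ _)
  exact (contDiffAt_inv hf (Fib.G2.fm_pos g hp.self_of_nhds).det_pos.ne' i j).neg

/-- `Fib.G2.gσ_smooth` (Fib/FibredSm.lean) for the four entries and the smoothness of `gam g σ` (from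
`Fib.Dat_of_AC`: the field `Γ_smooth`; a metric `gB` is not needed for that part, see its proof;
`gam` is defined with the inverse of `fm`, use `Twist.contDiffAt_inv` and `Fib.G2.fm_pos`). -/
theorem hm_smooth (g : Met E M) {σ : E₁ × E₂ → M} {q : E₁ × E₂}
    (hp : ∀ᶠ y in 𝓝 q, Para E σ y) (i j : Fin (finrank ℝ E₁)) :
    ContDiffAt ℝ ∞ (fun p => hm g σ p i j) q := by
  have h1 := HmAux.gs_sm g hp
  have h2 := gam_smooth' g hp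
  have h3 : ∀ u : E₁, ContDiffAt ℝ ∞ (fun p => (u, gam g σ p u)) q := fun u =>
    contDiffAt_const.prodMk (h2.clm_apply contDiffAt_const)
  exact (h1.clm_apply (h3 _)).clm_apply (h3 _)

/-- The same for `gam g σ` and `fm g σ`. -/
theorem gam_smooth (g : Met E M) {σ : E₁ × E₂ → M} {q : E₁ × E₂}
    (hp : ∀ᶠ y in 𝓝 q, Para E σ y) : ContDiffAt ℝ ∞ (gam g σ) q :=
  gam_smooth' g hp

theorem fm_smooth (g : Met E M) {σ : E₁ × E₂ → M} {q : E₁ × E₂}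
    (hp : ∀ᶠ y in 𝓝 q, Para E σ y) (i j : Fin (finrank ℝ E₂)) :
    ContDiffAt ℝ ∞ (fun p => fm g σ p i j) q :=
  Fib.G2.gσ_smooth g hp _ _

theorem fm_posDef (g : Met E M) {σ : E₁ × E₂ → M} {q : E₁ × E₂} (hp : Para E σ q) :
    (fm g σ q).PosDef :=
  Fib.G2.fm_pos g hp

/-- By `mB_hm` and the positivity of `gσ` (`Fib.G2.gσ_pos` or `Fib.G4.gσ_pos`). -/
theorem hm_posDef (g : Met E M) {σ : E₁ × E₂ → M} {q : E₁ × E₂} (hp : Para E σ q) :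
    (hm g σ q).PosDef := by
  rw [Matrix.posDef_iff_dotProduct_mulVec]
  refine ⟨?_, ?_⟩
  · ext i j
    rw [Matrix.conjTranspose_apply, star_trivial]
    exact g.symm _ _ _
  · intro c hc
    set u : E₁ := ∑ i, c i • finBasis ℝ E₁ i with hu
    have hrep : ∀ i, (finBasis ℝ E₁).repr u i = c i := by
      intro i
      rw [hu, Basis.repr_sum_self]
    have h1 : ((u, gam g σ q u) : E₁ × E₂) ≠ 0 := by
      intro h0
      apply hc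
      have h2 : u = 0 := congrArg Prod.fst h0
      funext i
      rw [← hrep i, h2]
      simp
    have h3 := Fib.G2.gσ_pos g hp h1
    rw [← mB_hm] at h3
    refine h3.trans_eq ?_
    unfold mB
    rw [star_trivial, dotProduct]
    refine Finset.sum_congr rfl fun i _ => ?_
    rw [Matrix.mulVec, dotProduct, Finset.mul_sum]
    refine Finset.sum_congr rfl fun j _ => ?_
    rw [hrep, hrep]
    ring

/-- The vector `dσ (u, Γ u)` is horizontal (`Fib.….horth`, in Fib/CompGam.lean; the vertical vectors are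
the `dσ (0, w)` because `dσ` is bijective and `chart ∘ pr ∘ σ` is the first projection near `q`) and
its image under `d(chart) ∘ d pr` is `u` (differentiate `hA.fst`; `pr` is differentiable). -/
theorem hor_lift {pr : M → B} (hpr : Submersion E E₁ pr) (g : Met E M) {σ : E₁ × E₂ → M}
    {q : E₁ × E₂} {z : B} (hA : Fib.AC E pr σ q z) (u : E₁) :
    Horizontal (E₁ := E₁) g pr (σ q)
      (mfderiv 𝓘(ℝ, E₁ × E₂) 𝓘(ℝ, E) σ q ((u, gam g σ q u) : E₁ × E₂)) ∧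
    mfderiv 𝓘(ℝ, E₁) 𝓘(ℝ, E₁) (extChartAt 𝓘(ℝ, E₁) z) (pr (σ q))
      (mfderiv 𝓘(ℝ, E) 𝓘(ℝ, E₁) pr (σ q)
        (mfderiv 𝓘(ℝ, E₁ × E₂) 𝓘(ℝ, E) σ q ((u, gam g σ q u) : E₁ × E₂))) = u := by
  refine ⟨?_, HmAux.chart_D hpr hA (u, gam g σ q u)⟩
  intro w hw
  obtain ⟨w', rfl⟩ : ∃ w' : E₁ × E₂, mfderiv 𝓘(ℝ, E₁ × E₂) 𝓘(ℝ, E) σ q w' = w :=
    hA.para.self_of_nhds.bij.2 w
  have h1 := HmAux.chart_D hpr hA w'
  rw [hw] at h1
  have h2 : w'.1 = 0 := h1.symm.trans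
    (map_zero (mfderiv 𝓘(ℝ, E₁) 𝓘(ℝ, E₁) (extChartAt 𝓘(ℝ, E₁) z) (pr (σ q))))
  have h3 : w' = (0, w'.2) := Prod.ext h2 rfl
  change gσ g σ q (u, gam g σ q u) w' = 0
  rw [h3]
  exact Fib.G6.horth g hA.para.self_of_nhds u _

/-- The vectors `dσ (0, w)` are vertical. -/
theorem ver_vec {pr : M → B} (hpr : Submersion E E₁ pr) {σ : E₁ × E₂ → M}
    {q : E₁ × E₂} {z : B} (hA : Fib.AC E pr σ q z) (w : E₂) :
    mfderiv 𝓘(ℝ, E) 𝓘(ℝ, E₁) pr (σ q)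
      (mfderiv 𝓘(ℝ, E₁ × E₂) 𝓘(ℝ, E) σ q ((0, w) : E₁ × E₂)) = 0 := by
  apply HmAux.chart_inj hA
  exact (HmAux.chart_D hpr hA (0, w)).trans
    (map_zero (mfderiv 𝓘(ℝ, E₁) 𝓘(ℝ, E₁) (extChartAt 𝓘(ℝ, E₁) z) (pr (σ q)))).symm

/-- Two horizontal vectors `a`, `a₀` with the same image under `d(chart) ∘ d pr` are equal (the
difference is horizontal and vertical: `d(chart)` is injective).  By `hor_lift`, `a = dσ (u, Γ u)` and
`a' = dσ (u', Γ u')`; use `mB_hm`. -/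
theorem hm_hor {pr : M → B} (hpr : Submersion E E₁ pr) (g : Met E M) {σ : E₁ × E₂ → M}
    {q : E₁ × E₂} {z : B} (hA : Fib.AC E pr σ q z) {a a' : TangentSpace 𝓘(ℝ, E) (σ q)}
    (ha : Horizontal (E₁ := E₁) g pr (σ q) a) (ha' : Horizontal (E₁ := E₁) g pr (σ q) a') :
    g.inner (σ q) a a' = mB (hm g σ q)
      (mfderiv 𝓘(ℝ, E₁) 𝓘(ℝ, E₁) (extChartAt 𝓘(ℝ, E₁) z) (pr (σ q))
        (mfderiv 𝓘(ℝ, E) 𝓘(ℝ, E₁) pr (σ q) a))
      (mfderiv 𝓘(ℝ, E₁) 𝓘(ℝ, E₁) (extChartAt 𝓘(ℝ, E₁) z) (pr (σ q))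
        (mfderiv 𝓘(ℝ, E) 𝓘(ℝ, E₁) pr (σ q) a')) := by
  have key : ∀ a : TangentSpace 𝓘(ℝ, E) (σ q), Horizontal (E₁ := E₁) g pr (σ q) a →
      ∀ u : E₁, mfderiv 𝓘(ℝ, E₁) 𝓘(ℝ, E₁) (extChartAt 𝓘(ℝ, E₁) z) (pr (σ q))
        (mfderiv 𝓘(ℝ, E) 𝓘(ℝ, E₁) pr (σ q) a) = u →
      a = mfderiv 𝓘(ℝ, E₁ × E₂) 𝓘(ℝ, E) σ q ((u, gam g σ q u) : E₁ × E₂) := by
    intro a ha u hu
    obtain ⟨h1, h2⟩ := hor_lift hpr g hA u
    set a₀ : TangentSpace 𝓘(ℝ, E) (σ q) :=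
      mfderiv 𝓘(ℝ, E₁ × E₂) 𝓘(ℝ, E) σ q ((u, gam g σ q u) : E₁ × E₂) with ha₀
    have h3 : mfderiv 𝓘(ℝ, E) 𝓘(ℝ, E₁) pr (σ q) a = mfderiv 𝓘(ℝ, E) 𝓘(ℝ, E₁) pr (σ q) a₀ :=
      HmAux.chart_inj hA (hu.trans h2.symm)
    have h4 : mfderiv 𝓘(ℝ, E) 𝓘(ℝ, E₁) pr (σ q) (a - a₀) = 0 :=
      (map_sub (mfderiv 𝓘(ℝ, E) 𝓘(ℝ, E₁) pr (σ q)) a a₀).trans (sub_eq_zero.2 h3)
    by_contra hne
    have h5 := g.pos (σ q) (a - a₀) (sub_ne_zero.2 hne)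
    have h6 : g.inner (σ q) (a - a₀) (a - a₀) = g.inner (σ q) a (a - a₀) -
        g.inner (σ q) a₀ (a - a₀) := by
      have h7 : g.inner (σ q) (a - a₀) = g.inner (σ q) a - g.inner (σ q) a₀ := map_sub _ _ _
      rw [h7]
      rfl
    rw [h6, ha _ h4, h1 _ h4, sub_zero] at h5
    exact lt_irrefl _ h5
  have e1 := key a ha _ rfl
  have e2 := key a' ha' _ rfl
  refine (congrArg₂ (fun x y => g.inner (σ q) x y) e1 e2).trans ?_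
  exact (mB_hm g σ q _ _).symm

/-- Two adapted parametrizations over the same chart of `B`, at the same point of `M`: by `hor_lift`
and `hm_hor` both matrices give the scalar products of the horizontal lifts. -/
theorem hm_eq {pr : M → B} (hpr : Submersion E E₁ pr) (g : Met E M) {σ σ' : E₁ × E₂ → M}
    {q q' : E₁ × E₂} {z : B} (hA : Fib.AC E pr σ q z) (hA' : Fib.AC E pr σ' q' z)
    (h : σ q = σ' q') : hm g σ q = hm g σ' q' := by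
  have key : ∀ (p : M) (_ : σ q = p) (a a' : TangentSpace 𝓘(ℝ, E) p),
      Horizontal (E₁ := E₁) g pr p a → Horizontal (E₁ := E₁) g pr p a' →
      g.inner p a a' = mB (hm g σ q)
        (mfderiv 𝓘(ℝ, E₁) 𝓘(ℝ, E₁) (extChartAt 𝓘(ℝ, E₁) z) (pr p)
          (mfderiv 𝓘(ℝ, E) 𝓘(ℝ, E₁) pr p a))
        (mfderiv 𝓘(ℝ, E₁) 𝓘(ℝ, E₁) (extChartAt 𝓘(ℝ, E₁) z) (pr p)
          (mfderiv 𝓘(ℝ, E) 𝓘(ℝ, E₁) pr p a')) := by
    rintro p rfl a a' ha ha'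
    exact hm_hor hpr g hA ha ha'
  funext i j
  obtain ⟨h1, h2⟩ := hor_lift hpr g hA' (finBasis ℝ E₁ i)
  obtain ⟨h3, h4⟩ := hor_lift hpr g hA' (finBasis ℝ E₁ j)
  have h5 := key (σ' q') h _ _ h1 h3
  have h6 := hm_hor hpr g hA' h1 h3
  rw [h2, h4, HmAux.mB_bas] at h5 h6
  exact h5.symm.trans h6

end Pool.Agent.Lib.MP_df705a_gt.Coll.Y
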