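import Pool.Agent.Lib.MP_df705a_gt.Coll.IX
import Pool.Agent.Lib.MP_df705a_gt.Coll.Y.Hm
import Pool.Agent.Lib.MP_df705a_gt.Mg.G061
import Pool.Agent.Lib.MP_df705a_gt.Fib.FibredSm

/-!
# Module Y: normalization of the horizontal volume
-/

open scoped Manifold ContDiff Topology
open Set Bundle Module Filter MeasureTheory

noncomputable section

namespace Pool.Agent.Lib.MP_df705a_gt.Coll.Y

open Pool.Agent.Lib.MP_df705a_gt.Twist Pool.Agent.Lib.MP_df705a_gt.Perm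
open Pool.Agent.Lib.MP_df705a_gt.Sub (mB)
open Pool.Agent.Lib.MP_df705a_gt.Circ (Horizontal Submersion cf Para HorConf)
open Pool.Agent.Lib.MP_df705a_gt.Fib (RiemSub Biconformal gσ fm gam normT)

variable {E₁ : Type*} [NormedAddCommGroup E₁] [NormedSpace ℝ E₁] [FiniteDimensional ℝ E₁]
  {B : Type*} [TopologicalSpace B] [ChartedSpace E₁ B] [IsManifold 𝓘(ℝ, E₁) ∞ B]
  {E₂ : Type*} [NormedAddCommGroup E₂] [NormedSpace ℝ E₂] [FiniteDimensional ℝ E₂]
  {F : Type*} [TopologicalSpace F] [ChartedSpace E₂ F] [IsManifold 𝓘(ℝ, E₂) ∞ F]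
  {E : Type*} [NormedAddCommGroup E] [NormedSpace ℝ E] [FiniteDimensional ℝ E]
  {M : Type*} [TopologicalSpace M] [ChartedSpace E M] [IsManifold 𝓘(ℝ, E) ∞ M]

namespace HorVolAux

set_option linter.unusedSectionVars false

/-- The map `chart ∘ σ` has a bijective derivative. -/
theorem tau_bij {E' : Type*} [NormedAddCommGroup E'] [NormedSpace ℝ E']
    [FiniteDimensional ℝ E'] {σ : E' → M} {q : E'} (hσ : Para E σ q) :
    Function.Bijective (fderiv ℝ (Circ.I2.tau E σ q) q) := by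
  have ht : Circ.I2.tau E σ q q ∈ (extChartAt 𝓘(ℝ, E) (σ q)).target := mem_extChartAt_target (σ q)
  have key : ∀ (D : E' →L[ℝ] E) (S : E →L[ℝ] E) (T : E' →L[ℝ] E), (∀ v, D v = S (T v)) →
      Function.Injective S → Function.Bijective D → Function.Bijective T := by
    intro D S T h1 h2 hb
    refine ⟨fun v w hvw => hb.1 ?_, fun w => ?_⟩
    · rw [h1, h1, hvw]
    · obtain ⟨v, hv⟩ := hb.2 (S w)
      refine ⟨v, h2 ?_⟩
      rw [h1] at hv
      exact hv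
  exact key _ _ _ (Circ.I2.deriv_eq hσ).self_of_nhds (symm_injective 𝓘(ℝ, E) (σ q) ht) hσ.bij

/-- `hm_hor` at a point which is only propositionally equal to `σ q`. -/
theorem hor {pr : M → B} (hpr : Submersion E E₁ pr) (g : Met E M) {σ : E₁ × E₂ → M}
    {q : E₁ × E₂} {z : B} (hA : Fib.AC E pr σ q z) {p : M} (h : p = σ q)
    {a a' : TangentSpace 𝓘(ℝ, E) p}
    (ha : Horizontal (E₁ := E₁) g pr p a) (ha' : Horizontal (E₁ := E₁) g pr p a') :
    g.inner p a a' = mB (hm g σ q)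
      (mfderiv 𝓘(ℝ, E₁) 𝓘(ℝ, E₁) (extChartAt 𝓘(ℝ, E₁) z) (pr p)
        (mfderiv 𝓘(ℝ, E) 𝓘(ℝ, E₁) pr p a))
      (mfderiv 𝓘(ℝ, E₁) 𝓘(ℝ, E₁) (extChartAt 𝓘(ℝ, E₁) z) (pr p)
        (mfderiv 𝓘(ℝ, E) 𝓘(ℝ, E₁) pr p a')) := by
  subst h
  exact hm_hor hpr g hA ha ha'

/-- The differentials of two charts. -/
theorem chart_comp {z z' b : B} (hb : b ∈ (extChartAt 𝓘(ℝ, E₁) z).source)
    (hb' : b ∈ (extChartAt 𝓘(ℝ, E₁) z').source) (w : TangentSpace 𝓘(ℝ, E₁) b) :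
    (mfderiv 𝓘(ℝ, E₁) 𝓘(ℝ, E₁) (extChartAt 𝓘(ℝ, E₁) z') b w : E₁) =
      fderiv ℝ (trans 𝓘(ℝ, E₁) z' z) (extChartAt 𝓘(ℝ, E₁) z b)
        (mfderiv 𝓘(ℝ, E₁) 𝓘(ℝ, E₁) (extChartAt 𝓘(ℝ, E₁) z) b w) := by
  have hd : extChartAt 𝓘(ℝ, E₁) z b ∈ dom 𝓘(ℝ, E₁) z' z := by
    refine ⟨(extChartAt 𝓘(ℝ, E₁) z).map_source hb, ?_⟩
    change (extChartAt 𝓘(ℝ, E₁) z).symm (extChartAt 𝓘(ℝ, E₁) z b) ∈
      (extChartAt 𝓘(ℝ, E₁) z').source
    rw [(extChartAt 𝓘(ℝ, E₁) z).left_inv hb]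
    exact hb'
  have h1 : (extChartAt 𝓘(ℝ, E₁) z' : B → E₁) =ᶠ[𝓝 b]
      trans 𝓘(ℝ, E₁) z' z ∘ (extChartAt 𝓘(ℝ, E₁) z) := by
    filter_upwards [(isOpen_extChartAt_source (I := 𝓘(ℝ, E₁)) z).mem_nhds hb] with x hx
    change extChartAt 𝓘(ℝ, E₁) z' x =
      extChartAt 𝓘(ℝ, E₁) z' ((extChartAt 𝓘(ℝ, E₁) z).symm (extChartAt 𝓘(ℝ, E₁) z x))
    rw [(extChartAt 𝓘(ℝ, E₁) z).left_inv hx]
  have h2 : MDifferentiableAt 𝓘(ℝ, E₁) 𝓘(ℝ, E₁) (extChartAt 𝓘(ℝ, E₁) z) b :=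
    (contMDiffAt_extChartAt' (n := ∞) (by rwa [extChartAt_source] at hb)).mdifferentiableAt
      (by simp)
  have h3 : MDifferentiableAt 𝓘(ℝ, E₁) 𝓘(ℝ, E₁) (trans 𝓘(ℝ, E₁) z' z)
      (extChartAt 𝓘(ℝ, E₁) z b) := (trans_differentiableAt 𝓘(ℝ, E₁) hd).mdifferentiableAt
  have h4 := mfderiv_comp (I := 𝓘(ℝ, E₁)) (I' := 𝓘(ℝ, E₁)) (I'' := 𝓘(ℝ, E₁)) b h3 h2
  have h5 : mfderiv 𝓘(ℝ, E₁) 𝓘(ℝ, E₁) (trans 𝓘(ℝ, E₁) z' z) (extChartAt 𝓘(ℝ, E₁) z b) =
      fderiv ℝ (trans 𝓘(ℝ, E₁) z' z) (extChartAt 𝓘(ℝ, E₁) z b) := mfderiv_eq_fderiv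
  rw [h1.mfderiv_eq, h4, h5]
  rfl

end HorVolAux

/-- A function is smooth if near every point it is smooth in some parametrization.  The map
`τ = extChartAt (σ q) ∘ σ` is smooth near `q` with bijective derivative (`Circ.….tau_smooth`,
Circ/ParaInv.lean), so it has a smooth local inverse (`ContDiffAt.toOpenPartialHomeomorph`,
`ContDiffAt.to_localInverse`), and `f ∘ chart⁻¹ = (f ∘ σ) ∘ τ⁻¹` near the point. -/
theorem sm_of_para {E' : Type*} [NormedAddCommGroup E'] [NormedSpace ℝ E']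
    [FiniteDimensional ℝ E'] {f : M → ℝ}
    (h : ∀ p : M, ∃ (σ : E' → M) (q : E'), σ q = p ∧ Para E σ q ∧
      ContDiffAt ℝ ∞ (fun y => f (σ y)) q) : Sm E f := by
  intro p
  obtain ⟨σ, q, hq, hσ, hf⟩ := h p
  subst hq
  have : CompleteSpace E' := FiniteDimensional.complete ℝ E'
  have hb := HorVolAux.tau_bij hσ
  set τ := Circ.I2.tau E σ q with hτ
  have hs : ContDiffAt ℝ ∞ τ q := Circ.I2.tau_smooth hσ
  let L : E' ≃L[ℝ] E := ContinuousLinearEquiv.ofBijective (fderiv ℝ τ q)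
    (LinearMap.ker_eq_bot.2 hb.1) (LinearMap.range_eq_top.2 hb.2)
  have hL : (L : E' →L[ℝ] E) = fderiv ℝ τ q := by
    ext v
    rfl
  have hd : HasFDerivAt τ (L : E' →L[ℝ] E) q := by
    rw [hL]
    exact (hs.differentiableAt (by simp)).hasFDerivAt
  set e := ContDiffAt.toOpenPartialHomeomorph τ hs hd (by simp) with he
  have heτ : ∀ x, e x = τ x := fun x => rfl
  have hqe : q ∈ e.source := ContDiffAt.mem_toOpenPartialHomeomorph_source _ _ _
  have hpt : e q ∈ e.target := e.map_source hqe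
  have hsym : e.symm (e q) = q := e.left_inv hqe
  have hinvs : ContDiffAt ℝ ∞ e.symm (e q) := by
    refine e.contDiffAt_symm (f₀' := L) hpt ?_ ?_
    · rw [hsym]
      exact hd
    · rw [hsym]
      exact hs
  have h1 : ContDiffAt ℝ ∞ (fun y => f (σ (e.symm y))) (e q) := by
    refine ContDiffAt.comp (g := fun y => f (σ y)) (f := e.symm) (e q) ?_ hinvs
    rw [hsym]
    exact hf
  have h2 : ContMDiffAt 𝓘(ℝ, E) 𝓘(ℝ, ℝ) ∞
      (fun x => f (σ (e.symm (extChartAt 𝓘(ℝ, E) (σ q) x)))) (σ q) :=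
    ContMDiffAt.comp (g := fun y => f (σ (e.symm y)))
      (f := fun x => extChartAt 𝓘(ℝ, E) (σ q) x) (σ q) h1.contMDiffAt contMDiffAt_extChartAt
  refine h2.congr_of_eventuallyEq ?_
  have ht : Tendsto (fun x => extChartAt 𝓘(ℝ, E) (σ q) x) (𝓝 (σ q)) (𝓝 (e q)) :=
    continuousAt_extChartAt (I := 𝓘(ℝ, E)) (σ q)
  have hts : Tendsto (fun x => e.symm (extChartAt 𝓘(ℝ, E) (σ q) x)) (𝓝 (σ q)) (𝓝 q) := by
    have h3 := (e.continuousAt_symm hpt).tendsto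
    rw [hsym] at h3
    exact h3.comp ht
  filter_upwards [extChartAt_source_mem_nhds (I := 𝓘(ℝ, E)) (σ q),
    ht.eventually (e.open_target.mem_nhds hpt), hts.eventually (Circ.I2.near hσ)] with x hx hx2 hx3
  have h4 : e (e.symm (extChartAt 𝓘(ℝ, E) (σ q) x)) = extChartAt 𝓘(ℝ, E) (σ q) x :=
    e.right_inv hx2
  have h5 : extChartAt 𝓘(ℝ, E) (σ q) (σ (e.symm (extChartAt 𝓘(ℝ, E) (σ q) x))) =
      extChartAt 𝓘(ℝ, E) (σ q) x := h4
  have h6 := (extChartAt 𝓘(ℝ, E) (σ q)).injOn hx3 hx h5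
  rw [h6]

/-- Two adapted parametrizations at the same point of `M`, over the charts at `z` and `z'` of `B`:
with the matrix `T` of the differential of `extChartAt z' ∘ (extChartAt z).symm` at `q.1` both
matrices change by `Tᵀ · T` (`hor_lift` and `hm_hor` for both parametrizations; the formula for
`coeff gB` is the chain rule, `Twist.coeff_law`-type lemmas in Twist/ or Perm/Chart.lean;
`det T ≠ 0`). -/
theorem hm_trans {pr : M → B} (hpr : Submersion E E₁ pr) (g : Met E M) (gB : Met E₁ B)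
    {σ σ' : E₁ × E₂ → M} {q q' : E₁ × E₂} {z z' : B} (hA : Fib.AC E pr σ q z)
    (hA' : Fib.AC E pr σ' q' z') (h : σ q = σ' q') :
    ∃ t : ℝ, 0 < t ∧ (hm g σ q).det = t * (hm g σ' q').det ∧
      (coeff gB z q.1).det = t * (coeff gB z' q'.1).det := by
  have hs : pr (σ q) ∈ (extChartAt 𝓘(ℝ, E₁) z).source := hA.src.self_of_nhds
  have hs' : pr (σ q) ∈ (extChartAt 𝓘(ℝ, E₁) z').source := by
    rw [h]
    exact hA'.src.self_of_nhds
  have hf : extChartAt 𝓘(ℝ, E₁) z (pr (σ q)) = q.1 := hA.fst.self_of_nhds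
  have hf' : extChartAt 𝓘(ℝ, E₁) z' (pr (σ q)) = q'.1 := by
    rw [h]
    exact hA'.fst.self_of_nhds
  have hsy : (extChartAt 𝓘(ℝ, E₁) z).symm q.1 = pr (σ q) := by
    rw [← hf]
    exact (extChartAt 𝓘(ℝ, E₁) z).left_inv hs
  have htq : q.1 ∈ (extChartAt 𝓘(ℝ, E₁) z).target := by
    rw [← hf]
    exact (extChartAt 𝓘(ℝ, E₁) z).map_source hs
  have hdom : q.1 ∈ dom 𝓘(ℝ, E₁) z' z := by
    refine ⟨htq, ?_⟩
    change (extChartAt 𝓘(ℝ, E₁) z).symm q.1 ∈ (extChartAt 𝓘(ℝ, E₁) z').source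
    rw [hsy]
    exact hs'
  have htr : trans 𝓘(ℝ, E₁) z' z q.1 = q'.1 := by
    change extChartAt 𝓘(ℝ, E₁) z' ((extChartAt 𝓘(ℝ, E₁) z).symm q.1) = q'.1
    rw [hsy, hf']
  set T : E₁ →L[ℝ] E₁ := fderiv ℝ (trans 𝓘(ℝ, E₁) z' z) q.1 with hT
  set A := LinearMap.toMatrix (finBasis ℝ E₁) (finBasis ℝ E₁) (T : E₁ →ₗ[ℝ] E₁) with hAdef
  have hc : coeff gB z q.1 = A.transpose * coeff gB z' q'.1 * A := by
    have h1 := chartMetric_law 𝓘(ℝ, E₁) (finBasis ℝ E₁) gB hdom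
    rw [htr] at h1
    exact h1
  have hm1 : hm g σ q = A.transpose * hm g σ' q' * A := by
    ext i j
    rw [hAdef, Circ.CS.mB_eq_matrix]
    obtain ⟨ai, bi⟩ := hor_lift hpr g hA (finBasis ℝ E₁ i)
    obtain ⟨aj, bj⟩ := hor_lift hpr g hA (finBasis ℝ E₁ j)
    have h1 := HorVolAux.hor hpr g hA' h ai aj
    have h2 : ∀ u : E₁, mfderiv 𝓘(ℝ, E₁) 𝓘(ℝ, E₁) (extChartAt 𝓘(ℝ, E₁) z') (pr (σ q))
        (mfderiv 𝓘(ℝ, E) 𝓘(ℝ, E₁) pr (σ q)
          (mfderiv 𝓘(ℝ, E₁ × E₂) 𝓘(ℝ, E) σ q ((u, gam g σ q u) : E₁ × E₂))) = T u := by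
      intro u
      have h3 := HorVolAux.chart_comp hs hs' (mfderiv 𝓘(ℝ, E) 𝓘(ℝ, E₁) pr (σ q)
          (mfderiv 𝓘(ℝ, E₁ × E₂) 𝓘(ℝ, E) σ q ((u, gam g σ q u) : E₁ × E₂)))
      rw [hf] at h3
      have h4 := (hor_lift hpr g hA u).2
      exact h3.trans (congrArg (fun v : E₁ => T v) h4)
    rw [← h2, ← h2]
    exact h1
  have hA2 : A.det ≠ 0 := by
    intro h0
    have h1 : (coeff gB z q.1).det ≠ 0 := g3_coeff_det gB z htq
    apply h1
    rw [hc, Matrix.det_mul, h0, mul_zero]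
  refine ⟨A.det ^ 2, by positivity, ?_, ?_⟩
  · rw [hm1, Matrix.det_mul, Matrix.det_mul, Matrix.det_transpose]
    ring
  · rw [hc, Matrix.det_mul, Matrix.det_mul, Matrix.det_transpose]
    ring

/-- The quotient of the two determinants is a well defined positive smooth function: define `R p` by an
adapted parametrization at `p` (`Fib.….exists_AC`, Fib/SubChart.lean); `hm_trans` shows that the formula holds
in every adapted parametrization; smoothness by `sm_of_para`, `ac_ev`, `hm_smooth` and the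
smoothness of the coefficients of `gB`. -/
theorem exists_ratio (hd : finrank ℝ E = finrank ℝ E₁ + finrank ℝ E₂) {pr : M → B}
    (hpr : Submersion E E₁ pr) (g : Met E M) (gB : Met E₁ B) :
    ∃ R : M → ℝ, Sm E R ∧ (∀ p, 0 < R p) ∧
      ∀ (σ : E₁ × E₂ → M) (q : E₁ × E₂) (z : B), Fib.AC E pr σ q z →
        (coeff gB z q.1).det = R (σ q) * (hm g σ q).det := by
  choose S Q hSQ hAC using fun p : M => Fib.exists_AC (E₂ := E₂) hd hpr p
  have key : ∀ (σ : E₁ × E₂ → M) (q : E₁ × E₂) (z : B), Fib.AC E pr σ q z →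
      (coeff gB z q.1).det = ((coeff gB (pr (σ q)) (Q (σ q)).1).det /
        (hm g (S (σ q)) (Q (σ q))).det) * (hm g σ q).det := by
    intro σ q z hA
    obtain ⟨t, ht, h1, h2⟩ := hm_trans hpr g gB hA (hAC (σ q)) (hSQ (σ q)).symm
    have h3 : (hm g (S (σ q)) (Q (σ q))).det ≠ 0 :=
      (hm_posDef g (hAC (σ q)).para.self_of_nhds).det_pos.ne'
    rw [h1, h2]
    field_simp
  refine ⟨fun p => (coeff gB (pr p) (Q p).1).det / (hm g (S p) (Q p)).det, ?_, ?_, key⟩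
  · refine sm_of_para (E' := E₁ × E₂) fun p => ?_
    refine ⟨S p, Q p, hSQ p, (hAC p).para.self_of_nhds, ?_⟩
    have hA := hAC p
    have h1 : (fun y => (fun p => (coeff gB (pr p) (Q p).1).det / (hm g (S p) (Q p)).det)
        (S p y)) =ᶠ[𝓝 (Q p)]
        fun y => (coeff gB (pr p) y.1).det / (hm g (S p) y).det := by
      filter_upwards [ac_ev hA] with y hy
      have h2 := key (S p) y (pr p) hy
      have h3 : (hm g (S p) y).det ≠ 0 := (hm_posDef g hy.para.self_of_nhds).det_pos.ne'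
      rw [eq_div_iff h3]
      exact h2.symm
    refine ContDiffAt.congr_of_eventuallyEq ?_ h1
    have hq : (Q p).1 ∈ (extChartAt 𝓘(ℝ, E₁) (pr p)).target := by
      rw [← hA.fst.self_of_nhds]
      exact (extChartAt 𝓘(ℝ, E₁) (pr p)).map_source hA.src.self_of_nhds
    refine ContDiffAt.div ?_ ?_ (hm_posDef g hA.para.self_of_nhds).det_pos.ne'
    · have h4 : ContDiffAt ℝ ∞ (fun y => (coeff gB (pr p) y).det) (Q p).1 :=
        contDiffAt_det fun i j => g3_coeff_smooth gB (pr p) hq i j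
      exact ContDiffAt.comp (g := fun y => (coeff gB (pr p) y).det)
        (f := fun y : E₁ × E₂ => y.1) (Q p) h4 contDiffAt_fst
    · exact contDiffAt_det fun i j => hm_smooth g hA.para i j
  · intro p
    refine div_pos ?_ (hm_posDef g (hAC p).para.self_of_nhds).det_pos
    have hA := hAC p
    have hq : (Q p).1 ∈ (extChartAt 𝓘(ℝ, E₁) (pr p)).target := by
      rw [← hA.fst.self_of_nhds]
      exact (extChartAt 𝓘(ℝ, E₁) (pr p)).map_source hA.src.self_of_nhds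
    exact (chartMetric_posDef 𝓘(ℝ, E₁) (finBasis ℝ E₁) gB (pr p) hq).det_pos

/-- `ψ = log R / (2 m)` with `m = finrank ℝ E₁`.  For `g' = e^{2ψ} g` the connection is the same,
`gam g' σ = gam g σ` (`fm` and the form are multiplied by the same number) and
`hm g' σ q = e^{2ψ (σ q)} • hm g σ q`, whose determinant is
`e^{2 m ψ (σ q)} det (hm g σ q) = R (σ q) det (hm g σ q)`. -/
theorem exists_horVol [CompactSpace M] [T2Space M] (hd : finrank ℝ E = finrank ℝ E₁ + finrank ℝ E₂)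
    (hd₁ : 0 < finrank ℝ E₁) {pr : M → B} (hpr : Submersion E E₁ pr) (g : Met E M)
    (gB : Met E₁ B) :
    ∃ ψ : M → ℝ, Sm E ψ ∧ ∀ g' : Met E M, IsConf ψ g g' → HorVol E₂ g' gB pr := by
  obtain ⟨R, hR, hR0, hR1⟩ := exists_ratio (E₂ := E₂) hd hpr g gB
  have hm0 : (0 : ℝ) < finrank ℝ E₁ := by exact_mod_cast hd₁
  refine ⟨fun p => Real.log (R p) / (2 * finrank ℝ E₁), ?_, ?_⟩
  · intro p
    have h1 : ContMDiffAt 𝓘(ℝ, E) 𝓘(ℝ, ℝ) ∞ R p := hR p
    have h2 : ContDiffAt ℝ ∞ (fun r : ℝ => Real.log r / (2 * finrank ℝ E₁)) (R p) :=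
      (Real.contDiffAt_log.2 (hR0 p).ne').div_const _
    exact ContMDiffAt.comp (g := fun r : ℝ => Real.log r / (2 * finrank ℝ E₁)) (f := R) p
      h2.contMDiffAt h1
  · intro g' hg' σ q z hA
    set c : ℝ := Real.exp (Real.log (R (σ q)) / (2 * finrank ℝ E₁)) ^ 2 with hc
    have hc0 : c ≠ 0 := by positivity
    have hG : ∀ v w : E₁ × E₂, gσ g' σ q v w = c * gσ g σ q v w := by
      intro v w
      rw [Fib.gσ_apply, Fib.gσ_apply]
      exact hg' (σ q) _ _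
    have hp := hA.para.self_of_nhds
    have hF : fm g' σ q = c • fm g σ q := by
      ext i j
      exact hG _ _
    have hdet : IsUnit (fm g σ q).det := (Fib.G2.fm_pos g hp).det_pos.ne'.isUnit
    have hFi : (fm g' σ q)⁻¹ = c⁻¹ • (fm g σ q)⁻¹ := by
      rw [hF]
      exact Matrix.inv_smul' (A := fm g σ q) (Units.mk0 c hc0) hdet
    have hGam : ∀ u : E₁, gam g' σ q u = gam g σ q u := by
      intro u
      have h2 : ∀ g : Met E M, gam g σ q u = ∑ i, (∑ j, -(fm g σ q)⁻¹ i j *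
          gσ g σ q (0, finBasis ℝ E₂ j) (u, 0)) • finBasis ℝ E₂ i := by
        intro g
        unfold gam
        rw [sum_apply]
        refine Finset.sum_congr rfl fun i _ => ?_
        rw [ContinuousLinearMap.smulRight_apply, sum_apply]
        congr 1
      rw [h2, h2]
      refine Finset.sum_congr rfl fun i _ => ?_
      congr 1
      refine Finset.sum_congr rfl fun j _ => ?_
      rw [hFi, hG, Matrix.smul_apply, smul_eq_mul]
      field_simp
    have hH : hm g' σ q = c • hm g σ q := by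
      ext i j
      rw [Matrix.smul_apply, smul_eq_mul]
      unfold hm
      rw [hGam, hGam, hG]
    rw [hH, Matrix.det_smul, hR1 σ q z hA, Fintype.card_fin]
    congr 1
    rw [hc, ← pow_mul, ← Real.exp_nat_mul]
    have h3 : ((2 * finrank ℝ E₁ : ℕ) : ℝ) * (Real.log (R (σ q)) / (2 * finrank ℝ E₁)) =
        Real.log (R (σ q)) := by
      push_cast
      field_simp
    rw [h3, Real.exp_log (hR0 _)]

end Pool.Agent.Lib.MP_df705a_gt.Coll.Y
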