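import Pool.Agent.Lib.MP_df705a_gt.Coll.Defs

/-!
# Module Y: the metric with a general horizontal part
-/

open scoped Manifold ContDiff Topology
open Set Bundle Module Filter MeasureTheory

noncomputable section

namespace Pool.Agent.Lib.MP_df705a_gt.Coll.Y

open Pool.Agent.Lib.MP_df705a_gt.Twist Pool.Agent.Lib.MP_df705a_gt.Perm
open Pool.Agent.Lib.MP_df705a_gt.Sub (mB)
open Pool.Agent.Lib.MP_df705a_gt.Circ (Horizontal Submersion cf Para HorConf)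
open Pool.Agent.Lib.MP_df705a_gt.Fib (RiemSub Biconformal gσ fm gam normT)

variable {E₁ : Type*} [NormedAddCommGroup E₁] [NormedSpace ℝ E₁] [FiniteDimensional ℝ E₁]
  {B : Type*} [TopologicalSpace B] [ChartedSpace E₁ B] [IsManifold 𝓘(ℝ, E₁) ∞ B]
  {E₂ : Type*} [NormedAddCommGroup E₂] [NormedSpace ℝ E₂] [FiniteDimensional ℝ E₂]
  {F : Type*} [TopologicalSpace F] [ChartedSpace E₂ F] [IsManifold 𝓘(ℝ, E₂) ∞ F]
  {E : Type*} [NormedAddCommGroup E] [NormedSpace ℝ E] [FiniteDimensional ℝ E]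
  {M : Type*} [TopologicalSpace M] [ChartedSpace E M] [IsManifold 𝓘(ℝ, E) ∞ M]

/-- The metric `H(dx, dx) + ε² f(dy - Γ dx, dy - Γ dx)` where `H` depends on `(x, y)`. -/
def cG (H : E₁ × E₂ → Matrix (Fin (finrank ℝ E₁)) (Fin (finrank ℝ E₁)) ℝ)
    (f : E₁ × E₂ → Matrix (Fin (finrank ℝ E₂)) (Fin (finrank ℝ E₂)) ℝ)
    (Γ : E₁ × E₂ → E₁ →L[ℝ] E₂) (ε : ℝ) : Curv.Coeff (E₁ × E₂) := fun q i j =>
  mB (H q) (finBasis ℝ (E₁ × E₂) i).1 (finBasis ℝ (E₁ × E₂) j).1 +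
    ε ^ 2 * mB (f q) ((finBasis ℝ (E₁ × E₂) i).2 - Γ q (finBasis ℝ (E₁ × E₂) i).1)
      ((finBasis ℝ (E₁ × E₂) j).2 - Γ q (finBasis ℝ (E₁ × E₂) j).1)

/-- The derivative of `H` in the direction of the `i`-th basis vector of the fibre. -/
def dHv (H : E₁ × E₂ → Matrix (Fin (finrank ℝ E₁)) (Fin (finrank ℝ E₁)) ℝ) (q : E₁ × E₂)
    (i : Fin (finrank ℝ E₂)) : Matrix (Fin (finrank ℝ E₁)) (Fin (finrank ℝ E₁)) ℝ := fun a b =>
  fderiv ℝ (fun p => H p a b) q (0, finBasis ℝ E₂ i)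

/-- The number `1/4 ∑ F^{ij} ⟨S_i, S_j⟩_A`. -/
def qd {m k : ℕ} (A : Matrix (Fin m) (Fin m) ℝ) (F : Matrix (Fin k) (Fin k) ℝ)
    (S : Fin k → Matrix (Fin m) (Fin m) ℝ) : ℝ :=
  (1 / 4) * ∑ i, ∑ j, F⁻¹ i j * ipM A (S i) (S j)

end Pool.Agent.Lib.MP_df705a_gt.Coll.Y
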