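import Pool.Agent.Lib.MP_df705a_gt.Coll.Y.Hm
import Pool.Agent.Lib.MP_df705a_gt.Coll.Y.CGDefs
import Pool.Agent.Lib.MP_df705a_gt.Fib.CompGam
import Pool.Agent.Lib.MP_df705a_gt.Fib.CompAC
import Pool.Agent.Lib.MP_df705a_gt.Fib.Normal

/-!
# Module Y: parametrizations in normal form
-/

open scoped Manifold ContDiff Topology
open Set Bundle Module Filter MeasureTheory

noncomputable section

namespace Pool.Agent.Lib.MP_df705a_gt.Coll.Y

open Pool.Agent.Lib.MP_df705a_gt.Twist Pool.Agent.Lib.MP_df705a_gt.Perm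
open Pool.Agent.Lib.MP_df705a_gt.Sub (mB)
open Pool.Agent.Lib.MP_df705a_gt.Circ (Horizontal Submersion cf Para HorConf)
open Pool.Agent.Lib.MP_df705a_gt.Fib (RiemSub Biconformal gσ fm gam normT)

variable {E₁ : Type*} [NormedAddCommGroup E₁] [NormedSpace ℝ E₁] [FiniteDimensional ℝ E₁]
  {B : Type*} [TopologicalSpace B] [ChartedSpace E₁ B] [IsManifold 𝓘(ℝ, E₁) ∞ B]
  {E₂ : Type*} [NormedAddCommGroup E₂] [NormedSpace ℝ E₂] [FiniteDimensional ℝ E₂]
  {F : Type*} [TopologicalSpace F] [ChartedSpace E₂ F] [IsManifold 𝓘(ℝ, E₂) ∞ F]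
  {E : Type*} [NormedAddCommGroup E] [NormedSpace ℝ E] [FiniteDimensional ℝ E]
  {M : Type*} [TopologicalSpace M] [ChartedSpace E M] [IsManifold 𝓘(ℝ, E) ∞ M]

/-- The parametrization `σ ∘ normT (gam g σ) q` is adapted and its connection is in normal form at `q`:
`Fib.AC.comp` (Fib/CompAC.lean) with `Fib.….normT_smooth`, `normT_self`, `normT_fst`, `normT_fderiv`
(Fib/Normal.lean), and `Fib.….NF_of_rel` with `Fib.….gam_comp` (Fib/CompGam.lean) and
`gam_smooth`. -/
theorem nf_norm (g : Met E M) {pr : M → B} {σ : E₁ × E₂ → M} {q : E₁ × E₂} {z : B}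
    (hA : Fib.AC E pr σ q z) : Fib.AC E pr (σ ∘ normT (gam g σ) q) q z ∧
      Fib.NF (gam g (σ ∘ normT (gam g σ) q)) q := by
  have hτ : ContDiff ℝ ∞ (normT (gam g σ) q) := Fib.normT_smooth _ q
  have hq : normT (gam g σ) q q = q := Fib.normT_self _ q
  have h1 : ∀ y, (normT (gam g σ) q y).1 = y.1 := fun y => Fib.normT_fst _ q y
  have h2 : Function.Bijective (fderiv ℝ (normT (gam g σ) q) q) := by
    constructor
    · intro v w hvw
      rw [Fib.normT_fderiv, Fib.normT_fderiv, Prod.mk.injEq] at hvw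
      obtain ⟨e1, e2⟩ := hvw
      rw [e1] at e2
      exact Prod.ext e1 (add_right_cancel e2)
    · intro w
      refine ⟨(w.1, w.2 - gam g σ q w.1), ?_⟩
      rw [Fib.normT_fderiv]
      exact Prod.ext rfl (by simp)
  have hA' := Fib.AC.comp hA hτ hq h1 h2
  exact ⟨hA', Fib.NF_of_rel (gam_smooth g hA.para)
    (gam_smooth g hA'.para) (Fib.gam_comp g hA hτ hq h1 h2)⟩

/-- The value of the function `A` of `exists_sv` in a parametrization in normal form. -/
def Aval (g : Met E M) (σ : E₁ × E₂ → M) (q : E₁ × E₂) : ℝ :=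
  Curv.scal (fun y => fm g σ (q.1, y)) q.2 - qd (hm g σ q) (fm g σ q) (dHv (hm g σ) q)

end Pool.Agent.Lib.MP_df705a_gt.Coll.Y
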