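import Pool.Agent.Lib.MP_df705a_gt.Coll.IX
import Pool.Agent.Lib.MP_df705a_gt.Coll.Y.Nf

/-!
# Module Y: the scalar curvature of the fibres in normal form
-/

open scoped Manifold ContDiff Topology
open Set Bundle Module Filter MeasureTheory

noncomputable section

namespace Pool.Agent.Lib.MP_df705a_gt.Coll.Y

open Pool.Agent.Lib.MP_df705a_gt.Twist Pool.Agent.Lib.MP_df705a_gt.Perm
open Pool.Agent.Lib.MP_df705a_gt.Sub (mB)
open Pool.Agent.Lib.MP_df705a_gt.Circ (Horizontal Submersion cf Para HorConf)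
open Pool.Agent.Lib.MP_df705a_gt.Fib (RiemSub Biconformal gσ fm gam normT)

variable {E₁ : Type*} [NormedAddCommGroup E₁] [NormedSpace ℝ E₁] [FiniteDimensional ℝ E₁]
  {B : Type*} [TopologicalSpace B] [ChartedSpace E₁ B] [IsManifold 𝓘(ℝ, E₁) ∞ B]
  {E₂ : Type*} [NormedAddCommGroup E₂] [NormedSpace ℝ E₂] [FiniteDimensional ℝ E₂]
  {F : Type*} [TopologicalSpace F] [ChartedSpace E₂ F] [IsManifold 𝓘(ℝ, E₂) ∞ F]
  {E : Type*} [NormedAddCommGroup E] [NormedSpace ℝ E] [FiniteDimensional ℝ E]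
  {M : Type*} [TopologicalSpace M] [ChartedSpace E M] [IsManifold 𝓘(ℝ, E) ∞ M]

namespace AvFibAux

/-- the form in the new coordinates -/
theorem gσ_comp (g : Met E M) {σ τ' : E₁ × E₂ → M} {τ : E₁ × E₂ → E₁ × E₂} {y : E₁ × E₂}
    (hc : τ' = σ ∘ τ) (hσ : Para E σ (τ y)) (hτ : ContDiff ℝ ∞ τ) (v w : E₁ × E₂) :
    gσ g τ' y v w = gσ g σ (τ y) (fderiv ℝ τ y v) (fderiv ℝ τ y w) := by
  subst hc
  have hτy : ContMDiffAt 𝓘(ℝ, E₁ × E₂) 𝓘(ℝ, E₁ × E₂) ∞ τ y := hτ.contMDiff y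
  have h3 : mfderiv 𝓘(ℝ, E₁ × E₂) 𝓘(ℝ, E) (σ ∘ τ) y =
      (mfderiv 𝓘(ℝ, E₁ × E₂) 𝓘(ℝ, E) σ (τ y)).comp
        (mfderiv 𝓘(ℝ, E₁ × E₂) 𝓘(ℝ, E₁ × E₂) τ y) :=
    mfderiv_comp y (hσ.smooth.mdifferentiableAt (by simp)) (hτy.mdifferentiableAt (by simp))
  rw [mfderiv_eq_fderiv] at h3
  rw [Fib.gσ_apply, Fib.gσ_apply, h3]
  rfl

theorem fm_self (g : Met E M) {σ : E₁ × E₂ → M} {q : E₁ × E₂} (hσ : Para E σ q) :
    fm g (σ ∘ normT (gam g σ) q) q = fm g σ q := by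
  have hσ' : Para E σ (normT (gam g σ) q q) := by
    rw [Fib.normT_self]
    exact hσ
  ext i j
  have h1 := gσ_comp g (τ := normT (gam g σ) q) rfl hσ' (Fib.normT_smooth _ _)
    ((0, finBasis ℝ E₂ i) : E₁ × E₂) (0, finBasis ℝ E₂ j)
  rw [Fib.normT_fderiv, Fib.normT_fderiv, Fib.normT_self] at h1
  simp only [map_zero, add_zero] at h1
  exact h1

theorem hm_ev {pr : M → B} (hpr : Submersion E E₁ pr) (g : Met E M) {σ : E₁ × E₂ → M}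
    {q : E₁ × E₂} {z : B} (hA : Fib.AC E pr σ q z) :
    ∀ᶠ p in 𝓝 q, hm g (σ ∘ normT (gam g σ) q) p = hm g σ (normT (gam g σ) q p) := by
  have ht : Tendsto (normT (gam g σ) q) (𝓝 q) (𝓝 q) := by
    have := (Fib.normT_smooth (gam g σ) q).continuous.tendsto q
    rwa [Fib.normT_self] at this
  filter_upwards [ac_ev (nf_norm g hA).1, ht.eventually (ac_ev hA)] with p h1 h2
  exact hm_eq hpr g h1 h2 rfl

theorem dHv_self {pr : M → B} (hpr : Submersion E E₁ pr) (g : Met E M) {σ : E₁ × E₂ → M}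
    {q : E₁ × E₂} {z : B} (hA : Fib.AC E pr σ q z) :
    dHv (hm g (σ ∘ normT (gam g σ) q)) q = dHv (hm g σ) q := by
  funext i
  ext a b
  unfold dHv
  have h1 : (fun p => hm g (σ ∘ normT (gam g σ) q) p a b) =ᶠ[𝓝 q]
      (fun p => hm g σ p a b) ∘ normT (gam g σ) q := by
    filter_upwards [hm_ev hpr g hA] with p hp
    rw [hp]
    rfl
  have h2 : DifferentiableAt ℝ (fun p => hm g σ p a b) (normT (gam g σ) q q) := by
    rw [Fib.normT_self]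
    exact (hm_smooth g hA.para a b).differentiableAt (by simp)
  have h3 : DifferentiableAt ℝ (normT (gam g σ) q) q :=
    (Fib.normT_smooth (gam g σ) q).contDiffAt.differentiableAt (by simp)
  rw [h1.fderiv_eq, fderiv_comp q h2 h3, ContinuousLinearMap.comp_apply, Fib.normT_fderiv,
    Fib.normT_self]
  simp only [map_zero, add_zero]

omit [FiniteDimensional ℝ E₁] [FiniteDimensional ℝ E₂] [FiniteDimensional ℝ E]
  [IsManifold 𝓘(ℝ, E₁) ∞ B] [IsManifold 𝓘(ℝ, E₂) ∞ F] [IsManifold 𝓘(ℝ, E) ∞ M] in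
/-- the restriction of `Φ` to a fibre is differentiable -/
theorem mdiff_fib {pr : M → B} {U : Set B} {Φ : B × F → M} (hΦ : Triv E E₁ E₂ pr U Φ)
    {b : B} (hb : b ∈ U) (z : F) :
    MDifferentiableAt 𝓘(ℝ, E₂) 𝓘(ℝ, E) (fun z => Φ (b, z)) z := by
  have h1 : ContMDiffAt (𝓘(ℝ, E₁).prod 𝓘(ℝ, E₂)) 𝓘(ℝ, E) ∞ Φ (b, z) :=
    hΦ.smooth.contMDiffAt ((hΦ.isOpen.prod isOpen_univ).mem_nhds ⟨hb, mem_univ z⟩)
  have h2 : ContMDiffAt 𝓘(ℝ, E₂) (𝓘(ℝ, E₁).prod 𝓘(ℝ, E₂)) ∞ (fun z : F => (b, z)) z :=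
    contMDiffAt_const.prodMk contMDiffAt_id
  exact (ContMDiffAt.comp z h1 h2).mdifferentiableAt (by simp)

/-- the scalar curvature of the fibre, in slightly more general form -/
theorem scal_fib {U : Set B} {pr : M → B} {Φ : B × F → M}
    (hΦ : Triv E E₁ E₂ pr U Φ) {x : B} (hx : x ∈ U) {g : Met E M} {h : Met E₂ F}
    (hh : IsFib g Φ x h) (y : F) {ρ : E₁ × E₂ → M} {q : E₁ × E₂}
    (hρ : ∀ᶠ p in 𝓝 q, Para E ρ p) {t : E₂ → E₂} (ht : ContDiff ℝ ∞ t)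
    (ht0 : t q.2 = extChartAt 𝓘(ℝ, E₂) y y) (ht1 : fderiv ℝ t q.2 = ContinuousLinearMap.id ℝ E₂)
    (heq : ∀ z : E₂, ρ (q.1, z) = Φ (x, (extChartAt 𝓘(ℝ, E₂) y).symm (t z))) :
    Curv.scal (fun z => fm g ρ (q.1, z)) q.2 = Scal h y := by
  set s : E₂ → F := fun z => (extChartAt 𝓘(ℝ, E₂) y).symm (t z) with hs
  have hc : Tendsto (fun z : E₂ => (q.1, z)) (𝓝 q.2) (𝓝 q) := by
    have : Continuous fun z : E₂ => (q.1, z) := by fun_prop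
    exact this.tendsto q.2
  have htg : ∀ᶠ z in 𝓝 q.2, t z ∈ (extChartAt 𝓘(ℝ, E₂) y).target := by
    have h1 : (extChartAt 𝓘(ℝ, E₂) y).target ∈ 𝓝 (t q.2) := by
      rw [ht0]
      exact extChartAt_target_mem_nhds y
    exact ht.continuous.continuousAt.eventually h1
  have hsm : ∀ᶠ z in 𝓝 q.2, ContMDiffAt 𝓘(ℝ, E₂) 𝓘(ℝ, E₂) ∞ s z := by
    filter_upwards [htg] with z hz
    have h1 : ContMDiffAt 𝓘(ℝ, E₂) 𝓘(ℝ, E₂) ∞ (extChartAt 𝓘(ℝ, E₂) y).symm (t z) :=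
      (contMDiffOn_extChartAt_symm y).contMDiffAt ((isOpen_extChartAt_target y).mem_nhds hz)
    exact ContMDiffAt.comp z h1 (ht.contMDiff z)
  have hsq : s q.2 = y := by
    simp only [hs]
    rw [ht0, extChartAt_to_inv]
  -- `s` is a parametrization
  have hP : Para E₂ s q.2 := by
    refine ⟨hsm.self_of_nhds, ?_⟩
    have ht' : t q.2 ∈ (extChartAt 𝓘(ℝ, E₂) y).target := htg.self_of_nhds
    have h1 : mfderiv 𝓘(ℝ, E₂) 𝓘(ℝ, E₂) ((extChartAt 𝓘(ℝ, E₂) y).symm ∘ t) q.2 =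
        (mfderiv 𝓘(ℝ, E₂) 𝓘(ℝ, E₂) (extChartAt 𝓘(ℝ, E₂) y).symm (t q.2)).comp
          (mfderiv 𝓘(ℝ, E₂) 𝓘(ℝ, E₂) t q.2) :=
      mfderiv_comp q.2 (symm_mdiff 𝓘(ℝ, E₂) y ht')
        ((ht.contMDiff q.2).mdifferentiableAt (by simp))
    rw [mfderiv_eq_fderiv, ht1] at h1
    have key : ∀ (D S : E₂ →L[ℝ] E₂), D = S.comp (ContinuousLinearMap.id ℝ E₂) →
        Function.Injective S → Function.Bijective D := by
      intro D S h2 h3
      have h4 : D = S := by rw [h2]; rfl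
      rw [h4]
      exact ⟨h3, LinearMap.surjective_of_injective (f := (S : E₂ →ₗ[ℝ] E₂)) h3⟩
    exact key _ _ h1 (symm_injective 𝓘(ℝ, E₂) y ht')
  -- the coefficients
  have hcf : (fun z => fm g ρ (q.1, z)) =ᶠ[𝓝 q.2] cf h s := by
    filter_upwards [hc.eventually hρ, hsm] with z h1 h2
    have h3 : (fun z => ρ (q.1, z)) = (fun z => Φ (x, z)) ∘ s := funext heq
    have h4 := mfderiv_comp (I := 𝓘(ℝ, E₂)) (I' := 𝓘(ℝ, E₂)) (I'' := 𝓘(ℝ, E)) z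
      (mdiff_fib hΦ hx (s z)) (h2.mdifferentiableAt (by simp))
    have h5 : ∀ v : E₂, (mfderiv 𝓘(ℝ, E₁ × E₂) 𝓘(ℝ, E) ρ (q.1, z) : (E₁ × E₂) →L[ℝ] E) (0, v) =
        (mfderiv 𝓘(ℝ, E₂) 𝓘(ℝ, E) (fun z => Φ (x, z)) (s z) : E₂ →L[ℝ] E)
          ((mfderiv 𝓘(ℝ, E₂) 𝓘(ℝ, E₂) s z : E₂ →L[ℝ] E₂) v) := by
      intro v
      have h6 : (mfderiv 𝓘(ℝ, E₂) 𝓘(ℝ, E) (fun z => ρ (q.1, z)) z : E₂ →L[ℝ] E) v =
        (mfderiv 𝓘(ℝ, E₁ × E₂) 𝓘(ℝ, E) ρ (q.1, z) : (E₁ × E₂) →L[ℝ] E) (0, v) :=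
        Fib.G8.slice_mfderiv h1.smooth v
      rw [← h6, h3, h4]
      rfl
    ext i j
    have h6 : fm g ρ (q.1, z) i j = g.inner (ρ (q.1, z))
      (mfderiv 𝓘(ℝ, E₁ × E₂) 𝓘(ℝ, E) ρ (q.1, z) ((0, finBasis ℝ E₂ i) : E₁ × E₂))
      (mfderiv 𝓘(ℝ, E₁ × E₂) 𝓘(ℝ, E) ρ (q.1, z) ((0, finBasis ℝ E₂ j) : E₁ × E₂)) := rfl
    have h7 : cf h s z i j = h.inner (s z) (mfderiv 𝓘(ℝ, E₂) 𝓘(ℝ, E₂) s z (finBasis ℝ E₂ i))
      (mfderiv 𝓘(ℝ, E₂) 𝓘(ℝ, E₂) s z (finBasis ℝ E₂ j)) := rfl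
    rw [h6, h7, hh (s z)]
    have key : ∀ (p p' : M) (a b a' b' : E), p = p' → a = a' → b = b' →
        g.inner p a b = g.inner p' a' b' := by
      rintro _ _ _ _ _ _ rfl rfl rfl
      rfl
    exact key _ _ _ _ _ _ (heq z) (h5 _) (h5 _)
  rw [scalC_congr hcf, Circ.scal_cf h hP, hsq]

end AvFibAux

open AvFibAux

/-- Let `σ = psi Φ x y`, `q = pt x y x y`, `τ = normT (gam g σ) q`; `τ q = q`, `(τ p).1 = p.1` and the
differential of `τ` at `q` maps `(0, w)` to `(0, w)` (`normT_fderiv`).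
(1) `hm g (σ ∘ τ) p = hm g σ (τ p)` for `p` near `q` by `hm_eq` (`nf_norm`, `ac_psi`, `ac_ev`), so
`dHv (hm g (σ ∘ τ)) q = dHv (hm g σ) q` (chain rule) and `hm g (σ ∘ τ) q = hm g σ q`.
(2) `fm g (σ ∘ τ) q = fm g σ q`: chain rule.
(3) Let `s z = (extChartAt y).symm (τ (q.1, z)).2`; near `q.2` one has
`(σ ∘ τ) (q.1, z) = Φ (x, s z)`, so `fm g (σ ∘ τ) (q.1, z) = cf h s z` near `q.2` (`IsFib` and the
chain rule; `mfderiv Φ(x, ·)` composed with `mfderiv s`), `s` is a parametrization near `q.2`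
(`Para E₂ s q.2`: the differential of `z ↦ (τ (q.1, z)).2` at `q.2` is the identity) and
`Curv.scal (cf h s) q.2 = Scal h (s q.2) = Scal h y` (`Circ.….scal_cf`). -/
theorem aval_fib {pr : M → B} (hpr : Submersion E E₁ pr) {U : Set B} {Φ : B × F → M}
    (hΦ : Triv E E₁ E₂ pr U Φ) {x : B}
    (hx : x ∈ U) {g : Met E M} {h : Met E₂ F} (hh : IsFib g Φ x h) (y : F) :
    Aval g (psi E₁ E₂ Φ x y ∘ normT (gam g (psi E₁ E₂ Φ x y)) (pt E₁ E₂ x y x y))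
      (pt E₁ E₂ x y x y) = Scal h y - qd (hm g (psi E₁ E₂ Φ x y) (pt E₁ E₂ x y x y))
        (fm g (psi E₁ E₂ Φ x y) (pt E₁ E₂ x y x y))
        (dHv (hm g (psi E₁ E₂ Φ x y)) (pt E₁ E₂ x y x y)) := by
  have hA := ac_psi hΦ hx y
  have hP := hA.para.self_of_nhds
  obtain ⟨hA', -⟩ := nf_norm g hA
  unfold Aval
  have h1 := (hm_ev hpr g hA).self_of_nhds
  rw [Fib.normT_self] at h1
  rw [h1, fm_self g hP, dHv_self hpr g hA]
  congr 1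
  set q := pt E₁ E₂ x y x y with hq
  set Γ := gam g (psi E₁ E₂ Φ x y) with hΓ
  have hsm := Fib.normT_smooth Γ q
  have hsl : ContDiff ℝ ∞ fun z : E₂ => (q.1, z) := contDiff_const.prodMk contDiff_id
  refine scal_fib hΦ hx hh y hA'.para (t := fun z => (normT Γ q (q.1, z)).2)
    (contDiff_snd.comp (hsm.comp hsl)) ?_ ?_ ?_
  · have h2 : ((q.1, q.2) : E₁ × E₂) = q := rfl
    simp only [h2, Fib.normT_self]
    rfl
  · have h3 : HasFDerivAt (fun z : E₂ => (q.1, z)) (ContinuousLinearMap.inr ℝ E₁ E₂) q.2 :=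
      hasFDerivAt_prodMk_right _ _
    have h4 : HasFDerivAt (normT Γ q) (fderiv ℝ (normT Γ q) q) (q.1, q.2) :=
      (hsm.contDiffAt.differentiableAt (by simp)).hasFDerivAt
    have h5 := (ContinuousLinearMap.snd ℝ E₁ E₂).hasFDerivAt.comp q.2
      (HasFDerivAt.comp q.2 h4 h3)
    have h6 := h5.fderiv
    refine h6.trans ?_
    ext v
    simp only [ContinuousLinearMap.comp_apply, ContinuousLinearMap.inr_apply,
      Fib.normT_fderiv, ContinuousLinearMap.coe_snd', map_zero, add_zero,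
      ContinuousLinearMap.id_apply]
  · intro z
    have h3 : (normT Γ q (q.1, z)).1 = q.1 := rfl
    simp only [Function.comp_apply, psi]
    rw [h3]
    have h4 : (extChartAt 𝓘(ℝ, E₁) x).symm q.1 = x := by
      rw [hq]
      simp only [pt, extChartAt_to_inv]
    rw [h4]

end Pool.Agent.Lib.MP_df705a_gt.Coll.Y
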