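import Pool.Agent.Lib.MP_df705a_gt.Coll.IX

/-!
# Module Y: extension of functions on a fibre
-/

open scoped Manifold ContDiff Topology
open Set Bundle Module Filter MeasureTheory

noncomputable section

namespace Pool.Agent.Lib.MP_df705a_gt.Coll.Y

open Pool.Agent.Lib.MP_df705a_gt.Twist Pool.Agent.Lib.MP_df705a_gt.Perm
open Pool.Agent.Lib.MP_df705a_gt.Sub (mB)
open Pool.Agent.Lib.MP_df705a_gt.Circ (Horizontal Submersion cf Para HorConf)
open Pool.Agent.Lib.MP_df705a_gt.Fib (RiemSub Biconformal gσ fm gam normT)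

namespace ExtAux

variable {E' : Type*} [NormedAddCommGroup E'] [NormedSpace ℝ E'] [FiniteDimensional ℝ E']
  {E : Type*} [NormedAddCommGroup E] [NormedSpace ℝ E] [FiniteDimensional ℝ E]
  {M : Type*} [TopologicalSpace M] [ChartedSpace E M] [IsManifold 𝓘(ℝ, E) ∞ M]

theorem tau_bij {σ : E' → M} {q : E'} (hσ : Para E σ q) :
    Function.Bijective (fderiv ℝ (Circ.I2.tau E σ q) q) := by
  have ht : Circ.I2.tau E σ q q ∈ (extChartAt 𝓘(ℝ, E) (σ q)).target :=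
    mem_extChartAt_target (σ q)
  have key : ∀ (D : E' →L[ℝ] E) (S : E →L[ℝ] E) (T : E' →L[ℝ] E), (∀ v, D v = S (T v)) →
      Function.Injective S → Function.Bijective D → Function.Bijective T := by
    intro D S T h1 h2 hb
    refine ⟨fun v w hvw => hb.1 ?_, fun w => ?_⟩
    · rw [h1, h1, hvw]
    · obtain ⟨v, hv⟩ := hb.2 (S w)
      refine ⟨v, h2 ?_⟩
      rw [h1] at hv
      exact hv
  exact key _ _ _ (Circ.I2.deriv_eq hσ).self_of_nhds (symm_injective 𝓘(ℝ, E) (σ q) ht) hσ.bij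

/-- The local inverse of a parametrization. -/
theorem exists_inv {σ : E' → M} {q : E'} (hσ : Para E σ q) :
    ∃ G : M → E', ContMDiffAt 𝓘(ℝ, E) 𝓘(ℝ, E') ∞ G (σ q) ∧ G (σ q) = q ∧
      ∀ᶠ p in 𝓝 (σ q), σ (G p) = p := by
  have hb := tau_bij hσ
  have hs := Circ.I2.tau_smooth hσ
  have hs1 : DifferentiableAt ℝ (Circ.I2.tau E σ q) q := hs.differentiableAt (by simp)
  let e : E' ≃L[ℝ] E := (LinearEquiv.ofBijective
    (fderiv ℝ (Circ.I2.tau E σ q) q : E' →ₗ[ℝ] E) hb).toContinuousLinearEquiv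
  have he : (e : E' →L[ℝ] E) = fderiv ℝ (Circ.I2.tau E σ q) q := by
    ext v
    rfl
  have hd : HasFDerivAt (Circ.I2.tau E σ q) (e : E' →L[ℝ] E) q := by
    rw [he]
    exact hs1.hasFDerivAt
  have hn : (∞ : WithTop ℕ∞) ≠ 0 := by simp
  have hq : Circ.I2.tau E σ q q = extChartAt 𝓘(ℝ, E) (σ q) (σ q) := rfl
  have h1 : ContDiffAt ℝ ∞ (hs.localInverse hd hn) (Circ.I2.tau E σ q q) :=
    hs.to_localInverse hd hn
  have h2 : hs.localInverse hd hn (Circ.I2.tau E σ q q) = q :=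
    hs.localInverse_apply_image hd hn
  have h3 : ∀ᶠ z in 𝓝 (Circ.I2.tau E σ q q), Circ.I2.tau E σ q (hs.localInverse hd hn z) = z :=
    (hs.hasStrictFDerivAt' hd hn).eventually_right_inverse
  have hc : ContinuousAt (extChartAt 𝓘(ℝ, E) (σ q)) (σ q) := continuousAt_extChartAt (σ q)
  have hcG : ContinuousAt (fun p => hs.localInverse hd hn (extChartAt 𝓘(ℝ, E) (σ q) p)) (σ q) :=
    ContinuousAt.comp (g := hs.localInverse hd hn) h1.continuousAt hc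
  refine ⟨fun p => hs.localInverse hd hn (extChartAt 𝓘(ℝ, E) (σ q) p), ?_, h2, ?_⟩
  · have h4 : ContMDiffAt 𝓘(ℝ, E) 𝓘(ℝ, E) ∞ (extChartAt 𝓘(ℝ, E) (σ q)) (σ q) :=
      contMDiffAt_extChartAt
    have h5 : ContMDiffAt 𝓘(ℝ, E) 𝓘(ℝ, E') ∞ (hs.localInverse hd hn)
        (extChartAt 𝓘(ℝ, E) (σ q) (σ q)) := h1.contMDiffAt
    exact ContMDiffAt.comp (σ q) h5 h4
  · have h4 : ∀ᶠ p in 𝓝 (σ q), Circ.I2.tau E σ q (hs.localInverse hd hn
        (extChartAt 𝓘(ℝ, E) (σ q) p)) = extChartAt 𝓘(ℝ, E) (σ q) p := hc.eventually h3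
    have h5 : ∀ᶠ p in 𝓝 (σ q), σ (hs.localInverse hd hn (extChartAt 𝓘(ℝ, E) (σ q) p)) ∈
        (extChartAt 𝓘(ℝ, E) (σ q)).source := by
      have h6 : Tendsto (fun p => hs.localInverse hd hn (extChartAt 𝓘(ℝ, E) (σ q) p))
          (𝓝 (σ q)) (𝓝 q) := by
        have h7 := hcG.tendsto
        have h8 : hs.localInverse hd hn (extChartAt 𝓘(ℝ, E) (σ q) (σ q)) = q := h2
        rwa [h8] at h7
      exact h6.eventually (Circ.I2.near hσ)
    filter_upwards [h4, h5, extChartAt_source_mem_nhds (I := 𝓘(ℝ, E)) (σ q)] with p h6 h7 h8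
    exact (extChartAt 𝓘(ℝ, E) (σ q)).injOn h7 h8 h6

end ExtAux

variable {E₁ : Type*} [NormedAddCommGroup E₁] [NormedSpace ℝ E₁] [FiniteDimensional ℝ E₁]
  {B : Type*} [TopologicalSpace B] [ChartedSpace E₁ B] [IsManifold 𝓘(ℝ, E₁) ∞ B]
  {E₂ : Type*} [NormedAddCommGroup E₂] [NormedSpace ℝ E₂] [FiniteDimensional ℝ E₂]
  {F : Type*} [TopologicalSpace F] [ChartedSpace E₂ F] [IsManifold 𝓘(ℝ, E₂) ∞ F]
  {E : Type*} [NormedAddCommGroup E] [NormedSpace ℝ E] [FiniteDimensional ℝ E]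
  {M : Type*} [TopologicalSpace M] [ChartedSpace E M] [IsManifold 𝓘(ℝ, E) ∞ M]

/-- A function on `pr⁻¹ U` whose composition with `Φ` is `(x, y) ↦ v y` is smooth on `pr⁻¹ U`: near the
point `p = Φ (x', y')` use the parametrization `psi Φ x' y'` near `pt x' y' x' y'` (`ac_psi`: the
property `Para`), in which the function is `(a, b) ↦ v ((extChartAt y').symm b)`, and the local
inverse of `extChartAt p ∘ psi Φ x' y'` (bijective differential; `Circ.….tau_smooth`,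
`ContDiffAt.to_localInverse`). -/
theorem smooth_snd {pr : M → B} (hpr : ContMDiff 𝓘(ℝ, E) 𝓘(ℝ, E₁) ∞ pr) {U : Set B}
    {Φ : B × F → M} (hΦ : Triv E E₁ E₂ pr U Φ) {v : F → ℝ} (hv : Sm E₂ v) {w : M → ℝ}
    (hw : ∀ x ∈ U, ∀ y, w (Φ (x, y)) = v y) :
    ContMDiffOn 𝓘(ℝ, E) 𝓘(ℝ, ℝ) ∞ w (pr ⁻¹' U) := by
  intro p hp
  obtain ⟨y', hy'⟩ := hΦ.surj p hp
  have hpara : Para E (psi E₁ E₂ Φ (pr p) y') (pt E₁ E₂ (pr p) y' (pr p) y') :=
    (ac_psi hΦ hp y').para.self_of_nhds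
  have hsq : psi E₁ E₂ Φ (pr p) y' (pt E₁ E₂ (pr p) y' (pr p) y') = p := by
    unfold psi pt
    rw [extChartAt_to_inv, extChartAt_to_inv]
    exact hy'
  obtain ⟨G, hG1, hG2, hG3⟩ := ExtAux.exists_inv hpara
  rw [hsq] at hG1 hG2 hG3
  have h1 : ContDiffAt ℝ ∞ (rd E₂ y' v) (extChartAt 𝓘(ℝ, E₂) y' y') :=
    g3_rd_smooth hv y' (mem_extChartAt_target y')
  have h2 : ContDiffAt ℝ ∞ (fun q : E₁ × E₂ => rd E₂ y' v q.2)
      (pt E₁ E₂ (pr p) y' (pr p) y') :=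
    ContDiffAt.comp (pt E₁ E₂ (pr p) y' (pr p) y') (g := rd E₂ y' v)
      (f := fun q : E₁ × E₂ => q.2) h1 contDiffAt_snd
  have h3 : ContMDiffAt 𝓘(ℝ, E) 𝓘(ℝ, ℝ) ∞ (fun p' => rd E₂ y' v (G p').2) p := by
    have h4 : ContMDiffAt 𝓘(ℝ, E₁ × E₂) 𝓘(ℝ, ℝ) ∞ (fun q : E₁ × E₂ => rd E₂ y' v q.2) (G p) := by
      rw [hG2]
      exact h2.contMDiffAt
    exact ContMDiffAt.comp (g := fun q : E₁ × E₂ => rd E₂ y' v q.2) p h4 hG1
  have hU : ∀ᶠ q in 𝓝 (pt E₁ E₂ (pr p) y' (pr p) y'),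
      (extChartAt 𝓘(ℝ, E₁) (pr p)).symm q.1 ∈ U := by
    have h5 : ContinuousAt (fun q : E₁ × E₂ => (extChartAt 𝓘(ℝ, E₁) (pr p)).symm q.1)
        (pt E₁ E₂ (pr p) y' (pr p) y') :=
      ContinuousAt.comp (g := (extChartAt 𝓘(ℝ, E₁) (pr p)).symm)
        (f := fun q : E₁ × E₂ => q.1) (continuousAt_extChartAt_symm (pr p)) continuousAt_fst
    refine h5.eventually (hΦ.isOpen.mem_nhds ?_)
    change (extChartAt 𝓘(ℝ, E₁) (pr p)).symm (extChartAt 𝓘(ℝ, E₁) (pr p) (pr p)) ∈ U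
    rw [extChartAt_to_inv]
    exact hp
  have hev : w =ᶠ[𝓝 p] fun p' => rd E₂ y' v (G p').2 := by
    have h6 : Tendsto G (𝓝 p) (𝓝 (pt E₁ E₂ (pr p) y' (pr p) y')) := by
      have h7 := hG1.continuousAt.tendsto
      rwa [hG2] at h7
    filter_upwards [hG3, h6.eventually hU] with p' h7 h8
    conv_lhs => rw [← h7]
    exact hw _ h8 _
  exact (h3.congr_of_eventuallyEq hev).contMDiffWithinAt

/-- Let `w p = v y` for the unique `y` with `p = Φ (pr p, y)` if `pr p ∈ U` (`hΦ.surj`, `hΦ.inj`), smooth on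
the open set `pr⁻¹ U` by `smooth_snd`.  Let `χ` be a smooth bump function at `x` with
`tsupport χ ⊆ U` (`SmoothBumpFunction`, `B` is a T2 manifold modelled on a finite dimensional space),
`χ x = 1`.  The function `φ p = χ (pr p) * w p` is smooth: on `pr⁻¹ U` it is a product of smooth
functions, on the open set `pr⁻¹ (tsupport χ)ᶜ` it is zero, and these sets cover `M`. -/
theorem exists_ext [T2Space B] {pr : M → B} (hpr : ContMDiff 𝓘(ℝ, E) 𝓘(ℝ, E₁) ∞ pr) {U : Set B}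
    {Φ : B × F → M} (hΦ : Triv E E₁ E₂ pr U Φ) {x : B} (hx : x ∈ U) {v : F → ℝ}
    (hv : Sm E₂ v) : ∃ φ : M → ℝ, Sm E φ ∧ ∀ y, φ (Φ (x, y)) = v y := by
  classical
  obtain ⟨f, -, hf⟩ := (SmoothBumpFunction.nhds_basis_tsupport (I := 𝓘(ℝ, E₁)) x).mem_iff.1
    (hΦ.isOpen.mem_nhds hx)
  let w : M → ℝ := fun p => if h : pr p ∈ U then v (hΦ.surj p h).choose else 0
  have hw : ∀ x ∈ U, ∀ y, w (Φ (x, y)) = v y := by
    intro x' hx' y
    have h1 : pr (Φ (x', y)) ∈ U := by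
      rw [hΦ.proj x' hx' y]
      exact hx'
    have h2 : w (Φ (x', y)) = v (hΦ.surj _ h1).choose := dif_pos h1
    have h3 := (hΦ.surj _ h1).choose_spec
    rw [h2]
    congr 1
    refine hΦ.inj x' hx' _ _ ?_
    have h4 : Φ (x', (hΦ.surj _ h1).choose) = Φ (pr (Φ (x', y)), (hΦ.surj _ h1).choose) :=
      congrArg (fun z => Φ (z, (hΦ.surj _ h1).choose)) (hΦ.proj x' hx' y).symm
    exact h4.trans h3
  have hsm := smooth_snd hpr hΦ hv hw
  refine ⟨fun p => f (pr p) * w p, ?_, fun y => ?_⟩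
  · intro p
    by_cases hp : pr p ∈ U
    · have h1 : ContMDiffAt 𝓘(ℝ, E) 𝓘(ℝ, ℝ) ∞ w p :=
        (hsm p hp).contMDiffAt ((hΦ.isOpen.preimage hpr.continuous).mem_nhds hp)
      have h2 : ContMDiffAt 𝓘(ℝ, E) 𝓘(ℝ, ℝ) ∞ (fun p => f (pr p)) p :=
        ContMDiffAt.comp p (f.contMDiff (pr p)) (hpr p)
      exact h2.mul h1
    · have h1 : (tsupport f)ᶜ ∈ 𝓝 (pr p) :=
        (isClosed_tsupport f).isOpen_compl.mem_nhds fun h => hp (hf h)
      have h2 : (fun p => f (pr p) * w p) =ᶠ[𝓝 p] fun _ => (0 : ℝ) := by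
        filter_upwards [hpr.continuous.continuousAt.eventually h1] with p' hp'
        have h3 : f (pr p') = 0 := by
          by_contra h
          exact hp' (subset_tsupport _ h)
        rw [h3, zero_mul]
      exact contMDiffAt_const.congr_of_eventuallyEq h2
  · change f (pr (Φ (x, y))) * w (Φ (x, y)) = v y
    rw [hw x hx y, hΦ.proj x hx y, f.eq_one, one_mul]

/-- A smooth bump function at `x` with support in a given neighbourhood. -/
theorem exists_bump [T2Space B] {x : B} {s : Set B} (hs : s ∈ 𝓝 x) :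
    ∃ χ : B → ℝ, Sm E₁ χ ∧ χ x = 1 ∧ ∀ z, z ∉ s → χ z = 0 := by
  obtain ⟨f, -, hf⟩ := (SmoothBumpFunction.nhds_basis_tsupport (I := 𝓘(ℝ, E₁)) x).mem_iff.1 hs
  refine ⟨f, f.contMDiff, f.eq_one, fun z hz => ?_⟩
  by_contra h
  exact hz (hf (subset_tsupport _ h))

end Pool.Agent.Lib.MP_df705a_gt.Coll.Y
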