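import Pool.Agent.Lib.MP_df705a_gt.Coll.Y.CGDefs
import Pool.Agent.Lib.MP_df705a_gt.Fib.ConnGrad

/-!
# Module Y: gradient product and determinant of the metric cG
-/

open scoped Manifold ContDiff Topology
open Set Bundle Module Filter MeasureTheory

noncomputable section

namespace Pool.Agent.Lib.MP_df705a_gt.Coll.Y

open Pool.Agent.Lib.MP_df705a_gt.Twist Pool.Agent.Lib.MP_df705a_gt.Perm
open Pool.Agent.Lib.MP_df705a_gt.Sub (mB)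
open Pool.Agent.Lib.MP_df705a_gt.Circ (Horizontal Submersion cf Para HorConf)
open Pool.Agent.Lib.MP_df705a_gt.Fib (RiemSub Biconformal gσ fm gam normT)

variable {E₁ : Type*} [NormedAddCommGroup E₁] [NormedSpace ℝ E₁] [FiniteDimensional ℝ E₁]
  {B : Type*} [TopologicalSpace B] [ChartedSpace E₁ B] [IsManifold 𝓘(ℝ, E₁) ∞ B]
  {E₂ : Type*} [NormedAddCommGroup E₂] [NormedSpace ℝ E₂] [FiniteDimensional ℝ E₂]
  {F : Type*} [TopologicalSpace F] [ChartedSpace E₂ F] [IsManifold 𝓘(ℝ, E₂) ∞ F]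
  {E : Type*} [NormedAddCommGroup E] [NormedSpace ℝ E] [FiniteDimensional ℝ E]
  {M : Type*} [TopologicalSpace M] [ChartedSpace E M] [IsManifold 𝓘(ℝ, E) ∞ M]

namespace CGGradAux

/-- A covector applied to a gradient. -/
theorem app_gradM {X : Type*} [NormedAddCommGroup X] [NormedSpace ℝ X] [FiniteDimensional ℝ X]
    (A : Matrix (Fin (finrank ℝ X)) (Fin (finrank ℝ X)) ℝ) (L L' : X →L[ℝ] ℝ) :
    L (gradM (finBasis ℝ X) A L') =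
      ∑ i, ∑ j, A⁻¹ i j * (L (finBasis ℝ X i) * L' (finBasis ℝ X j)) := by
  unfold gradM
  rw [map_sum]
  refine Finset.sum_congr rfl fun i _ => ?_
  rw [map_smul, smul_eq_mul, Finset.sum_mul]
  refine Finset.sum_congr rfl fun j _ => ?_
  ring

theorem mB_smul_mat {X : Type*} [NormedAddCommGroup X] [NormedSpace ℝ X] [FiniteDimensional ℝ X]
    (c : ℝ) (A : Matrix (Fin (finrank ℝ X)) (Fin (finrank ℝ X)) ℝ) (v w : X) :
    mB (c • A) v w = c * mB A v w := by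
  simp only [mB, Matrix.smul_apply, smul_eq_mul, Finset.mul_sum]
  refine Finset.sum_congr rfl fun i _ => Finset.sum_congr rfl fun j _ => ?_
  ring

/-- The constant metric. -/
def cst (A : Matrix (Fin (finrank ℝ E₁)) (Fin (finrank ℝ E₁)) ℝ) : Curv.Coeff E₁ := fun _ => A

omit [FiniteDimensional ℝ E₁] in
theorem cst_apply (A : Matrix (Fin (finrank ℝ E₁)) (Fin (finrank ℝ E₁)) ℝ) (x : E₁) :
    cst A x = A := rfl

theorem cG_eq_conn (H : E₁ × E₂ → Matrix (Fin (finrank ℝ E₁)) (Fin (finrank ℝ E₁)) ℝ)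
    (f : E₁ × E₂ → Matrix (Fin (finrank ℝ E₂)) (Fin (finrank ℝ E₂)) ℝ)
    (Γ : E₁ × E₂ → E₁ →L[ℝ] E₂) (ε : ℝ) (q : E₁ × E₂) :
    cG H f Γ ε q = Fib.conn₀ (cst (H q)) (fun p => ε ^ 2 • f p) Γ q := by
  funext i j
  unfold cG Fib.conn₀ Sub.connMetric
  simp only [mB_smul_mat, Real.exp_zero, one_pow, one_mul, cst_apply]

end CGGradAux

/-- `mB (cG H f Γ ε q) w v = mB (H q) w.1 v.1 + ε² mB (f q) (w.2 - Γ w.1) (v.2 - Γ v.1)`; model: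
`Fib.….mB_conn` in Fib/ConnGrad.lean. -/
theorem mB_cG (H : E₁ × E₂ → Matrix (Fin (finrank ℝ E₁)) (Fin (finrank ℝ E₁)) ℝ)
    (f : E₁ × E₂ → Matrix (Fin (finrank ℝ E₂)) (Fin (finrank ℝ E₂)) ℝ)
    (Γ : E₁ × E₂ → E₁ →L[ℝ] E₂) (ε : ℝ) (q w v : E₁ × E₂) :
    mB (cG H f Γ ε q) w v = mB (H q) w.1 v.1 +
      ε ^ 2 * mB (f q) (w.2 - Γ q w.1) (v.2 - Γ q v.1) := by
  rw [CGGradAux.cG_eq_conn]
  unfold Fib.conn₀
  rw [Fib.F4b.mB_conn, CGGradAux.mB_smul_mat, CGGradAux.cst_apply]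
  simp only [Real.exp_zero, one_pow, one_mul]

/-- `gradC h u v q` is `dv` applied to the gradient `gradM … (fderiv u q)` (see Twist/Law.lean and
`Fib.….gradM_conn`, `grad_unique` in Fib/ConnGrad.lean).  The gradient of `u` is
`∑_ij H^{ij} du(X_i) X_j + ε⁻² ∑_ij f^{ij} du(0, e_i) (0, e_j)`, `X_i = (e_i, Γ e_i)`: check
`mB (cG …) w (grad) = du w` for all `w` with `mB_cG` (write
`w = (w.1, Γ w.1) + (0, w.2 - Γ w.1)`); the determinant of `cG …` is not zero because its form is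
positive definite. -/
theorem gradC_cG {H : E₁ × E₂ → Matrix (Fin (finrank ℝ E₁)) (Fin (finrank ℝ E₁)) ℝ}
    {f : E₁ × E₂ → Matrix (Fin (finrank ℝ E₂)) (Fin (finrank ℝ E₂)) ℝ}
    (Γ : E₁ × E₂ → E₁ →L[ℝ] E₂) {ε : ℝ} (hε : 0 < ε) {q : E₁ × E₂} (hH : (H q).PosDef)
    (hf : (f q).PosDef) (u v : E₁ × E₂ → ℝ) :
    gradC (cG H f Γ ε) u v q =
      ∑ i, ∑ j, (H q)⁻¹ i j * (fderiv ℝ u q (finBasis ℝ E₁ i, Γ q (finBasis ℝ E₁ i)) *
        fderiv ℝ v q (finBasis ℝ E₁ j, Γ q (finBasis ℝ E₁ j))) +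
      (∑ i, ∑ j, (f q)⁻¹ i j * (fderiv ℝ u q (0, finBasis ℝ E₂ i) *
        fderiv ℝ v q (0, finBasis ℝ E₂ j))) / ε ^ 2 := by
  have hε2 : (0 : ℝ) < ε ^ 2 := by positivity
  have hdet : IsUnit (cG H f Γ ε q).det := by
    rw [CGGradAux.cG_eq_conn]
    exact (Fib.conn_posDef (h := CGGradAux.cst (H q)) (f := fun p => ε ^ 2 • f p) Γ hH
      (hf.smul hε2)).det_pos.ne'.isUnit
  have hH1 : IsUnit (H q).det := hH.det_pos.ne'.isUnit
  have hf1 : IsUnit (f q).det := hf.det_pos.ne'.isUnit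
  set du : (E₁ × E₂) →L[ℝ] ℝ := fderiv ℝ u q with hdu
  set dv : (E₁ × E₂) →L[ℝ] ℝ := fderiv ℝ v q with hdv
  set X : E₁ →L[ℝ] E₁ × E₂ := (ContinuousLinearMap.id ℝ E₁).prod (Γ q) with hX
  set V : E₂ →L[ℝ] E₁ × E₂ := ContinuousLinearMap.inr ℝ E₁ E₂ with hV
  have hXa : ∀ w, X w = (w, Γ q w) := fun w => rfl
  have hVa : ∀ w, V w = (0, w) := fun w => rfl
  obtain ⟨g1, hg1⟩ : ∃ g1, g1 = gradM (finBasis ℝ E₁) (H q) (dv.comp X) := ⟨_, rfl⟩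
  obtain ⟨g2, hg2⟩ : ∃ g2, g2 = gradM (finBasis ℝ E₂) (f q) (dv.comp V) := ⟨_, rfl⟩
  have hgrad : gradM (finBasis ℝ (E₁ × E₂)) (cG H f Γ ε q) dv = X g1 + V ((ε ^ 2)⁻¹ • g2) := by
    refine Fib.F4b.grad_unique _ hdet _ _ fun w => ?_
    rw [mB_cG, hXa, hVa]
    have e1 : ((g1, Γ q g1) + ((0 : E₁), (ε ^ 2)⁻¹ • g2)).1 = g1 := by simp
    have e2 : ((g1, Γ q g1) + ((0 : E₁), (ε ^ 2)⁻¹ • g2)).2 -
        Γ q ((g1, Γ q g1) + ((0 : E₁), (ε ^ 2)⁻¹ • g2)).1 = (ε ^ 2)⁻¹ • g2 := by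
      rw [e1]
      simp
    rw [e2, e1, Fib.F4b.mB_smul_right, hg1, hg2, Fib.F4b.mB_grad _ hH1, Fib.F4b.mB_grad _ hf1,
      ContinuousLinearMap.comp_apply, ContinuousLinearMap.comp_apply, hXa, hVa, ← mul_assoc,
      mul_inv_cancel₀ hε2.ne', one_mul, ← map_add]
    congr 1
    ext <;> simp
  have h1 : gradC (cG H f Γ ε) u v q = du (gradM (finBasis ℝ (E₁ × E₂)) (cG H f Γ ε q) dv) := by
    rw [CGGradAux.app_gradM]
    rfl
  rw [h1, hgrad, map_add, map_smul, map_smul, smul_eq_mul]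
  have h2 : du (X g1) = ∑ i, ∑ j, (H q)⁻¹ i j * (du (finBasis ℝ E₁ i, Γ q (finBasis ℝ E₁ i)) *
        dv (finBasis ℝ E₁ j, Γ q (finBasis ℝ E₁ j))) := by
    rw [← ContinuousLinearMap.comp_apply, hg1, CGGradAux.app_gradM]
    rfl
  have h3 : du (V g2) = ∑ i, ∑ j, (f q)⁻¹ i j * (du (0, finBasis ℝ E₂ i) *
        dv (0, finBasis ℝ E₂ j)) := by
    rw [← ContinuousLinearMap.comp_apply, hg2, CGGradAux.app_gradM]
    rfl
  rw [h2, h3, div_eq_inv_mul]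

/-- `Fib.….exists_det_conn` (Fib/ConnDet.lean) at the point `q`: `cG H f Γ ε q` is the metric
`Fib.conn₀ (fun _ => H q) (fun p => ε ^ 2 • f p) Γ q`, and `det (ε² f) = (ε²)^k det f`. -/
theorem det_cG (H : E₁ × E₂ → Matrix (Fin (finrank ℝ E₁)) (Fin (finrank ℝ E₁)) ℝ)
    (f : E₁ × E₂ → Matrix (Fin (finrank ℝ E₂)) (Fin (finrank ℝ E₂)) ℝ)
    (Γ : E₁ × E₂ → E₁ →L[ℝ] E₂) (ε : ℝ) (q : E₁ × E₂) :
    (cG H f Γ ε q).det = (ε ^ finrank ℝ E₂) ^ 2 * (cG H f Γ 1 q).det := by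
  obtain ⟨c, _, hc⟩ := Fib.exists_det_conn E₁ E₂
  rw [CGGradAux.cG_eq_conn, CGGradAux.cG_eq_conn, hc, hc, Matrix.det_smul, Matrix.det_smul,
    Fintype.card_fin, CGGradAux.cst_apply]
  ring

end Pool.Agent.Lib.MP_df705a_gt.Coll.Y
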