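import Pool.Agent.Lib.MP_df705a_gt.Coll.Y.Hm
import Pool.Agent.Lib.MP_df705a_gt.Coll.Y.CGGrad

/-!
# Module Y: the canonical variation in adapted parametrizations
-/

open scoped Manifold ContDiff Topology
open Set Bundle Module Filter MeasureTheory

noncomputable section

namespace Pool.Agent.Lib.MP_df705a_gt.Coll.Y

open Pool.Agent.Lib.MP_df705a_gt.Twist Pool.Agent.Lib.MP_df705a_gt.Perm
open Pool.Agent.Lib.MP_df705a_gt.Sub (mB)
open Pool.Agent.Lib.MP_df705a_gt.Circ (Horizontal Submersion cf Para HorConf)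
open Pool.Agent.Lib.MP_df705a_gt.Fib (RiemSub Biconformal gσ fm gam normT)

variable {E₁ : Type*} [NormedAddCommGroup E₁] [NormedSpace ℝ E₁] [FiniteDimensional ℝ E₁]
  {B : Type*} [TopologicalSpace B] [ChartedSpace E₁ B] [IsManifold 𝓘(ℝ, E₁) ∞ B]
  {E₂ : Type*} [NormedAddCommGroup E₂] [NormedSpace ℝ E₂] [FiniteDimensional ℝ E₂]
  {F : Type*} [TopologicalSpace F] [ChartedSpace E₂ F] [IsManifold 𝓘(ℝ, E₂) ∞ F]
  {E : Type*} [NormedAddCommGroup E] [NormedSpace ℝ E] [FiniteDimensional ℝ E]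
  {M : Type*} [TopologicalSpace M] [ChartedSpace E M] [IsManifold 𝓘(ℝ, E) ∞ M]

/-- `g (u + w, v + z) = g (u, v) + g (w, z)`: the mixed terms vanish by the definition of
`Horizontal` (and the symmetry of `g`). -/
theorem bic_self (g : Met E M) (pr : M → B) :
    Biconformal E₁ g g pr (fun _ => 1) (fun _ => 1) := by
  intro p u v w z hu hv hw hz
  have h1 : g.inner p u z = 0 := hu z hz
  have h2 : g.inner p w v = 0 := by
    rw [g.symm]
    exact hv w hw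
  simp only [map_add, add_apply, h1, h2]
  ring

/-- Near `q` (`ac_ev`): `dσ (u, w) = dσ (u, Γ u) + dσ (0, w - Γ u)` is the decomposition in a horizontal
(`hor_lift`) and a vertical (`ver_vec`) vector, so the biconformal property gives
`g' = mB (hm g σ y) u u' + ε² mB (fm g σ y) (w - Γ u) (w' - Γ u')` (`mB_hm`, `Fib.….mB_snd`);
model: `Fib.….cf_eq_conn` in Fib/FibredConn.lean. -/
theorem cf_bic {pr : M → B} (hpr : Submersion E E₁ pr) {g g' : Met E M} {ε : ℝ}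
    (hbi : Biconformal E₁ g g' pr (fun _ => 1) (fun _ => ε)) {σ : E₁ × E₂ → M} {q : E₁ × E₂}
    {z : B} (hA : Fib.AC E pr σ q z) :
    ∀ᶠ y in 𝓝 q, cf g' σ y = cG (hm g σ) (fm g σ) (gam g σ) ε y := by
  filter_upwards [ac_ev hA] with y hAy
  have hdec : ∀ e : E₁ × E₂, e = (e.1, gam g σ y e.1) + (0, e.2 - gam g σ y e.1) := by
    intro e
    refine Prod.ext ?_ ?_
    · simp
    · simp
  have hmap : ∀ e : E₁ × E₂, mfderiv 𝓘(ℝ, E₁ × E₂) 𝓘(ℝ, E) σ y e =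
      mfderiv 𝓘(ℝ, E₁ × E₂) 𝓘(ℝ, E) σ y (e.1, gam g σ y e.1) +
      mfderiv 𝓘(ℝ, E₁ × E₂) 𝓘(ℝ, E) σ y ((0 : E₁), e.2 - gam g σ y e.1) := by
    intro e
    have h1 : mfderiv 𝓘(ℝ, E₁ × E₂) 𝓘(ℝ, E) σ y e = mfderiv 𝓘(ℝ, E₁ × E₂) 𝓘(ℝ, E) σ y
      ((e.1, gam g σ y e.1) + ((0 : E₁), e.2 - gam g σ y e.1)) := by rw [← hdec e]
    exact h1.trans (map_add (mfderiv 𝓘(ℝ, E₁ × E₂) 𝓘(ℝ, E) σ y) _ _)
  ext i j
  have h5 : cf g' σ y i j = g'.inner (σ y)
      (mfderiv 𝓘(ℝ, E₁ × E₂) 𝓘(ℝ, E) σ y (finBasis ℝ (E₁ × E₂) i))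
      (mfderiv 𝓘(ℝ, E₁ × E₂) 𝓘(ℝ, E) σ y (finBasis ℝ (E₁ × E₂) j)) := rfl
  rw [h5, hmap (finBasis ℝ (E₁ × E₂) i), hmap (finBasis ℝ (E₁ × E₂) j),
    hbi (σ y) _ _ _ _ (hor_lift hpr g hAy _).1 (hor_lift hpr g hAy _).1 (ver_vec hpr hAy _)
      (ver_vec hpr hAy _)]
  unfold cG
  have h6 := mB_hm g σ y (finBasis ℝ (E₁ × E₂) i).1 (finBasis ℝ (E₁ × E₂) j).1
  have h7 := Fib.G3.mB_snd (gσ g σ y)
    ((finBasis ℝ (E₁ × E₂) i).2 - gam g σ y (finBasis ℝ (E₁ × E₂) i).1)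
    ((finBasis ℝ (E₁ × E₂) j).2 - gam g σ y (finBasis ℝ (E₁ × E₂) j).1)
  have h8 : mB (fm g σ y)
    ((finBasis ℝ (E₁ × E₂) i).2 - gam g σ y (finBasis ℝ (E₁ × E₂) i).1)
    ((finBasis ℝ (E₁ × E₂) j).2 - gam g σ y (finBasis ℝ (E₁ × E₂) j).1) = _ := h7
  rw [h6, h8, one_pow, one_mul]
  rfl

/-- `Circ.….law` (Circ/ParaInv.lean) at the point `q`: `cf g σ q = Tᵀ * cof g (σ q) * T` with the matrix `T`
of the differential of `tau E σ q` at `q` (the index types `Fin (finrank ℝ E')` and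
`Fin (finrank ℝ E)` have the same cardinality, because the differential is bijective: use
`Fin.cast`/`Matrix.reindex` and `Matrix.det_submatrix_equiv_self`); `d = (det T)²`. -/
theorem exists_det_cf {E' : Type*} [NormedAddCommGroup E'] [NormedSpace ℝ E']
    [FiniteDimensional ℝ E'] {σ : E' → M} {q : E'} (hσ : Para E σ q) :
    ∃ d : ℝ, 0 < d ∧ ∀ g : Met E M, (cf g σ q).det = d * (cof g (σ q)).det := by
  obtain ⟨T, hT⟩ : ∃ T : E' →L[ℝ] E, T = fderiv ℝ (Circ.I2.tau E σ q) q := ⟨_, rfl⟩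
  have hbij : Function.Bijective T := by
    have ht : Circ.I2.tau E σ q q ∈ (extChartAt 𝓘(ℝ, E) (σ q)).target :=
      mem_extChartAt_target (σ q)
    have key : ∀ (D : E' →L[ℝ] E) (S : E →L[ℝ] E) (T : E' →L[ℝ] E), (∀ v, D v = S (T v)) →
        Function.Injective S → Function.Bijective D → Function.Bijective T := by
      intro D S T h1 h2 hb
      refine ⟨fun v w hvw => hb.1 ?_, fun w => ?_⟩
      · rw [h1, h1, hvw]
      · obtain ⟨v, hv⟩ := hb.2 (S w)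
        refine ⟨v, h2 ?_⟩
        rw [h1] at hv
        exact hv
    rw [hT]
    exact key _ _ _ (Circ.I2.deriv_eq hσ).self_of_nhds
      (symm_injective 𝓘(ℝ, E) (σ q) ht) hσ.bij
  obtain ⟨Te, hTe⟩ : ∃ Te : E' ≃ₗ[ℝ] E, ∀ v, Te v = T v :=
    ⟨LinearEquiv.ofBijective (T : E' →ₗ[ℝ] E) hbij, fun v => rfl⟩
  have hdim : finrank ℝ E' = finrank ℝ E := Te.finrank_eq
  obtain ⟨b, hb⟩ : ∃ b : Basis (Fin (finrank ℝ E)) ℝ E',
      b = (finBasis ℝ E').reindex (finCongr hdim) := ⟨_, rfl⟩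
  obtain ⟨A, hA⟩ : ∃ A : Matrix (Fin (finrank ℝ E)) (Fin (finrank ℝ E)) ℝ,
      A = LinearMap.toMatrix b (finBasis ℝ E) (Te : E' →ₗ[ℝ] E) := ⟨_, rfl⟩
  have hAdet : IsUnit A.det := by
    rw [hA]
    exact LinearEquiv.isUnit_det Te b (finBasis ℝ E)
  have hAe : ∀ k i, A k i = (finBasis ℝ E).repr (T (finBasis ℝ E' ((finCongr hdim).symm i))) k := by
    intro k i
    rw [hA, LinearMap.toMatrix_apply, hb, Basis.reindex_apply]
    rw [← hTe]
    rfl
  refine ⟨A.det ^ 2, by have := hAdet.ne_zero; positivity, fun g => ?_⟩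
  have h1 := (Circ.I2.law g hσ).self_of_nhds
  have h2 : (cf g σ q).submatrix (finCongr hdim).symm (finCongr hdim).symm =
      A.transpose * cof g (σ q) * A := by
    ext i j
    rw [Matrix.submatrix_apply, h1, ← hT, Matrix.mul_apply]
    have h3 : Circ.I2.tau E σ q q = extChartAt 𝓘(ℝ, E) (σ q) (σ q) := rfl
    rw [h3]
    unfold mB
    simp only [Matrix.mul_apply, Matrix.transpose_apply]
    rw [Finset.sum_comm]
    refine Finset.sum_congr rfl fun l _ => ?_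
    rw [Finset.sum_mul]
    refine Finset.sum_congr rfl fun k _ => ?_
    rw [hAe, hAe]
    unfold cof
    ring
  rw [← Matrix.det_submatrix_equiv_self (finCongr hdim).symm (cf g σ q), h2, Matrix.det_mul,
    Matrix.det_mul, Matrix.det_transpose]
  ring

/-- At `p` take an adapted parametrization (`Fib.….exists_AC`), use `exists_det_cf` for `g` and `g'`,
`cf_bic` for `g'` (with `ε`) and for `g` (with `1`, `bic_self`), and `det_cG`. -/
theorem det_bic (hd : finrank ℝ E = finrank ℝ E₁ + finrank ℝ E₂) {pr : M → B}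
    (hpr : Submersion E E₁ pr) {g g' : Met E M} {ε : ℝ}
    (hbi : Biconformal E₁ g g' pr (fun _ => 1) (fun _ => ε)) (p : M) :
    (cof g' p).det = (ε ^ finrank ℝ E₂) ^ 2 * (cof g p).det := by
  obtain ⟨σ, q, rfl, hA⟩ := Fib.exists_AC hd hpr p
  obtain ⟨d, hd0, hdet⟩ := exists_det_cf hA.para.self_of_nhds
  have h1 := (cf_bic hpr hbi hA).self_of_nhds
  have h2 := (cf_bic hpr (bic_self g pr) hA).self_of_nhds
  have h3 := hdet g
  have h4 := hdet g'
  rw [h1, det_cG, ← h2, h3] at h4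
  have h5 : d * ((ε ^ finrank ℝ E₂) ^ 2 * (cof g (σ q)).det) = d * (cof g' (σ q)).det := by
    rw [← h4]
    ring
  exact (mul_left_cancel₀ hd0.ne' h5).symm

end Pool.Agent.Lib.MP_df705a_gt.Coll.Y
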