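import Pool.Agent.Lib.MP_df705a_gt.Coll.IX
import Pool.Agent.Lib.MP_df705a_gt.Coll.Y.Bic

/-!
# Module Y: the vertical part of the gradient
-/

open scoped Manifold ContDiff Topology
open Set Bundle Module Filter MeasureTheory

noncomputable section

namespace Pool.Agent.Lib.MP_df705a_gt.Coll.Y

open Pool.Agent.Lib.MP_df705a_gt.Twist Pool.Agent.Lib.MP_df705a_gt.Perm
open Pool.Agent.Lib.MP_df705a_gt.Sub (mB)
open Pool.Agent.Lib.MP_df705a_gt.Circ (Horizontal Submersion cf Para HorConf)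
open Pool.Agent.Lib.MP_df705a_gt.Fib (RiemSub Biconformal gσ fm gam normT)

variable {E₁ : Type*} [NormedAddCommGroup E₁] [NormedSpace ℝ E₁] [FiniteDimensional ℝ E₁]
  {B : Type*} [TopologicalSpace B] [ChartedSpace E₁ B] [IsManifold 𝓘(ℝ, E₁) ∞ B]
  {E₂ : Type*} [NormedAddCommGroup E₂] [NormedSpace ℝ E₂] [FiniteDimensional ℝ E₂]
  {F : Type*} [TopologicalSpace F] [ChartedSpace E₂ F] [IsManifold 𝓘(ℝ, E₂) ∞ F]
  {E : Type*} [NormedAddCommGroup E] [NormedSpace ℝ E] [FiniteDimensional ℝ E]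
  {M : Type*} [TopologicalSpace M] [ChartedSpace E M] [IsManifold 𝓘(ℝ, E) ∞ M]

/-- `V` is the square of the length of the vertical part of the gradient of `φ`, for the metric
`g`. -/
def IsGv (E₁ E₂ : Type*) [NormedAddCommGroup E₁] [NormedSpace ℝ E₁] [FiniteDimensional ℝ E₁]
    [NormedAddCommGroup E₂] [NormedSpace ℝ E₂] [FiniteDimensional ℝ E₂]
    {B : Type*} [TopologicalSpace B] [ChartedSpace E₁ B] [IsManifold 𝓘(ℝ, E₁) ∞ B]
    {E : Type*} [NormedAddCommGroup E] [NormedSpace ℝ E] [FiniteDimensional ℝ E]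
    {M : Type*} [TopologicalSpace M] [ChartedSpace E M] [IsManifold 𝓘(ℝ, E) ∞ M]
    (g : Met E M) (pr : M → B) (φ V : M → ℝ) : Prop :=
  ∀ (σ : E₁ × E₂ → M) (q : E₁ × E₂) (z : B), Fib.AC E pr σ q z →
    V (σ q) = ∑ i, ∑ j, (fm g σ q)⁻¹ i j * (fderiv ℝ (fun p => φ (σ p)) q (0, finBasis ℝ E₂ i) *
      fderiv ℝ (fun p => φ (σ p)) q (0, finBasis ℝ E₂ j))

namespace GvAux

theorem grd_bic {pr : M → B} (hpr : Submersion E E₁ pr) {g g' : Met E M} {ε : ℝ} (hε : 0 < ε)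
    (hbi : Biconformal E₁ g g' pr (fun _ => 1) (fun _ => ε)) {φ : M → ℝ} (hφ : Sm E φ)
    {σ : E₁ × E₂ → M} {q : E₁ × E₂} {z : B} (hA : Fib.AC E pr σ q z) :
    Grd g' φ φ (σ q) =
      ∑ i, ∑ j, (hm g σ q)⁻¹ i j *
        (fderiv ℝ (φ ∘ σ) q (finBasis ℝ E₁ i, gam g σ q (finBasis ℝ E₁ i)) *
          fderiv ℝ (φ ∘ σ) q (finBasis ℝ E₁ j, gam g σ q (finBasis ℝ E₁ j))) +
      (∑ i, ∑ j, (fm g σ q)⁻¹ i j * (fderiv ℝ (φ ∘ σ) q (0, finBasis ℝ E₂ i) *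
        fderiv ℝ (φ ∘ σ) q (0, finBasis ℝ E₂ j))) / ε ^ 2 := by
  have hP := hA.para.self_of_nhds
  rw [← Circ.grd_cf g' hP hφ hφ,
    ← gradC_cG (gam g σ) hε (hm_posDef g hP) (fm_posDef g hP) (φ ∘ σ) (φ ∘ σ)]
  unfold gradC
  rw [(cf_bic hpr hbi hA).self_of_nhds]

omit [FiniteDimensional ℝ E₁] [FiniteDimensional ℝ E₂] [FiniteDimensional ℝ E]
  [IsManifold 𝓘(ℝ, E) ∞ M] in
theorem diff_comp {σ : E₁ × E₂ → M} {q : E₁ × E₂} (hP : Para E σ q) {φ : M → ℝ}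
    (hφ : Sm E φ) : DifferentiableAt ℝ (φ ∘ σ) q := by
  have h1 : ContMDiffAt 𝓘(ℝ, E₁ × E₂) 𝓘(ℝ, ℝ) ∞ (φ ∘ σ) q :=
    ContMDiffAt.comp q (hφ (σ q)) hP.smooth
  exact h1.contDiffAt.differentiableAt (by simp)

end GvAux

open GvAux

/-- Let `g₂` be biconformal to `g` with factors `1` and `2` (`exists_biconf`) and
`V = (4/3) (Grd g φ φ - Grd g₂ φ φ)`, smooth by `Circ.sm_grd`.  In an adapted parametrization `σ`
at `q` (`Fib.….exists_AC` at every point), `Circ.….grd_cf`, `cf_bic` (for `g'`, `g₂` and, with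
`bic_self`, for `g`) and `gradC_cG` give `Grd g' φ φ (σ q) = h + v / ε²` where
`h = ∑ H^{ij} dφ(X_i) dφ(X_j)` and `v` is the sum in `IsGv`, not depending on `ε`.  (`gradC` at `q`
depends only on the value of the coefficients at `q`.)  So `Grd g φ φ = h + v`,
`Grd g₂ φ φ = h + v/4`, `V = v`. -/
theorem exists_gv (hd : finrank ℝ E = finrank ℝ E₁ + finrank ℝ E₂) {pr : M → B}
    (hpr : Submersion E E₁ pr) (g : Met E M) {φ : M → ℝ} (hφ : Sm E φ) :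
    ∃ V : M → ℝ, Sm E V ∧ IsGv E₁ E₂ g pr φ V ∧ ∀ (ε : ℝ) (g' : Met E M), 0 < ε →
      Biconformal E₁ g g' pr (fun _ => 1) (fun _ => ε) →
        ∀ p, Grd g' φ φ p = Grd g φ φ p - V p + V p / ε ^ 2 := by
  obtain ⟨g₂, hg₂⟩ := exists_biconf hpr g (ε := 2) (by norm_num)
  have hV : IsGv E₁ E₂ g pr φ fun p => 4 / 3 * (Grd g φ φ p + -1 * Grd g₂ φ φ p) := by
    intro σ q z hA
    simp only
    rw [grd_bic hpr one_pos (bic_self g pr) hφ hA, grd_bic hpr two_pos hg₂ hφ hA]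
    change _ = ∑ i, ∑ j, (fm g σ q)⁻¹ i j * (fderiv ℝ (φ ∘ σ) q (0, finBasis ℝ E₂ i) *
        fderiv ℝ (φ ∘ σ) q (0, finBasis ℝ E₂ j))
    ring
  refine ⟨fun p => 4 / 3 * (Grd g φ φ p + -1 * Grd g₂ φ φ p),
    sm_smul (sm_add (Circ.sm_grd g hφ hφ) (sm_smul (Circ.sm_grd g₂ hφ hφ) _)) _, hV, ?_⟩
  intro ε g' hε hbi p
  obtain ⟨σ, q, rfl, hA⟩ := Fib.exists_AC (E₂ := E₂) hd hpr p
  have h1 := hV σ q _ hA
  have h2 := grd_bic hpr hε hbi hφ hA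
  have h3 := grd_bic hpr one_pos (bic_self g pr) hφ hA
  have h4 : ∑ i, ∑ j, (fm g σ q)⁻¹ i j * (fderiv ℝ (fun p => φ (σ p)) q (0, finBasis ℝ E₂ i) *
      fderiv ℝ (fun p => φ (σ p)) q (0, finBasis ℝ E₂ j)) =
      ∑ i, ∑ j, (fm g σ q)⁻¹ i j * (fderiv ℝ (φ ∘ σ) q (0, finBasis ℝ E₂ i) *
        fderiv ℝ (φ ∘ σ) q (0, finBasis ℝ E₂ j)) := rfl
  rw [h4] at h1
  rw [h1, h2, h3]
  ring

/-- In an adapted parametrization at `p` (`Fib.….exists_AC`): the derivatives of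
`y ↦ χ (pr (σ y)) * φ (σ y)` in the directions `(0, w)` are `χ (pr (σ q))` times those of `φ ∘ σ`,
because `χ (pr (σ y)) = (χ ∘ chart⁻¹) (y.1)` near `q` (`hA.fst`, `hA.src`). -/
theorem gv_mul (hd : finrank ℝ E = finrank ℝ E₁ + finrank ℝ E₂) {pr : M → B}
    (hpr : Submersion E E₁ pr) {g : Met E M} {φ V W : M → ℝ} (hφ : Sm E φ) {χ : B → ℝ}
    (hχ : Sm E₁ χ) (hV : IsGv E₁ E₂ g pr φ V)
    (hW : IsGv E₁ E₂ g pr (fun p => χ (pr p) * φ p) W) (p : M) :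
    W p = χ (pr p) ^ 2 * V p := by
  obtain ⟨σ, q, rfl, hA⟩ := Fib.exists_AC (E₂ := E₂) hd hpr p
  rw [hW σ q _ hA, hV σ q _ hA]
  have hP := hA.para.self_of_nhds
  have hφd : DifferentiableAt ℝ (fun y => φ (σ y)) q := diff_comp hP hφ
  have hq : q.1 = extChartAt 𝓘(ℝ, E₁) (pr (σ q)) (pr (σ q)) := hA.fst.self_of_nhds.symm
  have hχd : DifferentiableAt ℝ (rd E₁ (pr (σ q)) χ) q.1 := by
    rw [hq]
    exact (G4.rd_contDiffAt hχ (pr (σ q))).differentiableAt (by simp)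
  have hfst : HasFDerivAt (fun y : E₁ × E₂ => rd E₁ (pr (σ q)) χ y.1)
      ((fderiv ℝ (rd E₁ (pr (σ q)) χ) q.1).comp (ContinuousLinearMap.fst ℝ E₁ E₂)) q :=
    HasFDerivAt.comp q hχd.hasFDerivAt hasFDerivAt_fst
  have hev : (fun y => χ (pr (σ y)) * φ (σ y)) =ᶠ[𝓝 q]
      fun y => rd E₁ (pr (σ q)) χ y.1 * φ (σ y) := by
    filter_upwards [hA.src, hA.fst] with y h1 h2
    unfold rd
    rw [← h2, (extChartAt 𝓘(ℝ, E₁) (pr (σ q))).left_inv h1]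
  have hχ0 : rd E₁ (pr (σ q)) χ q.1 = χ (pr (σ q)) := by
    rw [hq, G4.rd_self]
  have hder : ∀ w : E₂, fderiv ℝ (fun y => χ (pr (σ y)) * φ (σ y)) q (0, w) =
      χ (pr (σ q)) * fderiv ℝ (fun y => φ (σ y)) q (0, w) := by
    intro w
    rw [hev.fderiv_eq, (hfst.fun_mul hφd.hasFDerivAt).fderiv, hχ0]
    simp
  simp only [hder]
  rw [Finset.mul_sum]
  refine Finset.sum_congr rfl fun i _ => ?_
  rw [Finset.mul_sum]
  refine Finset.sum_congr rfl fun j _ => ?_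
  ring

/-- `ac_psi` and `fm_psi` (at the point `extChartAt y y`); the chain rule:
`fderiv (φ ∘ psi Φ x y) (pt x y x y) (0, w) = fderiv (rd E₂ y (fun y => φ (Φ (x, y)))) ŷ w`. -/
theorem gv_fib {pr : M → B} {U : Set B} {Φ : B × F → M} (hΦ : Triv E E₁ E₂ pr U Φ) {x : B}
    (hx : x ∈ U) {g : Met E M} {h : Met E₂ F} (hh : IsFib g Φ x h) {φ V : M → ℝ} (hφ : Sm E φ)
    (hV : IsGv E₁ E₂ g pr φ V) (y : F) :
    V (Φ (x, y)) = Grd h (fun y => φ (Φ (x, y))) (fun y => φ (Φ (x, y))) y := by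
  have hA := ac_psi hΦ hx y
  have hP := hA.para.self_of_nhds
  have hd := diff_comp hP hφ
  have hself : psi E₁ E₂ Φ x y (pt E₁ E₂ x y x y) = Φ (x, y) := by
    unfold psi pt
    simp only [extChartAt_to_inv]
  have h1 := hV _ _ _ hA
  rw [hself] at h1
  have h2 : Fib.fm g (psi E₁ E₂ Φ x y) (pt E₁ E₂ x y x y) =
      coeff h y (extChartAt 𝓘(ℝ, E₂) y y) := (fm_psi hΦ hx hh y).self_of_nhds
  rw [h1, h2]
  unfold Grd gradC
  have h3 : rd E₂ y (fun y => φ (Φ (x, y))) =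
      (φ ∘ psi E₁ E₂ Φ x y) ∘ fun z => (extChartAt 𝓘(ℝ, E₁) x x, z) := by
    funext z
    simp only [rd, psi, Function.comp_apply, extChartAt_to_inv]
  have h4 : HasFDerivAt (fun z : E₂ => (extChartAt 𝓘(ℝ, E₁) x x, z))
      (ContinuousLinearMap.inr ℝ E₁ E₂) (extChartAt 𝓘(ℝ, E₂) y y) :=
    hasFDerivAt_prodMk_right _ _
  have h5 : HasFDerivAt (rd E₂ y (fun y => φ (Φ (x, y))))
      ((fderiv ℝ (φ ∘ psi E₁ E₂ Φ x y) (pt E₁ E₂ x y x y)).comp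
        (ContinuousLinearMap.inr ℝ E₁ E₂)) (extChartAt 𝓘(ℝ, E₂) y y) := by
    rw [h3]
    exact HasFDerivAt.comp (extChartAt 𝓘(ℝ, E₂) y y) hd.hasFDerivAt h4
  refine Finset.sum_congr rfl fun i _ => Finset.sum_congr rfl fun j _ => ?_
  unfold Curv.pd
  rw [h5.fderiv]
  rfl

end Pool.Agent.Lib.MP_df705a_gt.Coll.Y
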