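import Pool.Agent.Lib.MP_df705a_gt.Coll.Y.CGDefs
import Pool.Agent.Lib.MP_df705a_gt.Circ.OffQuad

/-!
# Module Y: the quadratic form qd is positive definite
-/

open scoped Manifold ContDiff Topology
open Set Bundle Module Filter MeasureTheory

noncomputable section

namespace Pool.Agent.Lib.MP_df705a_gt.Coll.Y

open Pool.Agent.Lib.MP_df705a_gt.Twist Pool.Agent.Lib.MP_df705a_gt.Perm
open Pool.Agent.Lib.MP_df705a_gt.Sub (mB)
open Pool.Agent.Lib.MP_df705a_gt.Circ (Horizontal Submersion cf Para HorConf)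
open Pool.Agent.Lib.MP_df705a_gt.Fib (RiemSub Biconformal gσ fm gam normT)

variable {E₁ : Type*} [NormedAddCommGroup E₁] [NormedSpace ℝ E₁] [FiniteDimensional ℝ E₁]
  {B : Type*} [TopologicalSpace B] [ChartedSpace E₁ B] [IsManifold 𝓘(ℝ, E₁) ∞ B]
  {E₂ : Type*} [NormedAddCommGroup E₂] [NormedSpace ℝ E₂] [FiniteDimensional ℝ E₂]
  {F : Type*} [TopologicalSpace F] [ChartedSpace E₂ F] [IsManifold 𝓘(ℝ, E₂) ∞ F]
  {E : Type*} [NormedAddCommGroup E] [NormedSpace ℝ E] [FiniteDimensional ℝ E]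
  {M : Type*} [TopologicalSpace M] [ChartedSpace E M] [IsManifold 𝓘(ℝ, E) ∞ M]

namespace QAlgAux

open Matrix

theorem inv_eq {m : ℕ} {A P : Matrix (Fin m) (Fin m) ℝ}
    (hP : ∀ i j, A⁻¹ i j = ∑ r, P r i * P r j) : A⁻¹ = Pᵀ * P := by
  ext i j
  rw [Matrix.mul_apply, hP]
  rfl

theorem ipM_trace {m : ℕ} (A S T : Matrix (Fin m) (Fin m) ℝ) :
    ipM A S T = Matrix.trace (Sᵀ * A⁻¹ * T * (A⁻¹)ᵀ) := by
  unfold ipM Matrix.trace
  rw [Finset.sum_comm]
  refine Finset.sum_congr rfl fun j _ => ?_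
  simp only [Matrix.diag_apply, Matrix.mul_apply, Matrix.transpose_apply, Finset.sum_mul]
  rw [Finset.sum_comm' (s := Finset.univ) (t := fun _ => Finset.univ) (s' := fun _ => Finset.univ)
    (t' := Finset.univ) (fun _ _ => by simp)]
  rw [Finset.sum_congr rfl fun a _ => Finset.sum_comm, Finset.sum_comm]
  refine Finset.sum_congr rfl fun b _ => Finset.sum_congr rfl fun a _ =>
    Finset.sum_congr rfl fun i _ => ?_
  ring

theorem ipM_eq {m : ℕ} {A P : Matrix (Fin m) (Fin m) ℝ}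
    (hP : ∀ i j, A⁻¹ i j = ∑ r, P r i * P r j) (S T : Matrix (Fin m) (Fin m) ℝ) :
    ipM A S T = ∑ r, ∑ s, (P * S * Pᵀ) r s * (P * T * Pᵀ) r s := by
  have h2 : ∑ r, ∑ s, (P * S * Pᵀ) r s * (P * T * Pᵀ) r s =
      Matrix.trace ((P * S * Pᵀ)ᵀ * (P * T * Pᵀ)) := by
    unfold Matrix.trace
    rw [Finset.sum_comm]
    refine Finset.sum_congr rfl fun j _ => ?_
    rw [Matrix.diag_apply, Matrix.mul_apply]
    rfl
  rw [h2, ipM_trace, inv_eq hP]
  rw [Matrix.transpose_mul, Matrix.transpose_mul, Matrix.transpose_mul, Matrix.transpose_transpose,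
    Matrix.mul_assoc P, Matrix.trace_mul_comm P]
  simp only [Matrix.mul_assoc]

theorem sum_sq {k : ℕ} {F R : Matrix (Fin k) (Fin k) ℝ}
    (hR : ∀ i j, F⁻¹ i j = ∑ r, R r i * R r j) (x : Fin k → ℝ) :
    ∑ i, ∑ j, F⁻¹ i j * (x i * x j) = ∑ t, (∑ i, R t i * x i) ^ 2 := by
  have h1 : ∀ t, (∑ i, R t i * x i) ^ 2 = ∑ i, ∑ j, R t i * R t j * (x i * x j) := by
    intro t
    rw [pow_two, Finset.sum_mul_sum]
    refine Finset.sum_congr rfl fun i _ => Finset.sum_congr rfl fun j _ => ?_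
    ring
  rw [Finset.sum_congr rfl fun t _ => h1 t]
  symm
  rw [Finset.sum_comm]
  refine Finset.sum_congr rfl fun i _ => ?_
  rw [Finset.sum_comm]
  refine Finset.sum_congr rfl fun j _ => ?_
  rw [hR, Finset.sum_mul]

theorem qd_eq {m k : ℕ} {A P : Matrix (Fin m) (Fin m) ℝ} {F R : Matrix (Fin k) (Fin k) ℝ}
    (hP : ∀ i j, A⁻¹ i j = ∑ r, P r i * P r j) (hR : ∀ i j, F⁻¹ i j = ∑ r, R r i * R r j)
    (S : Fin k → Matrix (Fin m) (Fin m) ℝ) :
    qd A F S = (1 / 4) * ∑ r, ∑ s, ∑ t, (∑ i, R t i * (P * S i * Pᵀ) r s) ^ 2 := by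
  unfold qd
  congr 1
  have h1 : ∀ r s, ∑ t, (∑ i, R t i * (P * S i * Pᵀ) r s) ^ 2 =
      ∑ i, ∑ j, F⁻¹ i j * ((P * S i * Pᵀ) r s * (P * S j * Pᵀ) r s) := fun r s =>
    (sum_sq hR fun i => (P * S i * Pᵀ) r s).symm
  simp only [h1]
  have h2 : ∀ i j, F⁻¹ i j * ipM A (S i) (S j) =
      ∑ r, ∑ s, F⁻¹ i j * ((P * S i * Pᵀ) r s * (P * S j * Pᵀ) r s) := by
    intro i j
    rw [ipM_eq hP, Finset.mul_sum]
    refine Finset.sum_congr rfl fun r _ => ?_
    rw [Finset.mul_sum]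
  simp only [h2]
  have h3 : ∀ i, ∑ j, ∑ r, ∑ s, F⁻¹ i j * ((P * S i * Pᵀ) r s * (P * S j * Pᵀ) r s) =
      ∑ r, ∑ s, ∑ j, F⁻¹ i j * ((P * S i * Pᵀ) r s * (P * S j * Pᵀ) r s) := by
    intro i
    rw [Finset.sum_comm]
    refine Finset.sum_congr rfl fun r _ => Finset.sum_comm
  simp only [h3]
  rw [Finset.sum_comm]
  refine Finset.sum_congr rfl fun r _ => Finset.sum_comm

theorem det_ne {m : ℕ} {A P : Matrix (Fin m) (Fin m) ℝ} (hA : A.PosDef)
    (hP : ∀ i j, A⁻¹ i j = ∑ r, P r i * P r j) : IsUnit P.det := by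
  have h1 := inv_eq hP
  have h2 : (A⁻¹).det = P.det * P.det := by
    rw [h1, Matrix.det_mul, Matrix.det_transpose]
  have h3 : (A⁻¹).det ≠ 0 := hA.inv.det_pos.ne'
  rw [h2] at h3
  exact isUnit_iff_ne_zero.2 (left_ne_zero_of_mul h3)

end QAlgAux

/-- By `Circ.….exists_sq` (Circ/OffQuad.lean) `A⁻¹ = Pᵀ P` and `F⁻¹ = Rᵀ R` (entrywise sums), so
`qd A F S = 1/4 ∑_r ∑_a ∑_b (∑_i R r i * (P * S i * Pᵀ) a b)²`. -/
theorem qd_nonneg {m k : ℕ} {A : Matrix (Fin m) (Fin m) ℝ} {F : Matrix (Fin k) (Fin k) ℝ}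
    (hA : A.PosDef) (hF : F.PosDef) (S : Fin k → Matrix (Fin m) (Fin m) ℝ) : 0 ≤ qd A F S := by
  obtain ⟨P, hP⟩ := Circ.QuadAux.exists_sq hA
  obtain ⟨R, hR⟩ := Circ.QuadAux.exists_sq hF
  rw [QAlgAux.qd_eq hP hR]
  refine mul_nonneg (by norm_num) ?_
  exact Finset.sum_nonneg fun r _ => Finset.sum_nonneg fun s _ => Finset.sum_nonneg fun t _ =>
    sq_nonneg _

/-- In the formula of `qd_nonneg` all squares vanish: `∑_i R r i • (P * S i * Pᵀ) = 0` for all `r`.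
The matrices `P` and `R` are invertible (`A⁻¹`, `F⁻¹` are), so `P * S i * Pᵀ = 0` and `S i = 0`. -/
theorem qd_zero {m k : ℕ} {A : Matrix (Fin m) (Fin m) ℝ} {F : Matrix (Fin k) (Fin k) ℝ}
    (hA : A.PosDef) (hF : F.PosDef) {S : Fin k → Matrix (Fin m) (Fin m) ℝ}
    (h : qd A F S = 0) (i : Fin k) : S i = 0 := by
  obtain ⟨P, hP⟩ := Circ.QuadAux.exists_sq hA
  obtain ⟨R, hR⟩ := Circ.QuadAux.exists_sq hF
  have hPu := QAlgAux.det_ne hA hP
  have hRu := QAlgAux.det_ne hF hR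
  rw [QAlgAux.qd_eq hP hR] at h
  have h1 : ∑ r, ∑ s, ∑ t, (∑ i, R t i * (P * S i * P.transpose) r s) ^ 2 = 0 := by
    linarith
  have h2 : ∀ r s, (P * S i * P.transpose) r s = 0 := by
    intro r s
    have h3 := (Finset.sum_eq_zero_iff_of_nonneg fun r _ => Finset.sum_nonneg fun s _ =>
      Finset.sum_nonneg fun t _ => sq_nonneg _).1 h1 r (Finset.mem_univ r)
    have h4 := (Finset.sum_eq_zero_iff_of_nonneg fun s _ =>
      Finset.sum_nonneg fun t _ => sq_nonneg _).1 h3 s (Finset.mem_univ s)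
    have h5 : ∀ t, ∑ i, R t i * (P * S i * P.transpose) r s = 0 := fun t => by
      have h6 := (Finset.sum_eq_zero_iff_of_nonneg fun t _ => sq_nonneg _).1 h4 t
        (Finset.mem_univ t)
      exact pow_eq_zero_iff (two_ne_zero) |>.1 h6
    have h7 : R.mulVec (fun i => (P * S i * P.transpose) r s) = R.mulVec 0 := by
      funext t
      rw [Matrix.mulVec_zero]
      exact h5 t
    have h8 := (Matrix.mulVec_injective_iff_isUnit.2
      ((Matrix.isUnit_iff_isUnit_det R).2 hRu)) h7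
    exact congrFun h8 i
  have h9 : P * S i * P.transpose = 0 := by
    ext r s
    exact h2 r s
  have h10 : IsUnit (P.transpose).det := by rwa [Matrix.det_transpose]
  calc S i = P⁻¹ * (P * S i * P.transpose) * (P.transpose)⁻¹ := by
        rw [Matrix.mul_assoc P, Matrix.nonsing_inv_mul_cancel_left _ _ hPu,
          Matrix.mul_nonsing_inv_cancel_right _ _ h10]
    _ = 0 := by rw [h9, Matrix.mul_zero, Matrix.zero_mul]

end Pool.Agent.Lib.MP_df705a_gt.Coll.Y
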