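import Pool.Agent.Lib.MP_df705a_gt.Coll.Y.CGDefs

/-!
# Module Y: the scalar curvature of cG without connection
-/

set_option linter.unusedSectionVars false

open scoped Manifold ContDiff Topology
open Set Bundle Module Filter MeasureTheory

noncomputable section

namespace Pool.Agent.Lib.MP_df705a_gt.Coll.Y

open Pool.Agent.Lib.MP_df705a_gt.Twist Pool.Agent.Lib.MP_df705a_gt.Perm
open Pool.Agent.Lib.MP_df705a_gt.Sub (mB)
open Pool.Agent.Lib.MP_df705a_gt.Circ (Horizontal Submersion cf Para HorConf)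
open Pool.Agent.Lib.MP_df705a_gt.Fib (RiemSub Biconformal gσ fm gam normT)

namespace CGBlkAux

open Twist.Alg

section scaling

variable {V : Type*} [AddCommGroup V] [Module ℝ V]
  {W : Type*} [AddCommGroup W] [Module ℝ W] {κ : Type*} [Fintype κ]
  [DecidableEq κ] {e : Basis κ ℝ W} {f K : Bil W} {c : ℝ}

theorem dlog_smul (hc : c ≠ 0) (hf : Nondeg e f) (hK : ∀ u v, K u v = c * f u v)
    (Df : V → W → W → ℝ) : dlog e K (fun x v w => c * Df x v w) = dlog e f Df := by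
  funext x
  unfold dlog
  rw [tr_smul hc hf hK, tr_const_mul, inv_mul_cancel_left₀ hc]

theorem quad_smul (hc : c ≠ 0) (hf : Nondeg e f) (hK : ∀ u v, K u v = c * f u v)
    (Df : V → W → W → ℝ) (u z : V) :
    quad e K (fun x v w => c * Df x v w) u z = quad e f Df u z := by
  unfold quad
  rw [tr_smul hc hf hK]
  have h1 : ∀ v w, cop e K (fun y => c * Df u w y) (fun y => c * Df z v y) =
      c * cop e f (Df u w) (Df z v) := by
    intro v w
    rw [cop_smul hc hf hK, cop_mul_left, cop_mul_right, inv_mul_cancel_left₀ hc]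
  rw [tr_congr h1, tr_const_mul, inv_mul_cancel_left₀ hc]

theorem d2log_smul (hc : c ≠ 0) (hf : Nondeg e f) (hK : ∀ u v, K u v = c * f u v)
    (Df : V → W → W → ℝ) (D2f : V → V → W → W → ℝ) (u z : V) :
    d2log e K (fun x v w => c * Df x v w) (fun x y v w => c * D2f x y v w) u z =
      d2log e f Df D2f u z := by
  unfold d2log
  rw [quad_smul hc hf hK, tr_smul hc hf hK, tr_const_mul, inv_mul_cancel_left₀ hc]

end scaling

section semi

variable {V₁ V₂ : Type*} [AddCommGroup V₁] [Module ℝ V₁] [AddCommGroup V₂] [Module ℝ V₂]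
  {ι₁ ι₂ : Type*} [Fintype ι₁] [DecidableEq ι₁] [Fintype ι₂] [DecidableEq ι₂]
  {e₁ : Basis ι₁ ℝ V₁} {e₂ : Basis ι₂ ℝ V₂} {h : Bil V₁} {f : Bil V₂}
  {g : Bil (V₁ × V₂)} {D : (V₁ × V₂) →ₗ[ℝ] Bil (V₁ × V₂)}
  {D2 : (V₁ × V₂) →ₗ[ℝ] (V₁ × V₂) →ₗ[ℝ] Bil (V₁ × V₂)}
  {Dh : (V₁ × V₂) →ₗ[ℝ] Bil V₁} {D2h : (V₁ × V₂) →ₗ[ℝ] (V₁ × V₂) →ₗ[ℝ] Bil V₁}
  {Df : (V₁ × V₂) →ₗ[ℝ] Bil V₂} {D2f : (V₁ × V₂) →ₗ[ℝ] (V₁ × V₂) →ₗ[ℝ] Bil V₂} {c : ℝ}

/-- The part of the scalar curvature which does not depend on the scale of the second factor. -/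
def rest (e₁ : Basis ι₁ ℝ V₁) (e₂ : Basis ι₂ ℝ V₂) (h : Bil V₁) (f : Bil V₂)
    (Dh : (V₁ × V₂) →ₗ[ℝ] Bil V₁) (D2h : (V₁ × V₂) →ₗ[ℝ] (V₁ × V₂) →ₗ[ℝ] Bil V₁)
    (Df : (V₁ × V₂) →ₗ[ℝ] Bil V₂) (D2f : (V₁ × V₂) →ₗ[ℝ] (V₁ × V₂) →ₗ[ℝ] Bil V₂) : ℝ :=
  scal e₁ h (r1 Dh) (r11 D2h) -
    2 * tr e₁ h (fun u z => d2log e₂ f (fun (x : V₁) v w => Df (x, 0) v w)
      (fun (x y : V₁) v w => D2f (x, 0) (y, 0) v w) u z -
      cop e₁ h (chr (r1 Dh) u z) (dlog e₂ f fun (x : V₁) v w => Df (x, 0) v w)) -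
    cop e₁ h (dlog e₂ f fun (x : V₁) v w => Df (x, 0) v w)
      (dlog e₂ f fun (x : V₁) v w => Df (x, 0) v w) -
    (1 / 4) * tr e₁ h (fun u z => quad e₂ f (fun (x : V₁) v w => Df (x, 0) v w) u z)

theorem scal_semi (hc : c ≠ 0) (hh : Nondeg e₁ h) (hf : Nondeg e₂ f)
    (hg : ∀ u v, g u v = h u.1 v.1 + c * f u.2 v.2)
    (hD : ∀ u v w, D u v w = Dh u v.1 w.1 + c * Df u v.2 w.2)
    (hD2 : ∀ u v w z, D2 u v w z = D2h u v w.1 z.1 + c * D2f u v w.2 z.2)
    (sh : ∀ u v w, Dh u v w = Dh u w v) (sf : ∀ u v w, Df u v w = Df u w v)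
    (s2h : ∀ u v w z, D2h u v w z = D2h u v z w) (s2f : ∀ u v w z, D2f u v w z = D2f u v z w)
    (th : ∀ y : V₂, tr e₁ h (fun v w => Dh (0, y) v w) = 0)
    (t2h : ∀ y y' : V₂, tr e₁ h (fun v w => D2h (0, y) (0, y') v w) =
      quad e₁ h (fun (x : V₂) v w => Dh (0, x) v w) y y') :
    scal (e₁.prod e₂) g D D2 = c⁻¹ * (scal e₂ f (r2 Df) (r22 D2f) -
      (1 / 4) * tr e₂ f (fun u z => quad e₁ h (fun (x : V₂) v w => Dh (0, x) v w) u z)) +
      rest e₁ e₂ h f Dh D2h Df D2f := by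
  set K : Bil V₂ := c • f with hKd
  have hK : ∀ u v, K u v = c * f u v := fun u v => rfl
  have CK : Cnf e₂ f K c (r2 Df) (c • r2 Df) (r22 D2f) (c • r22 D2f) 0 0 :=
    { hA := hc
      hh := hf
      sD := fun u v w => sf _ _ _
      sa := fun u v => rfl
      hH := hK
      hDH := fun u v w => by simp
      hD2H := fun u v w z => by simp }
  have hBlk : Blk e₁ e₂ h K g D D2 (fun u v w => Dh u v w) (fun u v w => c * Df u v w)
      (fun u v w z => D2h u v w z) (fun u v w z => c * D2f u v w z)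
      (r1 Dh) (r11 D2h) (c • r2 Df) (c • r22 D2f) :=
    { hH := hh
      hK := nondeg_smul hc hf hK
      hg := hg
      hD := hD
      hD2 := hD2
      hdH := fun u v w => rfl
      hd2H := fun u v w z => rfl
      hdK := fun u v w => rfl
      hd2K := fun u v w z => rfl
      sH := fun u v w => sh u v w
      sK := fun u v w => by rw [sf]
      zH := fun u v => by simp
      zK := fun u v => by simp
      zH2 := fun u v w => by simp
      zK2 := fun u v w => by simp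
      s2H := fun u v w z => s2h u v w z
      s2K := fun u v w z => by rw [s2f] }
  have hl : (dlog e₁ h fun (x : V₂) v w => Dh (0, x) v w) = 0 := by
    funext y
    unfold dlog
    rw [th, mul_zero]
    rfl
  have h2 : ∀ u z : V₂, d2log e₁ h (fun (x : V₂) v w => Dh (0, x) v w)
      (fun (x y : V₂) v w => D2h (0, x) (0, y) v w) u z = 0 := by
    intro u z
    unfold d2log
    rw [t2h]
    ring
  have hlap : lap e₂ f (r2 Df) 0 0 = 0 := by
    unfold lap
    have : ∀ u v : V₂, ((0 : Bil V₂) u v - cop e₂ f (chr (r2 Df) u v) (0 : V₂ →ₗ[ℝ] ℝ)) = 0 := by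
      intro u v
      have h0 : ((0 : V₂ →ₗ[ℝ] ℝ) : V₂ → ℝ) = 0 := rfl
      rw [h0, cop_zero_right]
      simp
    rw [tr_congr this]
    unfold tr
    simp
  have hcop : cop e₂ f (0 : V₂ →ₗ[ℝ] ℝ) (0 : V₂ →ₗ[ℝ] ℝ) = 0 := by
    have h0 : ((0 : V₂ →ₗ[ℝ] ℝ) : V₂ → ℝ) = 0 := rfl
    rw [h0, cop_zero_right]
  rw [scal_block hBlk, CK.scal_eq, hlap, hcop]
  simp only [dlog_smul hc hf hK (fun (x : V₁) v w => Df (x, 0) v w),
    quad_smul hc hf hK (fun (x : V₁) v w => Df (x, 0) v w),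
    d2log_smul hc hf hK (fun (x : V₁) v w => Df (x, 0) v w)
      (fun (x y : V₁) v w => D2f (x, 0) (y, 0) v w), hl, h2, cop_zero_right, sub_zero]
  have h3 : tr e₂ K (fun _ _ => (0 : ℝ)) = 0 := by
    unfold tr
    simp
  rw [h3, tr_smul hc hf hK (fun u z => quad e₁ h (fun (x : V₂) v w => Dh (0, x) v w) u z)]
  unfold rest
  ring

end semi

end CGBlkAux


variable {E₁ : Type*} [NormedAddCommGroup E₁] [NormedSpace ℝ E₁] [FiniteDimensional ℝ E₁]
  {B : Type*} [TopologicalSpace B] [ChartedSpace E₁ B] [IsManifold 𝓘(ℝ, E₁) ∞ B]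
  {E₂ : Type*} [NormedAddCommGroup E₂] [NormedSpace ℝ E₂] [FiniteDimensional ℝ E₂]
  {F : Type*} [TopologicalSpace F] [ChartedSpace E₂ F] [IsManifold 𝓘(ℝ, E₂) ∞ F]
  {E : Type*} [NormedAddCommGroup E] [NormedSpace ℝ E] [FiniteDimensional ℝ E]
  {M : Type*} [TopologicalSpace M] [ChartedSpace E M] [IsManifold 𝓘(ℝ, E) ∞ M]

open CGBlkAux Twist.Alg in
/-- The scalar curvature of `H(dx, dx) + ε² f(dy, dy)` when `det H` does not depend on `y`. -/
theorem scal_blk {H : E₁ × E₂ → Matrix (Fin (finrank ℝ E₁)) (Fin (finrank ℝ E₁)) ℝ}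
    {f : E₁ × E₂ → Matrix (Fin (finrank ℝ E₂)) (Fin (finrank ℝ E₂)) ℝ} {q : E₁ × E₂}
    (hH : ∀ i j, ContDiffAt ℝ ∞ (fun p => H p i j) q)
    (hf : ∀ i j, ContDiffAt ℝ ∞ (fun p => f p i j) q)
    (hHp : ∀ᶠ p in 𝓝 q, (H p).PosDef) (hfp : ∀ᶠ p in 𝓝 q, (f p).PosDef)
    (hdet : ∀ᶠ p in 𝓝 q, ∀ w : E₂, fderiv ℝ (fun p => (H p).det) p (0, w) = 0) :
    ∃ b : ℝ, ∀ ε : ℝ, 0 < ε → Curv.scal (cG H f 0 ε) q =
      (Curv.scal (fun y => f (q.1, y)) q.2 - qd (H q) (f q) (dHv H q)) / ε ^ 2 + b := by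
  have hhq := hHp.self_of_nhds
  have hfq := hfp.self_of_nhds
  have hsy : ∀ᶠ y in 𝓝 q, ∀ i j, Twist.cf H i j y = Twist.cf H j i y := by
    filter_upwards [hHp] with y hy i j
    have := hy.isHermitian.apply j i
    simpa using this
  have fsy : ∀ᶠ y in 𝓝 q, ∀ i j, Twist.cf f i j y = Twist.cf f j i y := by
    filter_upwards [hfp] with y hy i j
    have := hy.isHermitian.apply j i
    simpa using this
  have hg1 : gram (finBasis ℝ E₁) (mkB (finBasis ℝ E₁) fun i j => H q i j) = H q := gram_mkB _ _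
  have hg2 : gram (finBasis ℝ E₂) (mkB (finBasis ℝ E₂) fun i j => f q i j) = f q := gram_mkB _ _
  have nh : Nondeg (finBasis ℝ E₁) (mkB (finBasis ℝ E₁) fun i j => H q i j) :=
    ⟨mkB_symm _ fun i j => hsy.self_of_nhds i j, by
      rw [hg1]
      exact (Matrix.isUnit_iff_isUnit_det _).mp hhq.isUnit⟩
  have nf : Nondeg (finBasis ℝ E₂) (mkB (finBasis ℝ E₂) fun i j => f q i j) :=
    ⟨mkB_symm _ fun i j => fsy.self_of_nhds i j, by
      rw [hg2]
      exact (Matrix.isUnit_iff_isUnit_det _).mp hfq.isUnit⟩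
  have ih : ∀ i j, (H q)⁻¹ i j = (H q)⁻¹ j i := fun i j => by
    have := inv_symm nh i j
    rwa [hg1] at this
  have hh1 : ∀ y : E₂, ∑ k, ∑ l, (H q)⁻¹ k l * fderiv ℝ (fun q => H q k l) q (0, y) = 0 :=
    fun y => det_dir1 (fun i j => (hH i j).of_le (by exact_mod_cast le_top)) hHp
      (hdet.self_of_nhds y)
  have hh2 : ∀ y y' : E₂, ∑ k, ∑ l, (H q)⁻¹ k l *
        fderiv ℝ (fun q => fderiv ℝ (fun q => H q k l) q (0, y)) q (0, y') =
      ∑ k, ∑ l, ∑ r, ∑ s, (H q)⁻¹ k l * (H q)⁻¹ r s *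
        fderiv ℝ (fun q => H q k r) q (0, y) * fderiv ℝ (fun q => H q l s) q (0, y') :=
    fun y y' => det_dir2 hH hHp (hdet.mono fun p hp => hp y) (0, y')
  refine ⟨rest (finBasis ℝ E₁) (finBasis ℝ E₂) (mkB (finBasis ℝ E₁) fun i j => H q i j)
    (mkB (finBasis ℝ E₂) fun i j => f q i j) (mkD (finBasis ℝ E₁) (j1 (Twist.cf H) q))
    (mkD2 (finBasis ℝ E₁) (j2 (Twist.cf H) q)) (mkD (finBasis ℝ E₂) (j1 (Twist.cf f) q))
    (mkD2 (finBasis ℝ E₂) (j2 (Twist.cf f) q)), fun ε hε => ?_⟩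
  have hα : ContDiffAt ℝ ∞ (fun _ : E₁ × E₂ => (0 : ℝ)) q := contDiffAt_const
  have hβ : ContDiffAt ℝ ∞ (fun _ : E₁ × E₂ => Real.log ε) q := contDiffAt_const
  have hcG : cG H f 0 ε = blockMetric H f (fun _ => 0) (fun _ => Real.log ε) := by
    funext y i j
    rw [block_apply, mkB_apply, mkB_apply]
    unfold cG mB
    simp [Real.exp_log hε]
  have hc : ε ^ 2 ≠ 0 := by positivity
  have f0 : ∀ (a : ℝ) (u : E₁ × E₂), fderiv ℝ (fun _ : E₁ × E₂ => a) q u = 0 := fun a u => by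
    simp
  have f00 : ∀ (a : ℝ) (u v : E₁ × E₂),
      fderiv ℝ (fderiv ℝ (fun _ : E₁ × E₂ => a)) q u v = 0 := fun a u v => by
    have : fderiv ℝ (fun _ : E₁ × E₂ => a) = 0 := by
      ext1 y
      simp
    rw [this]
    simp
  have hform : ∀ v w : E₁ × E₂, fB (blockMetric H f (fun _ => 0) (fun _ => Real.log ε)) q v w =
      mkB (finBasis ℝ E₁) (fun i j => H q i j) v.1 w.1 +
        ε ^ 2 * mkB (finBasis ℝ E₂) (fun i j => f q i j) v.2 w.2 := fun v w => by
    rw [block_form, Real.exp_zero, Real.exp_log hε]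
    ring
  have hD : ∀ u v w : E₁ × E₂,
      fD (blockMetric H f (fun _ => 0) (fun _ => Real.log ε)) q u v w =
      mkD (finBasis ℝ E₁) (j1 (Twist.cf H) q) u v.1 w.1 +
        ε ^ 2 * mkD (finBasis ℝ E₂) (j1 (Twist.cf f) q) u v.2 w.2 := fun u v w => by
    rw [block_D hH hf hα hβ, f0, f0, Real.exp_zero, Real.exp_log hε]
    ring
  have hD2 : ∀ u u' v w : E₁ × E₂,
      fD2 (blockMetric H f (fun _ => 0) (fun _ => Real.log ε)) q u u' v w =
      mkD2 (finBasis ℝ E₁) (j2 (Twist.cf H) q) u u' v.1 w.1 +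
        ε ^ 2 * mkD2 (finBasis ℝ E₂) (j2 (Twist.cf f) q) u u' v.2 w.2 := fun u u' v w => by
    rw [block_D2 hH hf hα hβ]
    simp only [f0, f00, Real.exp_zero, Real.exp_log hε]
    ring
  have nprod : Nondeg ((finBasis ℝ E₁).prod (finBasis ℝ E₂))
      (fB (blockMetric H f (fun _ => 0) (fun _ => Real.log ε)) q) :=
    nondeg_prod nh (nondeg_smul hc nf
      (H := ε ^ 2 • mkB (finBasis ℝ E₂) fun i j => f q i j) fun u v => rfl)
      fun u v => hform u v
  have nfin : Nondeg (finBasis ℝ (E₁ × E₂))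
      (fB (blockMetric H f (fun _ => 0) (fun _ => Real.log ε)) q) := by
    refine ⟨nprod.symm, ?_⟩
    have h1 := (LinearMap.BilinForm.nondegenerate_iff_det_ne_zero
      (B := fB (blockMetric H f (fun _ => 0) (fun _ => Real.log ε)) q)
        ((finBasis ℝ E₁).prod (finBasis ℝ E₂))).mpr ?_
    · have h2 := (LinearMap.BilinForm.nondegenerate_iff_det_ne_zero
        (B := fB (blockMetric H f (fun _ => 0) (fun _ => Real.log ε)) q)
          (finBasis ℝ (E₁ × E₂))).mp h1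
      have h3 : gram (finBasis ℝ (E₁ × E₂))
          (fB (blockMetric H f (fun _ => 0) (fun _ => Real.log ε)) q) =
          LinearMap.BilinForm.toMatrix (finBasis ℝ (E₁ × E₂))
            (fB (blockMetric H f (fun _ => 0) (fun _ => Real.log ε)) q) := by
        ext i j
        rw [LinearMap.BilinForm.toMatrix_apply]
        rfl
      rw [h3]
      exact isUnit_iff_ne_zero.mpr h2
    · have h3 : LinearMap.BilinForm.toMatrix ((finBasis ℝ E₁).prod (finBasis ℝ E₂))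
          (fB (blockMetric H f (fun _ => 0) (fun _ => Real.log ε)) q) =
          gram ((finBasis ℝ E₁).prod (finBasis ℝ E₂))
            (fB (blockMetric H f (fun _ => 0) (fun _ => Real.log ε)) q) := by
        ext i j
        rw [LinearMap.BilinForm.toMatrix_apply]
        rfl
      rw [h3]
      exact isUnit_iff_ne_zero.mp nprod.det
  have hs : Curv.scal (blockMetric H f (fun _ => 0) (fun _ => Real.log ε)) q =
      scal ((finBasis ℝ E₁).prod (finBasis ℝ E₂))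
      (fB (blockMetric H f (fun _ => 0) (fun _ => Real.log ε)) q)
      (fD (blockMetric H f (fun _ => 0) (fun _ => Real.log ε)) q)
      (fD2 (blockMetric H f (fun _ => 0) (fun _ => Real.log ε)) q) := by
    rw [scal_link (block_contDiffAt hH hf hα hβ), scal_basis _ _ nfin nprod]
  have hS2 : Curv.scal (fun y => f (q.1, y)) q.2 = scal (finBasis ℝ E₂)
      (mkB (finBasis ℝ E₂) fun i j => f q i j)
      (r2 (mkD (finBasis ℝ E₂) (j1 (Twist.cf f) q)))
      (r22 (mkD2 (finBasis ℝ E₂) (j2 (Twist.cf f) q))) := by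
    rw [scal_link (h := fun y => f (q.1, y)) (fun i j => slice2_contDiffAt (hf i j)),
      slice2_fD hf, slice2_fD2 hf]
  have hq : (1 / 4) * tr (finBasis ℝ E₂) (mkB (finBasis ℝ E₂) fun i j => f q i j)
      (fun u z => quad (finBasis ℝ E₁) (mkB (finBasis ℝ E₁) fun i j => H q i j)
        (fun (x : E₂) v w => mkD (finBasis ℝ E₁) (j1 (Twist.cf H) q) (0, x) v w) u z) =
      qd (H q) (f q) (dHv H q) := by
    unfold qd
    congr 1
    unfold tr
    rw [hg2]
    refine Finset.sum_congr rfl fun i _ => Finset.sum_congr rfl fun j _ => ?_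
    congr 1
    refine (quad_rearrange ih hg1
      (fun x : E₂ => mkD (finBasis ℝ E₁) (j1 (Twist.cf H) q) (0, x)) _ _).trans ?_
    simp only [mkD_basis, j1_apply]
    unfold ipM dHv
    rw [Finset.sum_comm]
    refine Finset.sum_congr rfl fun b _ => ?_
    rw [Finset.sum_congr rfl fun a _ => Finset.sum_comm]
    rw [Finset.sum_comm]
    refine Finset.sum_congr rfl fun s _ => Finset.sum_congr rfl fun a _ =>
      Finset.sum_congr rfl fun r _ => ?_
    rw [ih a b, ih r s]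
    ring
  rw [hcG, hs, scal_semi hc nh nf hform hD hD2
    (mkD_symm _ (j1_symm hsy)) (mkD_symm _ (j1_symm fsy)) (mkD2_symm _ (j2_symm hsy))
    (mkD2_symm _ (j2_symm fsy)) (fun y => ?_) (fun y y' => ?_), hq, ← hS2]
  · field_simp
  · unfold tr
    rw [hg1, ← hh1 y]
    refine Finset.sum_congr rfl fun i _ => Finset.sum_congr rfl fun j _ => ?_
    simp only [mkD_basis, j1_apply]
  · rw [quad_rearrange ih hg1
      (fun x : E₂ => mkD (finBasis ℝ E₁) (j1 (Twist.cf H) q) (0, x)) y y']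
    simp only [mkD_basis, j1_apply]
    rw [← hh2 y' y]
    unfold tr
    rw [hg1]
    refine Finset.sum_congr rfl fun i _ => Finset.sum_congr rfl fun j _ => ?_
    simp only [mkD2_basis, j2_apply]
    rw [fderiv_fderiv_apply (hH i j)]

end Pool.Agent.Lib.MP_df705a_gt.Coll.Y
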