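import Pool.Agent.Lib.MP_df705a_gt.Coll.Y.CGDefs
import Pool.Agent.Lib.MP_df705a_gt.Circ.OffScal
import Pool.Agent.Lib.MP_df705a_gt.Fib.ConnScal

/-!
# Module Y: the scalar curvature of cG: the connection
-/

open scoped Manifold ContDiff Topology
open Set Bundle Module Filter MeasureTheory

noncomputable section

set_option maxSynthPendingDepth 3
set_option linter.unusedSectionVars false
set_option linter.unusedSimpArgs false

namespace Pool.Agent.Lib.MP_df705a_gt.Coll.Y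

open Pool.Agent.Lib.MP_df705a_gt.Twist Pool.Agent.Lib.MP_df705a_gt.Perm
open Pool.Agent.Lib.MP_df705a_gt.Sub (mB)
open Pool.Agent.Lib.MP_df705a_gt.Circ (Horizontal Submersion cf Para HorConf)
open Pool.Agent.Lib.MP_df705a_gt.Fib (RiemSub Biconformal gσ fm gam normT)

variable {E₁ : Type*} [NormedAddCommGroup E₁] [NormedSpace ℝ E₁] [FiniteDimensional ℝ E₁]
  {B : Type*} [TopologicalSpace B] [ChartedSpace E₁ B] [IsManifold 𝓘(ℝ, E₁) ∞ B]
  {E₂ : Type*} [NormedAddCommGroup E₂] [NormedSpace ℝ E₂] [FiniteDimensional ℝ E₂]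
  {F : Type*} [TopologicalSpace F] [ChartedSpace E₂ F] [IsManifold 𝓘(ℝ, E₂) ∞ F]
  {E : Type*} [NormedAddCommGroup E] [NormedSpace ℝ E] [FiniteDimensional ℝ E]
  {M : Type*} [TopologicalSpace M] [ChartedSpace E M] [IsManifold 𝓘(ℝ, E) ∞ M]

namespace CGOffAux

open Pool.Agent.Lib.MP_df705a_gt.Twist.Alg Pool.Agent.Lib.MP_df705a_gt.Fib.F1

/-- The metric `H(dx, dx) + K(dy - Γ dx, dy - Γ dx)`. -/
def gC (HH : E₁ × E₂ → E₁ →L[ℝ] E₁ →L[ℝ] ℝ) (KK : E₁ × E₂ → E₂ →L[ℝ] E₂ →L[ℝ] ℝ)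
    (Γ : E₁ × E₂ → E₁ →L[ℝ] E₂) : Curv.Coeff (E₁ × E₂) := fun p i j =>
  HH p (finBasis ℝ (E₁ × E₂) i).1 (finBasis ℝ (E₁ × E₂) j).1 +
      KK p ((finBasis ℝ (E₁ × E₂) i).2 - Γ p (finBasis ℝ (E₁ × E₂) i).1)
        ((finBasis ℝ (E₁ × E₂) j).2 - Γ p (finBasis ℝ (E₁ × E₂) j).1)

variable {HH : E₁ × E₂ → E₁ →L[ℝ] E₁ →L[ℝ] ℝ} {KK : E₁ × E₂ → E₂ →L[ℝ] E₂ →L[ℝ] ℝ}
  {Γ : E₁ × E₂ → E₁ →L[ℝ] E₂} {q : E₁ × E₂}

theorem cg_apply (p : E₁ × E₂) (i j : Fin (finrank ℝ (E₁ × E₂))) :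
    gC HH KK Γ p i j =
      HH p (finBasis ℝ (E₁ × E₂) i).1 (finBasis ℝ (E₁ × E₂) j).1 +
      KK p ((finBasis ℝ (E₁ × E₂) i).2 - Γ p (finBasis ℝ (E₁ × E₂) i).1)
        ((finBasis ℝ (E₁ × E₂) j).2 - Γ p (finBasis ℝ (E₁ × E₂) j).1) := rfl

section smooth

variable (hH : ContDiffAt ℝ ∞ HH q) (hK : ContDiffAt ℝ ∞ KK q)
  (hΓ : ContDiffAt ℝ ∞ Γ q)

include hH hK hΓ

theorem cg_smooth (i j : Fin (finrank ℝ (E₁ × E₂))) :
    ContDiffAt ℝ ∞ (fun p => gC HH KK Γ p i j) q := by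
  simp only [cg_apply]
  exact (tri_smooth (A := fun _ => (finBasis ℝ (E₁ × E₂) i).1)
      (B := fun _ => (finBasis ℝ (E₁ × E₂) j).1) hH contDiffAt_const contDiffAt_const).add
    (tri_smooth hK (comp_smooth hΓ _ _) (comp_smooth hΓ _ _))

theorem cg_D (h0 : Γ q = 0) (x v w : E₁ × E₂) : fD (gC HH KK Γ) q x v w =
    fderiv ℝ HH q x v.1 w.1 + (fderiv ℝ KK q x v.2 w.2 -
      KK q (fderiv ℝ Γ q x v.1) w.2 - KK q v.2 (fderiv ℝ Γ q x w.1)) := by
  refine bil_ext (finBasis ℝ (E₁ × E₂)) (fD (gC HH KK Γ) q x) (fun v w =>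
    fderiv ℝ HH q x v.1 w.1 + (fderiv ℝ KK q x v.2 w.2 -
      KK q (fderiv ℝ Γ q x v.1) w.2 - KK q v.2 (fderiv ℝ Γ q x w.1))) ?_ ?_ ?_ ?_ ?_ v w
  · intro v v' w
    simp only [Prod.fst_add, Prod.snd_add, map_add, _root_.add_apply]
    ring
  · intro c v w
    simp only [Prod.smul_fst, Prod.smul_snd, map_smul, _root_.smul_apply, smul_eq_mul]
    ring
  · intro v w w'
    simp only [Prod.fst_add, Prod.snd_add, map_add, _root_.add_apply]
    ring
  · intro c v w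
    simp only [Prod.smul_fst, Prod.smul_snd, map_smul, _root_.smul_apply, smul_eq_mul]
    ring
  · intro i j
    rw [mkD_basis, j1_apply]
    simp only [cg_apply]
    have c1 := tri_smooth (A := fun _ => (finBasis ℝ (E₁ × E₂) i).1)
      (B := fun _ => (finBasis ℝ (E₁ × E₂) j).1) hH contDiffAt_const contDiffAt_const
    have c2 := comp_smooth hΓ (finBasis ℝ (E₁ × E₂) i).2 (finBasis ℝ (E₁ × E₂) i).1
    have c3 := comp_smooth hΓ (finBasis ℝ (E₁ × E₂) j).2 (finBasis ℝ (E₁ × E₂) j).1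
    have c4 := tri_smooth hK c2 c3
    have d1 := (ev_diff c1).self_of_nhds
    have d4 := (ev_diff c4).self_of_nhds
    rw [fderiv_fun_add d1 d4, _root_.add_apply,
      tri_fderiv (ev_diff hK).self_of_nhds (ev_diff c2).self_of_nhds (ev_diff c3).self_of_nhds,
      ap_fderiv hH, comp_fderiv hΓ, comp_fderiv hΓ, h0]
    simp only [_root_.zero_apply, sub_zero, map_neg, _root_.neg_apply]
    ring

theorem cg_D2 (h0 : Γ q = 0) (x x' v w : E₁ × E₂) : fD2 (gC HH KK Γ) q x x' v w =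
    fderiv ℝ (fderiv ℝ HH) q x x' v.1 w.1 +
    (fderiv ℝ (fderiv ℝ KK) q x x' v.2 w.2
      - fderiv ℝ KK q x' (fderiv ℝ Γ q x v.1) w.2
      - fderiv ℝ KK q x' v.2 (fderiv ℝ Γ q x w.1)
      - fderiv ℝ KK q x (fderiv ℝ Γ q x' v.1) w.2
      - fderiv ℝ KK q x v.2 (fderiv ℝ Γ q x' w.1)
      - KK q (fderiv ℝ (fderiv ℝ Γ) q x x' v.1) w.2
      - KK q v.2 (fderiv ℝ (fderiv ℝ Γ) q x x' w.1)
      + KK q (fderiv ℝ Γ q x' v.1) (fderiv ℝ Γ q x w.1)
      + KK q (fderiv ℝ Γ q x v.1) (fderiv ℝ Γ q x' w.1)) := by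
  refine bil_ext (finBasis ℝ (E₁ × E₂)) (fD2 (gC HH KK Γ) q x x') (fun v w =>
    fderiv ℝ (fderiv ℝ HH) q x x' v.1 w.1 +
    (fderiv ℝ (fderiv ℝ KK) q x x' v.2 w.2
      - fderiv ℝ KK q x' (fderiv ℝ Γ q x v.1) w.2
      - fderiv ℝ KK q x' v.2 (fderiv ℝ Γ q x w.1)
      - fderiv ℝ KK q x (fderiv ℝ Γ q x' v.1) w.2
      - fderiv ℝ KK q x v.2 (fderiv ℝ Γ q x' w.1)
      - KK q (fderiv ℝ (fderiv ℝ Γ) q x x' v.1) w.2
      - KK q v.2 (fderiv ℝ (fderiv ℝ Γ) q x x' w.1)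
      + KK q (fderiv ℝ Γ q x' v.1) (fderiv ℝ Γ q x w.1)
      + KK q (fderiv ℝ Γ q x v.1) (fderiv ℝ Γ q x' w.1))) ?_ ?_ ?_ ?_ ?_ v w
  · intro v v' w
    simp only [Prod.fst_add, Prod.snd_add, map_add, _root_.add_apply]
    ring
  · intro c v w
    simp only [Prod.smul_fst, Prod.smul_snd, map_smul, _root_.smul_apply, smul_eq_mul]
    ring
  · intro v w w'
    simp only [Prod.fst_add, Prod.snd_add, map_add, _root_.add_apply]
    ring
  · intro c v w
    simp only [Prod.smul_fst, Prod.smul_snd, map_smul, _root_.smul_apply, smul_eq_mul]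
    ring
  · intro i j
    rw [mkD2_basis, j2_apply]
    simp only [cg_apply]
    have c1 := tri_smooth (A := fun _ => (finBasis ℝ (E₁ × E₂) i).1)
      (B := fun _ => (finBasis ℝ (E₁ × E₂) j).1) hH contDiffAt_const contDiffAt_const
    have c2 := comp_smooth hΓ (finBasis ℝ (E₁ × E₂) i).2 (finBasis ℝ (E₁ × E₂) i).1
    have c3 := comp_smooth hΓ (finBasis ℝ (E₁ × E₂) j).2 (finBasis ℝ (E₁ × E₂) j).1
    have c4 := tri_smooth hK c2 c3
    have h1 : (fderiv ℝ fun p => HH p (finBasis ℝ (E₁ × E₂) i).1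
          (finBasis ℝ (E₁ × E₂) j).1 +
        KK p ((finBasis ℝ (E₁ × E₂) i).2 - Γ p (finBasis ℝ (E₁ × E₂) i).1)
          ((finBasis ℝ (E₁ × E₂) j).2 - Γ p (finBasis ℝ (E₁ × E₂) j).1)) =ᶠ[𝓝 q]
        fun y => (fderiv ℝ fun p => HH p (finBasis ℝ (E₁ × E₂) i).1
          (finBasis ℝ (E₁ × E₂) j).1) y +
        (fderiv ℝ fun p => KK p
          ((finBasis ℝ (E₁ × E₂) i).2 - Γ p (finBasis ℝ (E₁ × E₂) i).1)
          ((finBasis ℝ (E₁ × E₂) j).2 - Γ p (finBasis ℝ (E₁ × E₂) j).1)) y := by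
      filter_upwards [ev_diff c1, ev_diff c4] with y h1 h2
      exact fderiv_fun_add h1 h2
    rw [h1.fderiv_eq, fderiv_fun_add (diff_fderiv c1) (diff_fderiv c4),
      _root_.add_apply, _root_.add_apply, ap_fderiv2 hH, tri_fderiv2 hK c2 c3,
      comp_fderiv hΓ, comp_fderiv hΓ, comp_fderiv hΓ, comp_fderiv hΓ, comp_fderiv2 hΓ,
      comp_fderiv2 hΓ, h0]
    simp only [_root_.zero_apply, sub_zero, map_neg, _root_.neg_apply]
    ring

end smooth

theorem cg_form (h0 : Γ q = 0) (v w : E₁ × E₂) : fB (gC HH KK Γ) q v w =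
    HH q v.1 w.1 + KK q v.2 w.2 := by
  refine bil_ext (finBasis ℝ (E₁ × E₂)) (fB (gC HH KK Γ) q) (fun v w =>
    HH q v.1 w.1 + KK q v.2 w.2) ?_ ?_ ?_ ?_ ?_ v w
  · intro v v' w
    simp only [Prod.fst_add, Prod.snd_add, map_add, _root_.add_apply]
    ring
  · intro c v w
    simp only [Prod.smul_fst, Prod.smul_snd, map_smul, _root_.smul_apply, smul_eq_mul]
    ring
  · intro v w w'
    simp only [Prod.fst_add, Prod.snd_add, map_add, _root_.add_apply]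
    ring
  · intro c v w
    simp only [Prod.smul_fst, Prod.smul_snd, map_smul, _root_.smul_apply, smul_eq_mul]
    ring
  · intro i j
    rw [mkB_basis, cg_apply, h0]
    simp only [_root_.zero_apply, sub_zero]

/-- The first order off-diagonal term. -/
def cmm (KK : E₁ × E₂ → E₂ →L[ℝ] E₂ →L[ℝ] ℝ)
    (Γ : E₁ × E₂ → E₁ →L[ℝ] E₂) (q : E₁ × E₂) :
    E₁ →ₗ[ℝ] E₁ →ₗ[ℝ] E₂ →ₗ[ℝ] ℝ :=
  LinearMap.mk₂ ℝ (fun x u => -((KK q (fderiv ℝ Γ q (x, 0) u) : E₂ →L[ℝ] ℝ) : E₂ →ₗ[ℝ] ℝ))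
    (fun x x' u => by
      have h1 : ((x + x', 0) : E₁ × E₂) = (x, 0) + (x', 0) := by simp
      ext v
      rw [h1]
      simp only [map_add, _root_.add_apply, LinearMap.neg_apply, LinearMap.add_apply,
        ContinuousLinearMap.coe_coe]
      ring)
    (fun c x u => by
      have h1 : ((c • x, 0) : E₁ × E₂) = c • (x, 0) := by simp
      ext v
      rw [h1]
      simp only [map_smul, _root_.smul_apply, LinearMap.neg_apply, LinearMap.smul_apply,
        ContinuousLinearMap.coe_coe, smul_eq_mul]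
      ring)
    (fun x u u' => by
      ext v
      simp only [map_add, _root_.add_apply, LinearMap.neg_apply, LinearMap.add_apply,
        ContinuousLinearMap.coe_coe]
      ring)
    (fun c x u => by
      ext v
      simp only [map_smul, _root_.smul_apply, LinearMap.neg_apply, LinearMap.smul_apply,
        ContinuousLinearMap.coe_coe, smul_eq_mul]
      ring)

theorem cmm_apply (x u : E₁) (v : E₂) :
    cmm KK Γ q x u v = -KK q (fderiv ℝ Γ q (x, 0) u) v := rfl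

/-- The second order off-diagonal term, as a bilinear form. -/
def cnb (KK : E₁ × E₂ → E₂ →L[ℝ] E₂ →L[ℝ] ℝ)
    (Γ : E₁ × E₂ → E₁ →L[ℝ] E₂) (q x x' : E₁ × E₂) :
    E₁ →ₗ[ℝ] E₂ →ₗ[ℝ] ℝ :=
  LinearMap.mk₂ ℝ (fun u v => -(KK q (fderiv ℝ (fderiv ℝ Γ) q x x' u) v +
      fderiv ℝ KK q x (fderiv ℝ Γ q x' u) v + fderiv ℝ KK q x' (fderiv ℝ Γ q x u) v))
    (fun u u' v => by
      simp only [map_add, _root_.add_apply]
      ring)
    (fun c u v => by
      simp only [map_smul, _root_.smul_apply, smul_eq_mul]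
      ring)
    (fun u v v' => by
      simp only [map_add]
      ring)
    (fun c u v => by
      simp only [map_smul, smul_eq_mul]
      ring)

theorem cnb_apply (x x' : E₁ × E₂) (u : E₁) (v : E₂) : cnb KK Γ q x x' u v =
    -(KK q (fderiv ℝ (fderiv ℝ Γ) q x x' u) v +
      fderiv ℝ KK q x (fderiv ℝ Γ q x' u) v +
      fderiv ℝ KK q x' (fderiv ℝ Γ q x u) v) := rfl

/-- The second order off-diagonal term. -/
def cnn (KK : E₁ × E₂ → E₂ →L[ℝ] E₂ →L[ℝ] ℝ)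
    (Γ : E₁ × E₂ → E₁ →L[ℝ] E₂) (q : E₁ × E₂) :
    (E₁ × E₂) →ₗ[ℝ] (E₁ × E₂) →ₗ[ℝ] E₁ →ₗ[ℝ] E₂ →ₗ[ℝ] ℝ :=
  LinearMap.mk₂ ℝ (fun x x' => cnb KK Γ q x x')
    (fun x y x' => by
      refine LinearMap.ext fun u => LinearMap.ext fun v => ?_
      simp only [LinearMap.add_apply, cnb_apply, map_add, _root_.add_apply]
      ring)
    (fun c x x' => by
      refine LinearMap.ext fun u => LinearMap.ext fun v => ?_
      simp only [LinearMap.smul_apply, cnb_apply, map_smul, _root_.smul_apply, smul_eq_mul]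
      ring)
    (fun x x' y => by
      refine LinearMap.ext fun u => LinearMap.ext fun v => ?_
      simp only [LinearMap.add_apply, cnb_apply, map_add, _root_.add_apply]
      ring)
    (fun c x x' => by
      refine LinearMap.ext fun u => LinearMap.ext fun v => ?_
      simp only [LinearMap.smul_apply, cnb_apply, map_smul, _root_.smul_apply, smul_eq_mul]
      ring)

theorem cnn_apply (x x' : E₁ × E₂) (u : E₁) (v : E₂) : cnn KK Γ q x x' u v =
    -(KK q (fderiv ℝ (fderiv ℝ Γ) q x x' u) v +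
      fderiv ℝ KK q x (fderiv ℝ Γ q x' u) v +
      fderiv ℝ KK q x' (fderiv ℝ Γ q x u) v) := rfl

open Pool.Agent.Lib.MP_df705a_gt.Circ in
theorem scal_eq (hHL : ContDiffAt ℝ ∞ HH q) (hKL : ContDiffAt ℝ ∞ KK q)
    (hΓ : ContDiffAt ℝ ∞ Γ q) (hsH : ∀ᶠ p in 𝓝 q, ∀ v w, HH p v w = HH p w v)
    (hsK : ∀ᶠ p in 𝓝 q, ∀ v w, KK p v w = KK p w v)
    (nH : Nondeg (finBasis ℝ E₁) (toL2 (HH q))) (nK : Nondeg (finBasis ℝ E₂) (toL2 (KK q)))
    (hHp : (gram (finBasis ℝ E₁) (toL2 (HH q))).PosDef)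
    (hKp : (gram (finBasis ℝ E₂) (toL2 (KK q))).PosDef) (hN : Fib.NF Γ q) :
    Curv.scal (gC HH KK Γ) q = Curv.scal (gC HH KK 0) q +
      2 * tr (finBasis ℝ E₁) (toL2 (HH q)) (fun x u => tr (finBasis ℝ E₂) (toL2 (KK q))
        fun y v => cnn KK Γ q (x, 0) (0, y) u v) -
      tr (finBasis ℝ E₁) (toL2 (HH q)) (fun x x' => tr (finBasis ℝ E₁) (toL2 (HH q))
        fun u u' => cop (finBasis ℝ E₂) (toL2 (KK q)) (cmm KK Γ q x u) (cmm KK Γ q x' u')) := by
  have h0Γ : ContDiffAt ℝ ∞ (0 : E₁ × E₂ → E₁ →L[ℝ] E₂) q := contDiffAt_const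
  have f0 : ∀ x, fderiv ℝ (0 : E₁ × E₂ → E₁ →L[ℝ] E₂) q x = 0 := fun x => by simp
  have f00 : ∀ x x', fderiv ℝ (fderiv ℝ (0 : E₁ × E₂ → E₁ →L[ℝ] E₂)) q x x' = 0 :=
    fun x x' => by
    have : fderiv ℝ (0 : E₁ × E₂ → E₁ →L[ℝ] E₂) = 0 := by
      ext1 y
      simp
    rw [this]
    simp
  have hx : ∀ x : E₁ × E₂, fderiv ℝ Γ q x = fderiv ℝ Γ q (x.1, 0) := by
    intro x
    have h1 : x = (x.1, 0) + ((0 : E₁), x.2) := by
      ext <;> simp
    conv_lhs => rw [h1, map_add, hN.dy, add_zero]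
  have hfB : fB (gC HH KK Γ) q = fB (gC HH KK 0) q := by
    refine LinearMap.ext fun v => LinearMap.ext fun w => ?_
    rw [cg_form hN.zero, cg_form rfl]
  have hcop : ∀ x u x' u' : E₁, cop (finBasis ℝ E₂) (toL2 (KK q)) (cmm KK Γ q x u)
      (cmm KK Γ q x' u') = KK q (fderiv ℝ Γ q (x, 0) u) (fderiv ℝ Γ q (x', 0) u') := by
    intro x u x' u'
    have h1 : (cmm KK Γ q x u : E₂ → ℝ) =
        (toL2 (KK q) (-(fderiv ℝ Γ q (x, 0) u)) : E₂ → ℝ) := by
      funext v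
      rw [cmm_apply, toL2_apply, map_neg, _root_.neg_apply]
    rw [h1, cop_form nK, cmm_apply, map_neg, neg_neg]
    exact hsK.self_of_nhds _ _
  have T : Off (finBasis ℝ E₁) (finBasis ℝ E₂) (toL2 (HH q)) (toL2 (KK q))
      (fB (gC HH KK 0) q) (fD (gC HH KK 0) q)
      (fD (gC HH KK Γ) q)
      (fD2 (gC HH KK 0) q) (fD2 (gC HH KK Γ) q) (cmm KK Γ q)
      (cnn KK Γ q) :=
    { hH := nH
      hK := nK
      Hp := hHp
      Kp := hKp
      hg := fun u v => by rw [cg_form rfl, toL2_apply, toL2_apply]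
      d12 := fun u v w => by
        rw [cg_D hHL hKL h0Γ rfl, f0]
        simp
      d21 := fun u v w => by
        rw [cg_D hHL hKL h0Γ rfl, f0]
        simp
      d2_12 := fun u u' v w => by
        rw [cg_D2 hHL hKL h0Γ rfl, f0, f0, f00]
        simp
      d2_21 := fun u u' v w => by
        rw [cg_D2 hHL hKL h0Γ rfl, f0, f0, f00]
        simp
      sD := fun u v w => by
        rw [cg_D hHL hKL h0Γ rfl, cg_D hHL hKL h0Γ rfl, f0,
          D_symm hHL hsH, D_symm hKL hsK]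
        simp
      sD2 := fun u u' v w => by
        rw [cg_D2 hHL hKL h0Γ rfl, cg_D2 hHL hKL h0Γ rfl, f0, f0, f00,
          D2_symm hHL hsH, D2_symm hKL hsK]
        simp
      s2D2 := fun u u' v w => by
        rw [cg_D2 hHL hKL h0Γ rfl, cg_D2 hHL hKL h0Γ rfl, f0, f0, f00, f00,
          second_symm hHL, second_symm hKL]
        simp only [_root_.zero_apply, map_zero]
      anti := fun x u v => by
        rw [cmm_apply, cmm_apply, hN.anti x u, map_neg, _root_.neg_apply]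
      sn := fun x x' u v => by
        rw [cnn_apply, cnn_apply, second_symm hΓ x x']
        ring
      hD := fun x u v => by
        rw [cg_D hHL hKL h0Γ rfl, cg_D hHL hKL hΓ hN.zero, f0, cmm_apply, cmm_apply, hx x,
          hsK.self_of_nhds u.2]
        simp only [_root_.zero_apply, map_zero]
        ring
      hD2 := fun x x' u v => by
        rw [cg_D2 hHL hKL h0Γ rfl, cg_D2 hHL hKL hΓ hN.zero, f0, f0, f00, cnn_apply,
          cnn_apply, hcop, hcop, ← hx x, ← hx x', hsK.self_of_nhds u.2,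
          D_symm hKL hsK x u.2, D_symm hKL hsK x' u.2]
        simp only [_root_.zero_apply, map_zero]
        ring }
  -- the scalar curvatures in the product basis
  have nprod : Nondeg ((finBasis ℝ E₁).prod (finBasis ℝ E₂))
      (fB (gC HH KK 0) q) := nondeg_prod T.hH T.hK T.hg
  have nfin : Nondeg (finBasis ℝ (E₁ × E₂)) (fB (gC HH KK 0) q) := by
    refine ⟨nprod.symm, ?_⟩
    have h1 := (LinearMap.BilinForm.nondegenerate_iff_det_ne_zero
      (B := fB (gC HH KK 0) q) ((finBasis ℝ E₁).prod (finBasis ℝ E₂))).mpr ?_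
    · have h2 := (LinearMap.BilinForm.nondegenerate_iff_det_ne_zero
        (B := fB (gC HH KK 0) q) (finBasis ℝ (E₁ × E₂))).mp h1
      have h3 : gram (finBasis ℝ (E₁ × E₂)) (fB (gC HH KK 0) q) =
          LinearMap.BilinForm.toMatrix (finBasis ℝ (E₁ × E₂))
            (fB (gC HH KK 0) q) := by
        ext i j
        rw [LinearMap.BilinForm.toMatrix_apply]
        rfl
      rw [h3]
      exact isUnit_iff_ne_zero.mpr h2
    · have h3 : LinearMap.BilinForm.toMatrix ((finBasis ℝ E₁).prod (finBasis ℝ E₂))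
          (fB (gC HH KK 0) q) = gram ((finBasis ℝ E₁).prod (finBasis ℝ E₂))
            (fB (gC HH KK 0) q) := by
        ext i j
        rw [LinearMap.BilinForm.toMatrix_apply]
        rfl
      rw [h3]
      exact isUnit_iff_ne_zero.mp nprod.det
  rw [scal_link (cg_smooth hHL hKL hΓ), scal_link (cg_smooth hHL hKL h0Γ), hfB,
    scal_basis _ _ nfin nprod, scal_basis _ _ nfin nprod, T.scal_eq]

end CGOffAux

open CGOffAux Pool.Agent.Lib.MP_df705a_gt.Twist.Alg Pool.Agent.Lib.MP_df705a_gt.Fib.F1 in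
/-- The same formula as in `Fib.….scal_conn_le` (Fib/ConnScal.lean): copy that proof with `HL h α`
replaced by `fun p => fL (H p)` and `KL f β` by `fun p => ε ^ 2 • fL (f p)` (the lemmas of that file
before `scal_conn_le`, `conn_D`, `conn_D2`, `conn_form`, `mm`, `nn`, use only the smoothness of these
two maps; copy them too).  The structure `Off` then gives (`Off.scal_eq`, Circ/OffScal.lean)
`scal (Γ) = scal (0) + 2 tr_H tr_K n - tr_H tr_H cop_K (m, m)` with `K = ε² K₁`, `m = ε² m₁`,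
`n = ε² n₁` where `K₁, m₁, n₁` do not depend on `ε`; since `tr_K = ε⁻² tr_{K₁}` and
`cop_K = ε⁻² cop_{K₁}`, this is `scal (0) + b + c ε²` with `b = 2 tr_H tr_{K₁} n₁` and
`c = - tr_H tr_H cop_{K₁} (m₁, m₁)`. -/
theorem scal_off {H : E₁ × E₂ → Matrix (Fin (finrank ℝ E₁)) (Fin (finrank ℝ E₁)) ℝ}
    {f : E₁ × E₂ → Matrix (Fin (finrank ℝ E₂)) (Fin (finrank ℝ E₂)) ℝ}
    {Γ : E₁ × E₂ → E₁ →L[ℝ] E₂} {q : E₁ × E₂}
    (hH : ∀ i j, ContDiffAt ℝ ∞ (fun p => H p i j) q)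
    (hf : ∀ i j, ContDiffAt ℝ ∞ (fun p => f p i j) q) (hΓ : ContDiffAt ℝ ∞ Γ q)
    (hHp : ∀ᶠ p in 𝓝 q, (H p).PosDef) (hfp : ∀ᶠ p in 𝓝 q, (f p).PosDef) (hN : Fib.NF Γ q) :
    ∃ b c : ℝ, ∀ ε : ℝ, 0 < ε →
      Curv.scal (cG H f Γ ε) q = Curv.scal (cG H f 0 ε) q + b + c * ε ^ 2 := by
  classical
  have hHq := hHp.self_of_nhds
  have hfq := hfp.self_of_nhds
  have sH : ContDiffAt ℝ ∞ (fun p => fL (H p)) q := by
    unfold fL
    exact ContDiffAt.sum fun i _ => ContDiffAt.sum fun j _ => (hH i j).smul contDiffAt_const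
  have sf : ContDiffAt ℝ ∞ (fun p => fL (f p)) q := by
    unfold fL
    exact ContDiffAt.sum fun i _ => ContDiffAt.sum fun j _ => (hf i j).smul contDiffAt_const
  have nH : Nondeg (finBasis ℝ E₁) (toL2 (fL (H q))) := by
    have := nondeg_toL2 one_pos hHq
    rwa [one_smul] at this
  have n1 : Nondeg (finBasis ℝ E₂) (toL2 (fL (f q))) := by
    have := nondeg_toL2 one_pos hfq
    rwa [one_smul] at this
  have gH : (gram (finBasis ℝ E₁) (toL2 (fL (H q)))).PosDef := by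
    have := gram_toL2 (1 : ℝ) (H q)
    rw [one_smul, one_smul] at this
    rw [this]
    exact hHq
  have yH : ∀ᶠ p in 𝓝 q, ∀ v w, fL (H p) v w = fL (H p) w v := by
    filter_upwards [hHp] with p hp v w
    exact fL_symm hp v w
  have yf : ∀ᶠ p in 𝓝 q, ∀ v w, fL (f p) v w = fL (f p) w v := by
    filter_upwards [hfp] with p hp v w
    exact fL_symm hp v w
  refine ⟨2 * tr (finBasis ℝ E₁) (toL2 (fL (H q))) (fun x u => tr (finBasis ℝ E₂) (toL2 (fL (f q)))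
      fun y v => cnn (fun p => fL (f p)) Γ q (x, 0) (0, y) u v),
    -tr (finBasis ℝ E₁) (toL2 (fL (H q))) (fun x x' => tr (finBasis ℝ E₁) (toL2 (fL (H q)))
        fun u u' => cop (finBasis ℝ E₂) (toL2 (fL (f q))) (cmm (fun p => fL (f p)) Γ q x u)
          (cmm (fun p => fL (f p)) Γ q x' u')), ?_⟩
  intro ε hε
  have hε2 : 0 < ε ^ 2 := by positivity
  have hcG : ∀ Γ' : E₁ × E₂ → E₁ →L[ℝ] E₂, cG H f Γ' ε =
      gC (fun p => fL (H p)) (fun p => ε ^ 2 • fL (f p)) Γ' := by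
    intro Γ'
    funext p i j
    simp only [cG, gC, fL_apply, _root_.smul_apply, smul_eq_mul]
  have sK : ContDiffAt ℝ ∞ (fun p => ε ^ 2 • fL (f p)) q := sf.const_smul (ε ^ 2)
  have yK : ∀ᶠ p in 𝓝 q, ∀ v w, (ε ^ 2 • fL (f p)) v w = (ε ^ 2 • fL (f p)) w v := by
    filter_upwards [hfp] with p hp v w
    simp only [_root_.smul_apply]
    rw [fL_symm hp v w]
  have gK : (gram (finBasis ℝ E₂) (toL2 (ε ^ 2 • fL (f q)))).PosDef := by
    rw [gram_toL2]
    exact hfq.smul hε2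
  rw [hcG, hcG, scal_eq sH sK hΓ yH yK nH (nondeg_toL2 hε2 hfq) gH gK hN]
  have htr : ∀ T : E₂ → E₂ → ℝ, tr (finBasis ℝ E₂) (toL2 (ε ^ 2 • fL (f q))) T =
      (ε ^ 2)⁻¹ * tr (finBasis ℝ E₂) (toL2 (fL (f q))) T := fun T =>
    tr_smul hε2.ne' n1 (fun u v => by
      rw [toL2_apply, toL2_apply, _root_.smul_apply, _root_.smul_apply, smul_eq_mul]) T
  have hfd : fderiv ℝ (fun p => ε ^ 2 • fL (f p)) q = ε ^ 2 • fderiv ℝ (fun p => fL (f p)) q :=
    fderiv_fun_const_smul (ev_diff sf).self_of_nhds _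
  have hnn : ∀ x x' u v, cnn (fun p => ε ^ 2 • fL (f p)) Γ q x x' u v =
      ε ^ 2 * cnn (fun p => fL (f p)) Γ q x x' u v := by
    intro x x' u v
    rw [cnn_apply, cnn_apply, hfd]
    simp only [_root_.smul_apply, smul_eq_mul]
    ring
  have hmm : ∀ x u, (cmm (fun p => ε ^ 2 • fL (f p)) Γ q x u : E₂ → ℝ) =
      ε ^ 2 • (cmm (fun p => fL (f p)) Γ q x u : E₂ → ℝ) := by
    intro x u
    funext v
    rw [Pi.smul_apply, cmm_apply, cmm_apply]
    simp only [_root_.smul_apply, smul_eq_mul]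
    ring
  have e1 : tr (finBasis ℝ E₁) (toL2 (fL (H q))) (fun x u => tr (finBasis ℝ E₂)
      (toL2 (ε ^ 2 • fL (f q))) fun y v => cnn (fun p => ε ^ 2 • fL (f p)) Γ q (x, 0) (0, y) u v) =
      tr (finBasis ℝ E₁) (toL2 (fL (H q))) (fun x u => tr (finBasis ℝ E₂) (toL2 (fL (f q)))
      fun y v => cnn (fun p => fL (f p)) Γ q (x, 0) (0, y) u v) := by
    refine tr_congr fun x u => ?_
    rw [htr, tr_congr (fun y v => hnn (x, 0) (0, y) u v), tr_const_mul, ← mul_assoc,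
      inv_mul_cancel₀ hε2.ne', one_mul]
  have e2 : tr (finBasis ℝ E₁) (toL2 (fL (H q))) (fun x x' => tr (finBasis ℝ E₁) (toL2 (fL (H q)))
        fun u u' => cop (finBasis ℝ E₂) (toL2 (ε ^ 2 • fL (f q)))
          (cmm (fun p => ε ^ 2 • fL (f p)) Γ q x u)
          (cmm (fun p => ε ^ 2 • fL (f p)) Γ q x' u')) =
      ε ^ 2 * tr (finBasis ℝ E₁) (toL2 (fL (H q))) (fun x x' => tr (finBasis ℝ E₁)
        (toL2 (fL (H q))) fun u u' => cop (finBasis ℝ E₂) (toL2 (fL (f q)))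
          (cmm (fun p => fL (f p)) Γ q x u) (cmm (fun p => fL (f p)) Γ q x' u')) := by
    rw [← tr_const_mul]
    refine tr_congr fun x x' => ?_
    rw [← tr_const_mul]
    refine tr_congr fun u u' => ?_
    rw [hmm, hmm]
    have e3 : ∀ ξ η : E₂ → ℝ, cop (finBasis ℝ E₂) (toL2 (ε ^ 2 • fL (f q))) ξ η =
        (ε ^ 2)⁻¹ * cop (finBasis ℝ E₂) (toL2 (fL (f q))) ξ η := fun ξ η => htr _
    rw [e3, cop_smul_left, cop_smul_right, ← mul_assoc, inv_mul_cancel₀ hε2.ne', one_mul]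
  rw [e1, e2]
  ring

end Pool.Agent.Lib.MP_df705a_gt.Coll.Y
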