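import Pool.Agent.Lib.MP_df705a_gt.Coll.IX
import Pool.Agent.Lib.MP_df705a_gt.Coll.Y.Bic
import Pool.Agent.Lib.MP_df705a_gt.Coll.Y.CGOff
import Pool.Agent.Lib.MP_df705a_gt.Coll.Y.CGBlk
import Pool.Agent.Lib.MP_df705a_gt.Coll.Y.Nf

/-!
# Module Y: the scalar curvature of the canonical variation
-/

open scoped Manifold ContDiff Topology
open Set Bundle Module Filter MeasureTheory

noncomputable section

namespace Pool.Agent.Lib.MP_df705a_gt.Coll.Y

open Pool.Agent.Lib.MP_df705a_gt.Twist Pool.Agent.Lib.MP_df705a_gt.Perm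
open Pool.Agent.Lib.MP_df705a_gt.Sub (mB)
open Pool.Agent.Lib.MP_df705a_gt.Circ (Horizontal Submersion cf Para HorConf)
open Pool.Agent.Lib.MP_df705a_gt.Fib (RiemSub Biconformal gσ fm gam normT)

variable {E₁ : Type*} [NormedAddCommGroup E₁] [NormedSpace ℝ E₁] [FiniteDimensional ℝ E₁]
  {B : Type*} [TopologicalSpace B] [ChartedSpace E₁ B] [IsManifold 𝓘(ℝ, E₁) ∞ B]
  {E₂ : Type*} [NormedAddCommGroup E₂] [NormedSpace ℝ E₂] [FiniteDimensional ℝ E₂]
  {F : Type*} [TopologicalSpace F] [ChartedSpace E₂ F] [IsManifold 𝓘(ℝ, E₂) ∞ F]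
  {E : Type*} [NormedAddCommGroup E] [NormedSpace ℝ E] [FiniteDimensional ℝ E]
  {M : Type*} [TopologicalSpace M] [ChartedSpace E M] [IsManifold 𝓘(ℝ, E) ∞ M]

namespace SvAux

theorem scal_congr {V : Type*} [NormedAddCommGroup V] [NormedSpace ℝ V] [FiniteDimensional ℝ V]
    {h h' : Curv.Coeff V} {x : V} (hh : h =ᶠ[𝓝 x] h') : Curv.scal h x = Curv.scal h' x := by
  unfold Curv.scal
  rw [hh.self_of_nhds]
  simp only [riem_congr hh]

end SvAux

/-- `Circ.….scal_cf` (Circ/ParaInv.lean): `Scal g' (σ q) = Curv.scal (cf g' σ) q`, and `cf g' σ` is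
`cG (hm g σ) (fm g σ) (gam g σ) ε` near `q` by `cf_bic`; use `scal_off` and `scal_blk` (the smoothness
and positivity from Y/Hm; the hypothesis `hdet` of `scal_blk` holds because, by `hv` and `ac_ev`,
`(hm g σ p).det = (coeff gB z p.1).det` for `p` near `q`, a function of `p.1`).  `Curv.scal` only
depends on the germ of the coefficients. -/
theorem scal_nf {pr : M → B} (hpr : Submersion E E₁ pr) {g : Met E M} {gB : Met E₁ B}
    (hv : HorVol E₂ g gB pr) {σ : E₁ × E₂ → M} {q : E₁ × E₂} {z : B} (hA : Fib.AC E pr σ q z)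
    (hN : Fib.NF (gam g σ) q) : ∃ b c : ℝ, ∀ (ε : ℝ) (g' : Met E M), 0 < ε →
      Biconformal E₁ g g' pr (fun _ => 1) (fun _ => ε) →
        Scal g' (σ q) = Aval g σ q / ε ^ 2 + b + c * ε ^ 2 := by
  have hp : Para E σ q := hA.para.self_of_nhds
  have hHp : ∀ᶠ p in 𝓝 q, (hm g σ p).PosDef := hA.para.mono fun p hp => hm_posDef g hp
  have hfp : ∀ᶠ p in 𝓝 q, (fm g σ p).PosDef := hA.para.mono fun p hp => fm_posDef g hp
  have hdet : ∀ᶠ p in 𝓝 q, ∀ w : E₂, fderiv ℝ (fun p => (hm g σ p).det) p (0, w) = 0 := by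
    have h1 : ∀ᶠ p in 𝓝 q, (hm g σ p).det = (coeff gB z p.1).det :=
      (ac_ev hA).mono fun p hp => hv σ p z hp
    have h2 : ∀ᶠ p in 𝓝 q, (fun p => (hm g σ p).det) =ᶠ[𝓝 p]
        fun p : E₁ × E₂ => (coeff gB z p.1).det := h1.eventually_nhds
    filter_upwards [h2, hA.para.eventually_nhds] with p hp hpa w
    have hd : DifferentiableAt ℝ (fun p => (hm g σ p).det) p :=
      (contDiffAt_det (n := 1) fun i j =>
        (hm_smooth g hpa i j).of_le (by exact_mod_cast le_top)).differentiableAt (by norm_num)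
    -- the derivative along the fibre
    have h3 : HasDerivAt (fun t : ℝ => (hm g σ (p + t • ((0 : E₁), w))).det)
        (fderiv ℝ (fun p => (hm g σ p).det) p (0, w)) 0 := by
      have h4 : HasDerivAt (fun t : ℝ => p + t • ((0 : E₁), w)) ((0 : E₁), w) 0 := by
        simpa using ((hasDerivAt_id (0 : ℝ)).smul_const ((0 : E₁), w)).const_add p
      have h5 : HasFDerivAt (fun p => (hm g σ p).det)
          (fderiv ℝ (fun p => (hm g σ p).det) p) (p + (0 : ℝ) • ((0 : E₁), w)) := by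
        simpa using hd.hasFDerivAt
      exact h5.comp_hasDerivAt 0 h4
    have h6 : (fun t : ℝ => (hm g σ (p + t • ((0 : E₁), w))).det) =ᶠ[𝓝 0]
        fun _ => (coeff gB z p.1).det := by
      have h7 : Tendsto (fun t : ℝ => p + t • ((0 : E₁), w)) (𝓝 0) (𝓝 p) := by
        have : Continuous (fun t : ℝ => p + t • ((0 : E₁), w)) := by fun_prop
        simpa using this.tendsto 0
      filter_upwards [h7.eventually hp] with t ht
      rw [ht]
      simp
    have h8 := h6.deriv_eq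
    rw [h3.deriv, deriv_const] at h8
    exact h8
  obtain ⟨b₁, c, h1⟩ := scal_off (fun i j => hm_smooth g hA.para i j)
    (fun i j => fm_smooth g hA.para i j) (gam_smooth g hA.para) hHp hfp hN
  obtain ⟨b₂, h2⟩ := scal_blk (fun i j => hm_smooth g hA.para i j)
    (fun i j => fm_smooth g hA.para i j) hHp hfp hdet
  refine ⟨b₁ + b₂, c, fun ε g' hε hbi => ?_⟩
  rw [← Circ.scal_cf g' hp, SvAux.scal_congr (cf_bic hpr hbi hA), h1 ε hε, h2 ε hε]
  unfold Aval
  ring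

/-- Let `g₁ = g`, `g₂`, `g₃` be biconformal to `g` with the factors `(1, ε)`, `ε = 1, 2, 3`
(`bic_self`, `exists_biconf`), and define `A, b, c` as the linear combinations of `Scal g₁`,
`Scal g₂`, `Scal g₃` (smooth by `sm_scal`) which solve
`Scal g_i = A / i² + b + c i²`, `i = 1, 2, 3`.  At a point `p` take an adapted parametrization in
normal form (`Fib.….exists_AC`, `nf_norm`); `scal_nf` says that there are numbers `A₀, b₀, c₀` with
`Scal g' p = A₀ / ε² + b₀ + c₀ ε²` for all `ε, g'`, so `A p = A₀`, `b p = b₀`, `c p = c₀` (the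
linear system has a unique solution), and the value of `A₀` is the one in `scal_nf`. -/
theorem exists_sv (hd : finrank ℝ E = finrank ℝ E₁ + finrank ℝ E₂) {pr : M → B}
    (hpr : Submersion E E₁ pr) {g : Met E M} {gB : Met E₁ B} (hv : HorVol E₂ g gB pr) :
    ∃ A b c : M → ℝ, Sm E A ∧ Sm E b ∧ Sm E c ∧
      (∀ (ε : ℝ) (g' : Met E M), 0 < ε → Biconformal E₁ g g' pr (fun _ => 1) (fun _ => ε) →
        ∀ p, Scal g' p = A p / ε ^ 2 + b p + c p * ε ^ 2) ∧
      ∀ (σ : E₁ × E₂ → M) (q : E₁ × E₂) (z : B), Fib.AC E pr σ q z → Fib.NF (gam g σ) q →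
        A (σ q) = Aval g σ q := by
  obtain ⟨g₂, hg₂⟩ := exists_biconf hpr g (ε := 2) two_pos
  obtain ⟨g₃, hg₃⟩ := exists_biconf hpr g (ε := 3) three_pos
  have hg₁ : Biconformal E₁ g g pr (fun _ => 1) (fun _ => 1) := bic_self g pr
  have key : ∀ (σ : E₁ × E₂ → M) (q : E₁ × E₂) (z : B), Fib.AC E pr σ q z →
      Fib.NF (gam g σ) q → ∃ b c : ℝ, (∀ (ε : ℝ) (g' : Met E M), 0 < ε →
      Biconformal E₁ g g' pr (fun _ => 1) (fun _ => ε) →
        Scal g' (σ q) = Aval g σ q / ε ^ 2 + b + c * ε ^ 2) ∧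
      Aval g σ q = (3 / 2 : ℝ) * Scal g (σ q) + (-12 / 5) * Scal g₂ (σ q) +
        (9 / 10) * Scal g₃ (σ q) ∧
      b = (-13 / 24 : ℝ) * Scal g (σ q) + (8 / 3) * Scal g₂ (σ q) +
        (-9 / 8) * Scal g₃ (σ q) ∧
      c = (1 / 24 : ℝ) * Scal g (σ q) + (-4 / 15) * Scal g₂ (σ q) +
        (9 / 40) * Scal g₃ (σ q) := by
    intro σ q z hA hN
    obtain ⟨b, c, h⟩ := scal_nf hpr hv hA hN
    refine ⟨b, c, h, ?_⟩
    have h1 := h 1 g one_pos hg₁
    have h2 := h 2 g₂ two_pos hg₂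
    have h3 := h 3 g₃ three_pos hg₃
    refine ⟨?_, ?_, ?_⟩ <;> linarith
  refine ⟨fun p => (3 / 2 : ℝ) * Scal g p + (-12 / 5) * Scal g₂ p + (9 / 10) * Scal g₃ p,
    fun p => (-13 / 24 : ℝ) * Scal g p + (8 / 3) * Scal g₂ p + (-9 / 8) * Scal g₃ p,
    fun p => (1 / 24 : ℝ) * Scal g p + (-4 / 15) * Scal g₂ p + (9 / 40) * Scal g₃ p,
    ?_, ?_, ?_, ?_, ?_⟩
  · exact sm_add (sm_add (sm_smul (sm_scal g) _) (sm_smul (sm_scal g₂) _))
      (sm_smul (sm_scal g₃) _)
  · exact sm_add (sm_add (sm_smul (sm_scal g) _) (sm_smul (sm_scal g₂) _))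
      (sm_smul (sm_scal g₃) _)
  · exact sm_add (sm_add (sm_smul (sm_scal g) _) (sm_smul (sm_scal g₂) _))
      (sm_smul (sm_scal g₃) _)
  · intro ε g' hε hbi p
    obtain ⟨σ, q, hσ, hA⟩ := Fib.exists_AC hd hpr p
    obtain ⟨hA', hN⟩ := nf_norm g hA
    obtain ⟨b, c, h, ha, hb, hc⟩ := key _ q _ hA' hN
    have hq : (σ ∘ normT (gam g σ) q) q = p := by
      rw [Function.comp_apply, Fib.normT_self, hσ]
    have h1 := h ε g' hε hbi
    rw [ha, hb, hc, hq] at h1
    exact h1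
  · intro σ q z hA hN
    obtain ⟨b, c, h, ha, hb, hc⟩ := key σ q z hA hN
    exact ha.symm

end Pool.Agent.Lib.MP_df705a_gt.Coll.Y
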