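import Pool.Agent.Lib.MP_df705a_gt.Coll.IR
import Pool.Agent.Lib.MP_df705a_gt.Coll.Y.Barta

/-!
# Module Y: the limit of the inequalities of Barta
-/

open scoped Manifold ContDiff Topology
open Set Bundle Module Filter MeasureTheory

noncomputable section

namespace Pool.Agent.Lib.MP_df705a_gt.Coll.Y

open Pool.Agent.Lib.MP_df705a_gt.Twist Pool.Agent.Lib.MP_df705a_gt.Perm
open Pool.Agent.Lib.MP_df705a_gt.Sub (mB)
open Pool.Agent.Lib.MP_df705a_gt.Circ (Horizontal Submersion cf Para HorConf)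
open Pool.Agent.Lib.MP_df705a_gt.Fib (RiemSub Biconformal gσ fm gam normT)

variable {E₁ : Type*} [NormedAddCommGroup E₁] [NormedSpace ℝ E₁] [FiniteDimensional ℝ E₁]
  {B : Type*} [TopologicalSpace B] [ChartedSpace E₁ B] [IsManifold 𝓘(ℝ, E₁) ∞ B]
  {E₂ : Type*} [NormedAddCommGroup E₂] [NormedSpace ℝ E₂] [FiniteDimensional ℝ E₂]
  {F : Type*} [TopologicalSpace F] [ChartedSpace E₂ F] [IsManifold 𝓘(ℝ, E₂) ∞ F]
  {E : Type*} [NormedAddCommGroup E] [NormedSpace ℝ E] [FiniteDimensional ℝ E]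
  {M : Type*} [TopologicalSpace M] [ChartedSpace E M] [IsManifold 𝓘(ℝ, E) ∞ M]

namespace VFormAux

theorem nonneg_of_small {I₀ I₁ I₂ : ℝ}
    (h : ∀ ε₀ : ℝ, 0 < ε₀ → ∃ ε : ℝ, 0 < ε ∧ ε < ε₀ ∧ 0 ≤ I₀ + ε ^ 2 * I₁ + ε ^ 4 * I₂) :
    0 ≤ I₀ := by
  by_contra hI
  push Not at hI
  have hD : 0 < |I₁| + |I₂| + 1 := by positivity
  obtain ⟨ε, h0, h1, h2⟩ := h (min 1 (-I₀ / (|I₁| + |I₂| + 1)))
    (lt_min one_pos (div_pos (neg_pos.2 hI) hD))
  have h3 : ε < 1 := h1.trans_le (min_le_left _ _)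
  have h4 : ε * (|I₁| + |I₂| + 1) < -I₀ := by
    have := h1.trans_le (min_le_right _ _)
    rwa [lt_div_iff₀ hD] at this
  have h5 : ε ^ 2 ≤ ε := by
    rw [sq]
    exact mul_le_of_le_one_left h0.le h3.le
  have h6 : ε ^ 4 ≤ ε := by
    have : ε ^ 4 = ε ^ 2 * ε ^ 2 := by ring
    rw [this]
    have h7 : ε ^ 2 ≤ 1 := h5.trans h3.le
    calc ε ^ 2 * ε ^ 2 ≤ ε ^ 2 * 1 := mul_le_mul_of_nonneg_left h7 (sq_nonneg _)
      _ = ε ^ 2 := mul_one _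
      _ ≤ ε := h5
  have h7 : ε ^ 2 * I₁ ≤ ε * |I₁| := by
    calc ε ^ 2 * I₁ ≤ ε ^ 2 * |I₁| := mul_le_mul_of_nonneg_left (le_abs_self _) (sq_nonneg _)
      _ ≤ ε * |I₁| := mul_le_mul_of_nonneg_right h5 (abs_nonneg _)
  have h8 : ε ^ 4 * I₂ ≤ ε * |I₂| := by
    calc ε ^ 4 * I₂ ≤ ε ^ 4 * |I₂| := mul_le_mul_of_nonneg_left (le_abs_self _) (by positivity)
      _ ≤ ε * |I₂| := mul_le_mul_of_nonneg_right h6 (abs_nonneg _)
  linarith only [h2, h4, h7, h8, h0]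

end VFormAux

open VFormAux

/-- For `ε₀ > 0` take `ε < ε₀` and `g'` from `hseq`.  By `IsRVol.scale` with `c = ε ^ k` (`hdet`), the
measure `ENNReal.ofReal (ε ^ k) • μ` is the measure of `g'`; the integrals with respect to it are
`ε ^ k ∫ … ∂μ` (`integral_smul_measure`).  `barta` for `g'` and `φ` (the left hand side is `≥ 0`) and
the formulas `hS`, `hG` give, after division by `ε ^ k` and multiplication by `ε²`,
`0 ≤ I₀ + ε² I₁ + ε⁴ I₂` with `I₀ = ∫ (4(n-1) V + (n-2) A φ²)`,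
`I₁ = ∫ (4(n-1)(Grd g φ φ - V) + (n-2) b φ²)`, `I₂ = ∫ (n-2) c φ²` (all functions are continuous,
hence integrable by `integ`; `Circ.sm_grd`).  Since `ε` can be taken arbitrarily small, `0 ≤ I₀`. -/
theorem vform [MeasurableSpace E] [BorelSpace E] [MeasurableSpace M] [BorelSpace M]
    [CompactSpace M] [T2Space M] [Nonempty M] (hn : 3 ≤ finrank ℝ E) {pr : M → B} {g : Met E M}
    {μ : Measure M} (hμ : IsRVol g μ) {k : ℕ} {A b c φ V : M → ℝ} (hA : Continuous A)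
    (hb : Continuous b) (hc : Continuous c) (hφ : Sm E φ) (hV : Continuous V)
    (hdet : ∀ (ε : ℝ) (g' : Met E M), 0 < ε → Biconformal E₁ g g' pr (fun _ => 1) (fun _ => ε) →
      ∀ p, (cof g' p).det = (ε ^ k) ^ 2 * (cof g p).det)
    (hS : ∀ (ε : ℝ) (g' : Met E M), 0 < ε → Biconformal E₁ g g' pr (fun _ => 1) (fun _ => ε) →
      ∀ p, Scal g' p = A p / ε ^ 2 + b p + c p * ε ^ 2)
    (hG : ∀ (ε : ℝ) (g' : Met E M), 0 < ε → Biconformal E₁ g g' pr (fun _ => 1) (fun _ => ε) →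
      ∀ p, Grd g' φ φ p = Grd g φ φ p - V p + V p / ε ^ 2)
    (hseq : ∀ ε₀ : ℝ, 0 < ε₀ → ∃ (ε : ℝ) (g' : Met E M), 0 < ε ∧ ε < ε₀ ∧
      Biconformal E₁ g g' pr (fun _ => 1) (fun _ => ε) ∧ ConfPSC g') :
    0 ≤ ∫ p, (4 * ((finrank ℝ E : ℝ) - 1) * V p +
      ((finrank ℝ E : ℝ) - 2) * (A p * φ p ^ 2)) ∂μ := by
  set n : ℝ := (finrank ℝ E : ℝ) with hn'
  have cφ := hφ.continuous
  have cG := (Circ.sm_grd g hφ hφ).continuous
  refine nonneg_of_small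
    (I₁ := ∫ p, (4 * (n - 1) * (Grd g φ φ p - V p) + (n - 2) * (b p * φ p ^ 2)) ∂μ)
    (I₂ := ∫ p, (n - 2) * (c p * φ p ^ 2) ∂μ) ?_
  intro ε₀ hε₀
  obtain ⟨ε, g', h0, h1, hbi, hconf⟩ := hseq ε₀ hε₀
  refine ⟨ε, h0, h1, ?_⟩
  have hεk : 0 < ε ^ k := pow_pos h0 k
  have hμ' : IsRVol g' (ENNReal.ofReal (ε ^ k) • μ) := hμ.scale hεk (hdet ε g' h0 hbi)
  obtain ⟨δ, hδ, hbar⟩ := barta hn hμ' hconf
  have h2 := hbar φ hφ
  have h3 : 0 ≤ δ * ∫ p, φ p ^ 2 ∂(ENNReal.ofReal (ε ^ k) • μ) :=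
    mul_nonneg hδ.le (integral_nonneg fun p => sq_nonneg _)
  have h4 := h3.trans h2
  rw [integral_smul_measure, ENNReal.toReal_ofReal hεk.le, smul_eq_mul] at h4
  have h5 : 0 ≤ ∫ p, (4 * (n - 1) * Grd g' φ φ p + (n - 2) * Scal g' p * φ p ^ 2) ∂μ :=
    nonneg_of_mul_nonneg_right h4 hεk
  have i0 : Integrable (fun p => 4 * (n - 1) * V p + (n - 2) * (A p * φ p ^ 2)) μ :=
    integ hμ ((continuous_const.mul hV).add (continuous_const.mul (hA.mul (cφ.pow 2))))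
  have i1 : Integrable (fun p => ε ^ 2 * (4 * (n - 1) * (Grd g φ φ p - V p) +
      (n - 2) * (b p * φ p ^ 2))) μ :=
    integ hμ (continuous_const.mul ((continuous_const.mul (cG.sub hV)).add
      (continuous_const.mul (hb.mul (cφ.pow 2)))))
  have i2 : Integrable (fun p => ε ^ 4 * ((n - 2) * (c p * φ p ^ 2))) μ :=
    integ hμ (continuous_const.mul (continuous_const.mul (hc.mul (cφ.pow 2))))
  have i01 : Integrable (fun p => (4 * (n - 1) * V p + (n - 2) * (A p * φ p ^ 2)) +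
      ε ^ 2 * (4 * (n - 1) * (Grd g φ φ p - V p) + (n - 2) * (b p * φ p ^ 2))) μ := i0.add i1
  rw [← integral_const_mul, ← integral_const_mul, ← integral_add i0 i1, ← integral_add i01 i2]
  have h6 : 0 ≤ ε ^ 2 * ∫ p, (4 * (n - 1) * Grd g' φ φ p +
      (n - 2) * Scal g' p * φ p ^ 2) ∂μ := mul_nonneg (sq_nonneg _) h5
  rw [← integral_const_mul] at h6
  refine h6.trans (le_of_eq (integral_congr_ae (Eventually.of_forall fun p => ?_)))
  simp only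
  rw [hS ε g' h0 hbi p, hG ε g' h0 hbi p]
  field_simp
  ring

end Pool.Agent.Lib.MP_df705a_gt.Coll.Y
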