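import Pool.Agent.Lib.MP_df705a_gt.Coll.IX
import Pool.Agent.Lib.MP_df705a_gt.Coll.Y.VForm
import Pool.Agent.Lib.MP_df705a_gt.Coll.Y.Ext
import Pool.Agent.Lib.MP_df705a_gt.Coll.Y.Gv
import Pool.Agent.Lib.MP_df705a_gt.Coll.Y.Sv
import Pool.Agent.Lib.MP_df705a_gt.Coll.Y.AvFib
import Pool.Agent.Lib.MP_df705a_gt.Coll.Y.QAlg

/-!
# Module Y: the limit form
-/

open scoped Manifold ContDiff Topology
open Set Bundle Module Filter MeasureTheory

noncomputable section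

namespace Pool.Agent.Lib.MP_df705a_gt.Coll.Y

open Pool.Agent.Lib.MP_df705a_gt.Twist Pool.Agent.Lib.MP_df705a_gt.Perm
open Pool.Agent.Lib.MP_df705a_gt.Sub (mB)
open Pool.Agent.Lib.MP_df705a_gt.Circ (Horizontal Submersion cf Para HorConf)
open Pool.Agent.Lib.MP_df705a_gt.Fib (RiemSub Biconformal gσ fm gam normT)

variable {E₁ : Type*} [NormedAddCommGroup E₁] [NormedSpace ℝ E₁] [FiniteDimensional ℝ E₁]
  {B : Type*} [TopologicalSpace B] [ChartedSpace E₁ B] [IsManifold 𝓘(ℝ, E₁) ∞ B]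
  {E₂ : Type*} [NormedAddCommGroup E₂] [NormedSpace ℝ E₂] [FiniteDimensional ℝ E₂]
  {F : Type*} [TopologicalSpace F] [ChartedSpace E₂ F] [IsManifold 𝓘(ℝ, E₂) ∞ F]
  {E : Type*} [NormedAddCommGroup E] [NormedSpace ℝ E] [FiniteDimensional ℝ E]
  {M : Type*} [TopologicalSpace M] [ChartedSpace E M] [IsManifold 𝓘(ℝ, E) ∞ M]

/-- If `I K x < 0` then `I K < 0` on a neighbourhood of `x` (`hI.sm K` is smooth, hence continuous); with the
bump function `χ` of `exists_bump` the function `- χ² I K` is continuous, nonnegative and positive at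
`x`, so `∫ χ² I K < 0` (`IsRVol.pos`), but `∫ χ² I K = ∫ χ (pr p)² K p ∂μM ≥ 0` by `hI.fub`. -/
theorem fib_nonneg [MeasurableSpace E₁] [BorelSpace E₁] [MeasurableSpace E₂] [BorelSpace E₂]
    [MeasurableSpace B] [BorelSpace B] [MeasurableSpace F] [BorelSpace F] [MeasurableSpace M]
    [CompactSpace B] [T2Space B] {pr : M → B} {g : Met E M} {gB : Met E₁ B}
    {μM : Measure M} {μB : Measure B} (hB : IsRVol gB μB) {I : (M → ℝ) → B → ℝ}
    (hI : FibInt E₁ E₂ F g pr μM μB I) {K : M → ℝ} (hK : Sm E K)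
    (h0 : ∀ χ : B → ℝ, Sm E₁ χ → 0 ≤ ∫ p, χ (pr p) ^ 2 * K p ∂μM) (x : B) : 0 ≤ I K x := by
  by_contra hneg
  push Not at hneg
  have hc : Continuous (I K) := (hI.sm K hK).continuous
  have hs : {z : B | I K z < 0} ∈ 𝓝 x := (isOpen_lt hc continuous_const).mem_nhds hneg
  obtain ⟨χ, hχ, hχ1, hχ0⟩ := exists_bump (E₁ := E₁) hs
  have hχc : Continuous χ := hχ.continuous
  have h1 : 0 < ∫ z, -(χ z ^ 2 * I K z) ∂μB := by
    refine hB.pos (((hχc.pow 2).mul hc).neg) (fun z => ?_) (p := x) ?_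
    · by_cases hz : I K z < 0
      · have := sq_nonneg (χ z)
        nlinarith
      · rw [hχ0 z hz]
        simp
    · rw [hχ1]
      linarith
  rw [integral_neg] at h1
  have h2 := hI.fub (fun z => χ z ^ 2) K (hχc.pow 2) hK
  have h3 := h0 χ hχ
  linarith

/-- The collapse of a metric whose horizontal volume form comes from the base.

Proof.  Introduce the Borel structures on `E₁`, `B`, `E`, `M` (`borel`), measures `μM` of `g` and `μB` of
`gB` (`exists_rvol`) and `I` (`exists_fibInt hd hpr hv hM hB`).  Take `A, b, c` from `exists_sv`.  Let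
`q y = qd (hm g σ q₀) (fm g σ q₀) (dHv (hm g σ) q₀)`, `σ = psi Φ x y`, `q₀ = pt x y x y`.  By
`nf_norm` (with `ac_psi`), `exists_sv` and `aval_fib`, `A (Φ (x, y)) = Scal h y - q y` (the
parametrization `σ ∘ normT …` maps `q₀` to `Φ (x, y)`: `normT_self`, and `psi Φ x y (pt x y x y) =
Φ (x, y)`), so `q` is continuous: `Scal h` (`sm_scal`) and `y ↦ A (Φ (x, y))` are
(`y ↦ Φ (x, y)` is continuous because `U × F` is open and `Φ` is smooth on it).  `q ≥ 0` by
`qd_nonneg` (`hm_posDef`, `fm_posDef`), and `q y = 0` implies `dHv (hm g σ) q₀ i = 0` for all `i`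
(`qd_zero`), so the derivatives in the directions `(0, e_i)` and, by linearity, `(0, w)` vanish.

The form: let `v` be smooth on `F`, `φ` from `exists_ext hpr.1.1 hΦ hx hv`, `V` from `exists_gv` for
`φ`, and `K p = 4(n-1) V p + (n-2) (A p * φ p ^ 2)`, smooth.  For a smooth `χ : B → ℝ`,
let `W` be the function of `exists_gv` for `χ (pr p) * φ p` (smooth); `gv_mul`:
`W p = χ (pr p)² V p`; `vform` (with `det_bic hd hpr.1`, `exists_sv`, `exists_gv`) gives
`0 ≤ ∫ χ (pr p)² K p ∂μM`.  So `0 ≤ I K x` by `fib_nonneg`, and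
`I K x = ∫ K (Φ (x, y)) ∂ν` by `hI : FibInt`, `hI.loc U Φ hΦ x hx h ν hh hν K`; finally
`K (Φ (x, y)) = 4(n-1) Grd h v v y + (n-2) (Scal h y - q y) v y ^ 2` by `gv_fib` and
`φ (Φ (x, y)) = v y`. -/
theorem limit_form [MeasurableSpace E₂] [BorelSpace E₂] [MeasurableSpace F] [BorelSpace F]
    [CompactSpace M] [T2Space M] [CompactSpace B] [T2Space B] [CompactSpace F] [T2Space F]
    [Nonempty M] (hd : finrank ℝ E = finrank ℝ E₁ + finrank ℝ E₂) (hn : 3 ≤ finrank ℝ E)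
    (hd₁ : 0 < finrank ℝ E₁) (hd₂ : 0 < finrank ℝ E₂)
    {pr : M → B} (hpr : IsFibreBundle E E₁ E₂ F pr) {g : Met E M} {gB : Met E₁ B}
    (hv : HorVol E₂ g gB pr)
    (hseq : ∀ ε₀ : ℝ, 0 < ε₀ → ∃ (ε : ℝ) (g' : Met E M), 0 < ε ∧ ε < ε₀ ∧
      Biconformal E₁ g g' pr (fun _ => 1) (fun _ => ε) ∧ ConfPSC g')
    {U : Set B} {Φ : B × F → M} (hΦ : Triv E E₁ E₂ pr U Φ) {x : B} (hx : x ∈ U)
    {h : Met E₂ F} (hh : IsFib g Φ x h) {ν : Measure F} (hν : IsRVol h ν) :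
    ∃ q : F → ℝ, Continuous q ∧ (∀ y, 0 ≤ q y) ∧
      (∀ v : F → ℝ, Sm E₂ v → 0 ≤ ∫ y, (((finrank ℝ E : ℝ) - 2) * (Scal h y - q y) * v y ^ 2 +
        4 * ((finrank ℝ E : ℝ) - 1) * Grd h v v y) ∂ν) ∧
      ∀ y, q y = 0 → ∀ (w : E₂) i j, fderiv ℝ (fun p => hm g (psi E₁ E₂ Φ x y) p i j)
        (pt E₁ E₂ x y x y) (0, w) = 0 := by
  let _ : MeasurableSpace E₁ := borel E₁
  have _ : BorelSpace E₁ := ⟨rfl⟩
  let _ : MeasurableSpace E := borel E
  have _ : BorelSpace E := ⟨rfl⟩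
  let _ : MeasurableSpace B := borel B
  have _ : BorelSpace B := ⟨rfl⟩
  let _ : MeasurableSpace M := borel M
  have _ : BorelSpace M := ⟨rfl⟩
  obtain ⟨μM, hM⟩ := exists_rvol g
  obtain ⟨μB, hB⟩ := exists_rvol gB
  obtain ⟨I, hI⟩ := exists_fibInt hd hpr hv hM hB
  obtain ⟨A, b, c, hA, hb, hc, hS, hAv⟩ := exists_sv hd hpr.1 hv
  have hself : ∀ y : F, psi E₁ E₂ Φ x y (pt E₁ E₂ x y x y) = Φ (x, y) := by
    intro y
    unfold psi pt
    simp only [extChartAt_to_inv]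
  have hAC := fun y : F => ac_psi hΦ hx y
  have hAq : ∀ y, A (Φ (x, y)) = Scal h y - qd (hm g (psi E₁ E₂ Φ x y) (pt E₁ E₂ x y x y))
        (fm g (psi E₁ E₂ Φ x y) (pt E₁ E₂ x y x y))
        (dHv (hm g (psi E₁ E₂ Φ x y)) (pt E₁ E₂ x y x y)) := by
    intro y
    obtain ⟨h1, h2⟩ := nf_norm g (hAC y)
    have h3 := hAv _ _ _ h1 h2
    rw [Function.comp_apply, Fib.normT_self, hself] at h3
    rw [h3, aval_fib hpr.1 hΦ hx hh y]
  have hΦc : Continuous fun y : F => Φ (x, y) :=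
    hΦ.smooth.continuousOn.comp_continuous (continuous_const.prodMk continuous_id)
      fun y => ⟨hx, mem_univ _⟩
  have hqd : ∀ y, Scal h y - A (Φ (x, y)) =
      qd (hm g (psi E₁ E₂ Φ x y) (pt E₁ E₂ x y x y)) (fm g (psi E₁ E₂ Φ x y) (pt E₁ E₂ x y x y))
        (dHv (hm g (psi E₁ E₂ Φ x y)) (pt E₁ E₂ x y x y)) := by
    intro y
    rw [hAq y]
    ring
  refine ⟨fun y => Scal h y - A (Φ (x, y)), (sm_scal h).continuous.sub
    (hA.continuous.comp hΦc), fun y => ?_, fun v hv' => ?_, fun y hy w i j => ?_⟩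
  · simp only
    rw [hqd y]
    exact qd_nonneg (hm_posDef g (hAC y).para.self_of_nhds)
      (fm_posDef g (hAC y).para.self_of_nhds) _
  · obtain ⟨φ, hφ, hφv⟩ := exists_ext hpr.1.1 hΦ hx hv'
    obtain ⟨V, hV, hVg, -⟩ := exists_gv hd hpr.1 g hφ
    have hφ2 : Sm E (fun p => φ p ^ 2) := by
      have h1 := sm_mul hφ hφ
      have h2 : (fun p => φ p ^ 2) = fun p => φ p * φ p := by
        funext p
        ring
      rw [h2]
      exact h1
    set n : ℝ := (finrank ℝ E : ℝ) with hn'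
    have hK : Sm E (fun p => 4 * (n - 1) * V p + (n - 2) * (A p * φ p ^ 2)) :=
      sm_add (sm_smul hV _) (sm_smul (sm_mul hA hφ2) _)
    have h0 : ∀ χ : B → ℝ, Sm E₁ χ →
        0 ≤ ∫ p, χ (pr p) ^ 2 * (4 * (n - 1) * V p + (n - 2) * (A p * φ p ^ 2)) ∂μM := by
      intro χ hχ
      have hχφ : Sm E (fun p => χ (pr p) * φ p) := sm_mul (Circ.sm_comp_pr hpr.1.1 hχ) hφ
      obtain ⟨W, hW, hWg, hWG⟩ := exists_gv hd hpr.1 g hχφ
      have h1 := vform hn hM (k := finrank ℝ E₂) hA.continuous hb.continuous hc.continuous hχφ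
        hW.continuous (fun ε g' _ hbi p => det_bic hd hpr.1 hbi p) hS hWG hseq
      refine h1.trans (le_of_eq (integral_congr_ae (Eventually.of_forall fun p => ?_)))
      simp only
      rw [gv_mul hd hpr.1 hφ hχ hVg hWg p]
      ring
    have h1 := fib_nonneg hB hI hK h0 x
    rw [hI.loc U Φ hΦ x hx h ν hh hν _ hK] at h1
    refine h1.trans (le_of_eq (integral_congr_ae (Eventually.of_forall fun y => ?_)))
    simp only
    have h2 := gv_fib hΦ hx hh hφ hVg y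
    have h3 : (fun y => φ (Φ (x, y))) = v := funext hφv
    rw [h3] at h2
    rw [h2, hφv y]
    ring
  · simp only at hy
    rw [hqd y] at hy
    have h1 := qd_zero (hm_posDef g (hAC y).para.self_of_nhds)
      (fm_posDef g (hAC y).para.self_of_nhds) hy
    have h2 : ((fderiv ℝ (fun p => hm g (psi E₁ E₂ Φ x y) p i j) (pt E₁ E₂ x y x y)).comp
        (ContinuousLinearMap.inr ℝ E₁ E₂) : E₂ →ₗ[ℝ] ℝ) = 0 := by
      refine (finBasis ℝ E₂).ext fun k => ?_
      have h3 := congrFun (congrFun (h1 k) i) j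
      exact h3
    exact LinearMap.congr_fun h2 w

end Pool.Agent.Lib.MP_df705a_gt.Coll.Y
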