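import Pool.Agent.Lib.MP_df705a_gt.Coll.Y.HmConst

/-!
# Module Y: the horizontal metric comes from the base
-/

open scoped Manifold ContDiff Topology
open Set Bundle Module Filter MeasureTheory

noncomputable section

namespace Pool.Agent.Lib.MP_df705a_gt.Coll.Y

open Pool.Agent.Lib.MP_df705a_gt.Twist Pool.Agent.Lib.MP_df705a_gt.Perm
open Pool.Agent.Lib.MP_df705a_gt.Sub (mB)
open Pool.Agent.Lib.MP_df705a_gt.Circ (Horizontal Submersion cf Para HorConf)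
open Pool.Agent.Lib.MP_df705a_gt.Fib (RiemSub Biconformal gσ fm gam normT)

variable {E₁ : Type*} [NormedAddCommGroup E₁] [NormedSpace ℝ E₁] [FiniteDimensional ℝ E₁]
  {B : Type*} [TopologicalSpace B] [ChartedSpace E₁ B] [IsManifold 𝓘(ℝ, E₁) ∞ B]
  {E₂ : Type*} [NormedAddCommGroup E₂] [NormedSpace ℝ E₂] [FiniteDimensional ℝ E₂]
  {F : Type*} [TopologicalSpace F] [ChartedSpace E₂ F] [IsManifold 𝓘(ℝ, E₂) ∞ F]
  {E : Type*} [NormedAddCommGroup E] [NormedSpace ℝ E] [FiniteDimensional ℝ E]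
  {M : Type*} [TopologicalSpace M] [ChartedSpace E M] [IsManifold 𝓘(ℝ, E) ∞ M]

namespace RiemSubAux

/-- The bilinear form `mB` as a continuous bilinear map. -/
def mbl (A : Matrix (Fin (finrank ℝ E₁)) (Fin (finrank ℝ E₁)) ℝ) : E₁ →L[ℝ] E₁ →L[ℝ] ℝ :=
  ∑ i, ∑ j, A i j • ((LinearMap.toContinuousLinearMap ((finBasis ℝ E₁).coord i)).smulRight
    (LinearMap.toContinuousLinearMap ((finBasis ℝ E₁).coord j)))

theorem mbl_apply (A : Matrix (Fin (finrank ℝ E₁)) (Fin (finrank ℝ E₁)) ℝ) (u v : E₁) :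
    mbl A u v = mB A u v := by
  unfold mbl mB
  simp only [_root_.sum_apply, _root_.smul_apply, ContinuousLinearMap.smulRight_apply,
    LinearMap.coe_toContinuousLinearMap', Basis.coord_apply, smul_eq_mul]

theorem mB_symm {A : Matrix (Fin (finrank ℝ E₁)) (Fin (finrank ℝ E₁)) ℝ} (hA : A.PosDef)
    (u v : E₁) : mB A u v = mB A v u := by
  unfold mB
  rw [Finset.sum_comm]
  refine Finset.sum_congr rfl fun i _ => Finset.sum_congr rfl fun j _ => ?_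
  have h1 : A j i = A i j := by
    have := hA.1.apply i j
    simpa using this
  rw [h1]
  ring

theorem mB_pos {A : Matrix (Fin (finrank ℝ E₁)) (Fin (finrank ℝ E₁)) ℝ} (hA : A.PosDef)
    {u : E₁} (hu : u ≠ 0) : 0 < mB A u u := by
  have h1 : (fun i => (finBasis ℝ E₁).repr u i) ≠ 0 := by
    intro h
    apply hu
    have h2 : (finBasis ℝ E₁).repr u = 0 := by
      ext i
      exact congrFun h i
    simpa using h2
  have h3 := hA.dotProduct_mulVec_pos h1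
  have h4 : Star.star (fun i => (finBasis ℝ E₁).repr u i) ⬝ᵥ
      Matrix.mulVec A (fun i => (finBasis ℝ E₁).repr u i) = mB A u u := by
    unfold mB dotProduct Matrix.mulVec dotProduct
    refine Finset.sum_congr rfl fun i _ => ?_
    rw [Finset.mul_sum]
    refine Finset.sum_congr rfl fun j _ => ?_
    simp only [Pi.star_apply, star_trivial]
    ring
  rw [h4] at h3
  exact h3

theorem hm_hor' {pr : M → B} (hpr : Submersion E E₁ pr) (g : Met E M) {σ : E₁ × E₂ → M}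
    {q : E₁ × E₂} {z : B} (hA : Fib.AC E pr σ q z) {p : M} (hp : σ q = p)
    {a a' : TangentSpace 𝓘(ℝ, E) p}
    (ha : Horizontal (E₁ := E₁) g pr p a) (ha' : Horizontal (E₁ := E₁) g pr p a') :
    g.inner p a a' = mB (hm g σ q)
      (mfderiv 𝓘(ℝ, E₁) 𝓘(ℝ, E₁) (extChartAt 𝓘(ℝ, E₁) z) (pr p)
        (mfderiv 𝓘(ℝ, E) 𝓘(ℝ, E₁) pr p a))
      (mfderiv 𝓘(ℝ, E₁) 𝓘(ℝ, E₁) (extChartAt 𝓘(ℝ, E₁) z) (pr p)
        (mfderiv 𝓘(ℝ, E) 𝓘(ℝ, E₁) pr p a')) := by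
  subst hp
  exact hm_hor hpr g hA ha ha'

omit [FiniteDimensional ℝ E₁] in
theorem symm_comp (z : B) {b : E₁} (hb : b ∈ (extChartAt 𝓘(ℝ, E₁) z).target) (t : E₁) :
    (mfderiv 𝓘(ℝ, E₁) 𝓘(ℝ, E₁) (extChartAt 𝓘(ℝ, E₁) z).symm b : E₁ →L[ℝ] E₁)
      ((mfderiv 𝓘(ℝ, E₁) 𝓘(ℝ, E₁) (extChartAt 𝓘(ℝ, E₁) z)
        ((extChartAt 𝓘(ℝ, E₁) z).symm b) : E₁ →L[ℝ] E₁) t) = t := by
  have h1 := mfderivWithin_extChartAt_symm_comp_mfderiv_extChartAt (I := 𝓘(ℝ, E₁)) (x := z) hb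
  rw [ModelWithCorners.range_eq_univ, mfderivWithin_univ] at h1
  exact congrArg (fun L : E₁ →L[ℝ] E₁ => L t) h1

end RiemSubAux

/-- For every `b : B` choose (`hpr.2 b`) `U_b, Φ_b` with `b ∈ U_b` and one point `y_b : F`, and let
`H_b = hm g (psi Φ_b b y_b) (pt b y_b b y_b)`,
`Q_b ξ η = mB H_b (dψ_b ξ) (dψ_b η)` with `ψ_b = extChartAt b` (`dψ_b` its differential at `b`,
bijective).

(1) If `p : M`, `pr p = b` and `a, a'` are horizontal at `p`, then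
`Q_b (d pr a) (d pr a') = g.inner p a a'`: by `hΦ.surj` `p = Φ_b (b, y)` for some `y`, the
parametrization `psi Φ_b b y` is adapted at `pt b y b y` (`ac_psi`), so by `hm_hor`
`g.inner p a a' = mB (hm g (psi Φ_b b y) (pt b y b y)) (dψ_b (d pr a)) (dψ_b (d pr a'))`, and this
matrix is `H_b` by `hm_const`.

(2) `Q_b` is symmetric and positive definite: by `hm_posDef`.

(3) Smoothness for `exists_met` at `z : B`: let `Φ = Φ_z`, `y = y_z`.  For `b̂` near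
`ẑ = extChartAt z z`, with `b = (extChartAt z).symm b̂`, the parametrization `psi Φ z y` is adapted
over the chart at `z` at the point `(b̂, ŷ)` (`ac_ev`).  By `hor_lift` there are horizontal vectors
`a, a'` at the point `psi Φ z y (b̂, ŷ) = Φ (b, y)` whose images under `d(extChartAt z) ∘ d pr` are
`v, w`; then `d pr a = d(extChartAt z).symm v` and by (1) and `hm_hor`
`Q_b (d(extChartAt z).symm v) (d(extChartAt z).symm w) = g.inner _ a a' = mB (hm g (psi Φ z y) (b̂, ŷ)) v w`,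
a smooth function of `b̂` by `hm_smooth`.

Then `exists_met` gives `gB`, and (1) is the Riemannian submersion property. -/
theorem exists_riemSub [CompactSpace M] [T2Space M] [CompactSpace B] [T2Space B] [CompactSpace F]
    [T2Space F] [ConnectedSpace F] (hd : finrank ℝ E = finrank ℝ E₁ + finrank ℝ E₂)
    {pr : M → B} (hpr : IsFibreBundle E E₁ E₂ F pr) {g : Met E M}
    (hc : ∀ (U : Set B) (Φ : B × F → M), Triv E E₁ E₂ pr U Φ → ∀ x ∈ U, ∀ (y : F) (w : E₂) (i j),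
      fderiv ℝ (fun p => hm g (psi E₁ E₂ Φ x y) p i j) (pt E₁ E₂ x y x y) (0, w) = 0) :
    ∃ gB : Met E₁ B, RiemSub g gB pr := by
  have _ := hd
  choose U Φ hxU hT using hpr.2
  obtain ⟨y0⟩ : Nonempty F := inferInstance
  -- the differential of the chart
  let D : B → E₁ →L[ℝ] E₁ := fun b =>
    mfderiv 𝓘(ℝ, E₁) 𝓘(ℝ, E₁) (extChartAt 𝓘(ℝ, E₁) b) b
  let T : M → E →L[ℝ] E₁ := fun p => mfderiv 𝓘(ℝ, E) 𝓘(ℝ, E₁) pr p
  let H : B → Matrix (Fin (finrank ℝ E₁)) (Fin (finrank ℝ E₁)) ℝ := fun b =>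
    hm g (psi E₁ E₂ (Φ b) b y0) (pt E₁ E₂ b y0 b y0)
  let Q : B → E₁ →L[ℝ] E₁ →L[ℝ] ℝ := fun b =>
    (RiemSubAux.mbl (H b)).bilinearComp (D b) (D b)
  have hQ : ∀ b u v, Q b u v = mB (H b) (D b u) (D b v) := fun b u v =>
    RiemSubAux.mbl_apply _ _ _
  have hHpos : ∀ b, (H b).PosDef := fun b =>
    hm_posDef g (ac_psi (hT b) (hxU b) y0).para.self_of_nhds
  have hDinj : ∀ b, Function.Injective (D b) := fun b =>
    (isInvertible_mfderiv_extChartAt (I := 𝓘(ℝ, E₁)) (mem_extChartAt_source (I := 𝓘(ℝ, E₁)) b)).injective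
  -- the value on horizontal vectors
  have key : ∀ (p : M) (a a' : TangentSpace 𝓘(ℝ, E) p), Horizontal (E₁ := E₁) g pr p a →
      Horizontal (E₁ := E₁) g pr p a' → Q (pr p) (T p a) (T p a') = g.inner p a a' := by
    intro p a a' ha ha'
    obtain ⟨y, hy⟩ := (hT (pr p)).surj p (hxU (pr p))
    have hA := ac_psi (hT (pr p)) (hxU (pr p)) y
    have hσ : psi E₁ E₂ (Φ (pr p)) (pr p) y (pt E₁ E₂ (pr p) y (pr p) y) = p := by
      show Φ (pr p) ((extChartAt 𝓘(ℝ, E₁) (pr p)).symm (extChartAt 𝓘(ℝ, E₁) (pr p) (pr p)),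
        (extChartAt 𝓘(ℝ, E₂) y).symm (extChartAt 𝓘(ℝ, E₂) y y)) = p
      rw [extChartAt_to_inv, extChartAt_to_inv, hy]
    have h1 := RiemSubAux.hm_hor' hpr.1 g hA hσ ha ha'
    have h2 : hm g (psi E₁ E₂ (Φ (pr p)) (pr p) y) (pt E₁ E₂ (pr p) y (pr p) y) = H (pr p) :=
      hm_const hpr.1 (hT (pr p)) (hxU (pr p))
        (fun y w i j => hc _ _ (hT (pr p)) _ (hxU (pr p)) y w i j) y y0
    rw [h2] at h1
    rw [hQ]
    exact h1.symm
  have hsm : ∀ (z : B) (v w : E₁), ContDiffAt ℝ ∞ (fun y : E₁ =>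
      Q ((extChartAt 𝓘(ℝ, E₁) z).symm y)
        ((mfderiv 𝓘(ℝ, E₁) 𝓘(ℝ, E₁) (extChartAt 𝓘(ℝ, E₁) z).symm y : E₁ →L[ℝ] E₁) v)
        ((mfderiv 𝓘(ℝ, E₁) 𝓘(ℝ, E₁) (extChartAt 𝓘(ℝ, E₁) z).symm y : E₁ →L[ℝ] E₁) w))
      (extChartAt 𝓘(ℝ, E₁) z z) := by
    intro z v w
    set zh := extChartAt 𝓘(ℝ, E₁) z z with hzh
    set yh := extChartAt 𝓘(ℝ, E₂) y0 y0 with hyh
    set σ := psi E₁ E₂ (Φ z) z y0 with hσ
    have hA0 : Fib.AC E pr σ (zh, yh) z := ac_psi (hT z) (hxU z) y0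
    have hcont : Filter.Tendsto (fun b : E₁ => ((b, yh) : E₁ × E₂)) (𝓝 zh) (𝓝 (zh, yh)) :=
      (Continuous.prodMk continuous_id continuous_const).tendsto zh
    have e1 : ∀ᶠ b in 𝓝 zh, Fib.AC E pr σ (b, yh) z := hcont.eventually (ac_ev hA0)
    have e2 : ∀ᶠ b in 𝓝 zh, b ∈ (extChartAt 𝓘(ℝ, E₁) z).target :=
      (isOpen_extChartAt_target (I := 𝓘(ℝ, E₁)) z).mem_nhds (mem_extChartAt_target z)
    have e3 : ∀ᶠ b in 𝓝 zh, (extChartAt 𝓘(ℝ, E₁) z).symm b ∈ U z := by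
      have h3 : ContinuousAt (extChartAt 𝓘(ℝ, E₁) z).symm zh := continuousAt_extChartAt_symm z
      have h4 : U z ∈ 𝓝 ((extChartAt 𝓘(ℝ, E₁) z).symm zh) := by
        rw [hzh, extChartAt_to_inv]
        exact (hT z).isOpen.mem_nhds (hxU z)
      exact h3.eventually h4
    have hev : (fun y : E₁ =>
      Q ((extChartAt 𝓘(ℝ, E₁) z).symm y)
        ((mfderiv 𝓘(ℝ, E₁) 𝓘(ℝ, E₁) (extChartAt 𝓘(ℝ, E₁) z).symm y : E₁ →L[ℝ] E₁) v)
        ((mfderiv 𝓘(ℝ, E₁) 𝓘(ℝ, E₁) (extChartAt 𝓘(ℝ, E₁) z).symm y : E₁ →L[ℝ] E₁) w)) =ᶠ[𝓝 zh]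
        fun b => mB (hm g σ (b, yh)) v w := by
      filter_upwards [e1, e2, e3] with b h1 h2 h3
      have hpr1 : pr (σ (b, yh)) = (extChartAt 𝓘(ℝ, E₁) z).symm b := (hT z).proj _ h3 _
      obtain ⟨hv1, hv2⟩ := hor_lift hpr.1 g h1 v
      obtain ⟨hw1, hw2⟩ := hor_lift hpr.1 g h1 w
      set a := mfderiv 𝓘(ℝ, E₁ × E₂) 𝓘(ℝ, E) σ (b, yh)
        ((v, gam g σ (b, yh) v) : E₁ × E₂) with ha
      set a' := mfderiv 𝓘(ℝ, E₁ × E₂) 𝓘(ℝ, E) σ (b, yh)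
        ((w, gam g σ (b, yh) w) : E₁ × E₂) with ha'
      have h4 := key _ a a' hv1 hw1
      have h5 := hm_hor hpr.1 g h1 hv1 hw1
      rw [hv2, hw2] at h5
      have lift : ∀ (t u : E₁), (mfderiv 𝓘(ℝ, E₁) 𝓘(ℝ, E₁) (extChartAt 𝓘(ℝ, E₁) z)
          (pr (σ (b, yh))) : E₁ →L[ℝ] E₁) t = u →
          (mfderiv 𝓘(ℝ, E₁) 𝓘(ℝ, E₁) (extChartAt 𝓘(ℝ, E₁) z).symm b : E₁ →L[ℝ] E₁) u = t := by
        intro t u htu
        rw [hpr1] at htu
        rw [← htu]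
        exact RiemSubAux.symm_comp z h2 t
      have e4 : (mfderiv 𝓘(ℝ, E₁) 𝓘(ℝ, E₁) (extChartAt 𝓘(ℝ, E₁) z).symm b : E₁ →L[ℝ] E₁) v =
          T (σ (b, yh)) a := lift _ _ hv2
      have e5 : (mfderiv 𝓘(ℝ, E₁) 𝓘(ℝ, E₁) (extChartAt 𝓘(ℝ, E₁) z).symm b : E₁ →L[ℝ] E₁) w =
          T (σ (b, yh)) a' := lift _ _ hw2
      rw [e4, e5, ← hpr1, h4]
      exact h5
    refine ContDiffAt.congr_of_eventuallyEq ?_ hev
    have h1 : ∀ i j, ContDiffAt ℝ ∞ (fun b : E₁ => hm g σ (b, yh) i j) zh := by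
      intro i j
      have h2 : ContDiffAt ℝ ∞ (fun p => hm g σ p i j) (zh, yh) := hm_smooth g hA0.para i j
      exact ContDiffAt.comp zh (f := fun b : E₁ => ((b, yh) : E₁ × E₂)) h2
        (contDiffAt_id.prodMk contDiffAt_const)
    unfold mB
    exact ContDiffAt.sum fun i _ => ContDiffAt.sum fun j _ => (h1 i j).mul contDiffAt_const
  obtain ⟨gB, hgB⟩ := exists_met (E := E₁) (M := B) Q
    (fun x u v => (hQ x u v).trans ((RiemSubAux.mB_symm (hHpos x) _ _).trans (hQ x v u).symm))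
    (fun x u hu => by
      have h1 := RiemSubAux.mB_pos (hHpos x) (u := D x u)
        (fun h => hu (hDinj x (h.trans (map_zero (D x)).symm)))
      exact lt_of_lt_of_eq h1 (hQ x u u).symm)
    hsm
  refine ⟨gB, hpr.1, fun p u v hu hv => ?_⟩
  exact (hgB _ _ _).trans (key p u v hu hv)

end Pool.Agent.Lib.MP_df705a_gt.Coll.Y
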