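import Pool.Agent.Lib.MP_df705a_gt.Coll.Defs

/-!
# Module Y: the limit form
-/

open scoped Manifold ContDiff Topology
open Set Bundle Module Filter MeasureTheory

noncomputable section

namespace Pool.Agent.Lib.MP_df705a_gt.Coll.Y

open Pool.Agent.Lib.MP_df705a_gt.Twist Pool.Agent.Lib.MP_df705a_gt.Perm

variable {E : Type*} [NormedAddCommGroup E] [NormedSpace ℝ E] [FiniteDimensional ℝ E]
  {M : Type*} [TopologicalSpace M] [ChartedSpace E M] [IsManifold 𝓘(ℝ, E) ∞ M]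

/-- The quadratic form `∫ (n - 2) (Scal - q) v² + 4 (n - 1) |dv|²`. -/
def PF [MeasurableSpace M] (h : Met E M) (q : M → ℝ) (n : ℕ) (μ : Measure M) (v : M → ℝ) : ℝ :=
  ∫ y, (((n : ℝ) - 2) * (Scal h y - q y) * v y ^ 2 + 4 * ((n : ℝ) - 1) * Grd h v v y) ∂μ

end Pool.Agent.Lib.MP_df705a_gt.Coll.Y
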