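import Pool.Agent.Lib.MP_df705a_gt.Coll.IR
import Pool.Agent.Lib.MP_df705a_gt.Coll.Y.Barta
import Pool.Agent.Lib.MP_df705a_gt.Coll.Y.RigidDefs

/-!
# Module Y: almost minimizing functions for the limit form
-/

open scoped Manifold ContDiff Topology
open Set Bundle Module Filter MeasureTheory

noncomputable section

namespace Pool.Agent.Lib.MP_df705a_gt.Coll.Y

open Pool.Agent.Lib.MP_df705a_gt.Twist Pool.Agent.Lib.MP_df705a_gt.Perm
open Pool.Agent.Lib.MP_df705a_gt.Circ (Horizontal Submersion cf Para HorConf)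

variable {E : Type*} [NormedAddCommGroup E] [NormedSpace ℝ E] [FiniteDimensional ℝ E]
  {M : Type*} [TopologicalSpace M] [ChartedSpace E M] [IsManifold 𝓘(ℝ, E) ∞ M]
  [MeasurableSpace E] [BorelSpace E] [MeasurableSpace M] [BorelSpace M]
  [CompactSpace M] [T2Space M]

namespace RigidAAux

omit [MeasurableSpace E] [BorelSpace E] [MeasurableSpace M] [BorelSpace M]
  [CompactSpace M] [T2Space M] in
theorem sm_expc {ψ : M → ℝ} (hψ : Sm E ψ) (c : ℝ) : Sm E fun x => Real.exp (c * ψ x) :=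
  Fib.sm_exp (sm_smul hψ c)

omit [MeasurableSpace E] [BorelSpace E] [MeasurableSpace M] [BorelSpace M]
  [CompactSpace M] [T2Space M] in
theorem grd_expc (g : Met E M) {ψ : M → ℝ} (hψ : Sm E ψ) (c : ℝ) (u : M → ℝ) (x : M) :
    Grd g (fun x => Real.exp (c * ψ x)) u x = c * Real.exp (c * ψ x) * Grd g ψ u x := by
  rw [Fib.grd_exp_left g (sm_smul hψ c), grd_smul_left g hψ]
  ring

end RigidAAux

open RigidAAux

/-- If `S - 2 (k-1) Lap ψ - (k-1)(k-2) Grd ψ ψ ≤ ε + κ (k-1) Grd ψ ψ` then, for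
`v = exp (lam ψ)`,
`∫ S v² ≤ ε ∫ v² + ((k-1)(k-2) + κ (k-1) - 4 lam (k-1)) ∫ Grd ψ ψ v²`.

Proof: multiply by `v²` and integrate; Green's formula (`IsRVol.green`) with `v²` and `ψ`, where
`Grd (v²) ψ = 2 lam v² Grd ψ ψ` (`Fib.grd_exp_left` in Fib/DivId.lean with the function
`2 lam ψ`, `v² = exp (2 lam ψ)`). -/
theorem int_exp {h : Met E M} {μ : Measure M} (hμ : IsRVol h μ) {ψ : M → ℝ} (hψ : Sm E ψ)
    {k ε κ lam : ℝ} (hk : 0 ≤ k - 1) (hle : ∀ x, Scal h x - 2 * (k - 1) * Lap h ψ x -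
      (k - 1) * (k - 2) * Grd h ψ ψ x ≤ ε + κ * (k - 1) * Grd h ψ ψ x) :
    ∫ y, Scal h y * Real.exp (lam * ψ y) ^ 2 ∂μ ≤
      ε * ∫ y, Real.exp (lam * ψ y) ^ 2 ∂μ + ((k - 1) * (k - 2) + κ * (k - 1) -
        4 * lam * (k - 1)) * ∫ y, Grd h ψ ψ y * Real.exp (lam * ψ y) ^ 2 ∂μ := by
  have hw := sm_expc (E := E) hψ lam
  have hW2 : Sm E (fun x => Real.exp (lam * ψ x) * Real.exp (lam * ψ x)) := sm_mul hw hw
  have hgreen := hμ.green hψ hW2
  have hGW : ∀ x, Grd h (fun x => Real.exp (lam * ψ x) * Real.exp (lam * ψ x)) ψ x =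
      2 * lam * (Grd h ψ ψ x * Real.exp (lam * ψ x) ^ 2) := by
    intro x
    rw [Fib.grd_mul_left h hw hw, grd_expc h hψ]
    ring
  have c1 : Continuous fun x => Real.exp (lam * ψ x) := hw.continuous
  have c2 := (Circ.sm_grd h hψ hψ).continuous
  have c3 := (Circ.sm_lap h hψ).continuous
  have c4 := scal_cont h
  have c5 := (Circ.sm_grd h hW2 hψ).continuous
  have i0 : Integrable (fun y => Scal h y * Real.exp (lam * ψ y) ^ 2) μ :=
    integ hμ (c4.mul (c1.pow 2))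
  have i1 : Integrable (fun y => ε * Real.exp (lam * ψ y) ^ 2) μ :=
    integ hμ (continuous_const.mul (c1.pow 2))
  have i2 : Integrable (fun y => ((k - 1) * (k - 2) + κ * (k - 1) -
        4 * lam * (k - 1)) * (Grd h ψ ψ y * Real.exp (lam * ψ y) ^ 2)) μ :=
    integ hμ (continuous_const.mul (c2.mul (c1.pow 2)))
  have i3 : Integrable (fun y => 2 * (k - 1) * (Real.exp (lam * ψ y) * Real.exp (lam * ψ y) *
      Lap h ψ y + Grd h (fun x => Real.exp (lam * ψ x) * Real.exp (lam * ψ x)) ψ y)) μ :=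
    integ hμ (continuous_const.mul (((c1.mul c1).mul c3).add c5))
  have hpt : ∀ y, Scal h y * Real.exp (lam * ψ y) ^ 2 ≤
      (ε * Real.exp (lam * ψ y) ^ 2 + ((k - 1) * (k - 2) + κ * (k - 1) -
        4 * lam * (k - 1)) * (Grd h ψ ψ y * Real.exp (lam * ψ y) ^ 2)) +
      2 * (k - 1) * (Real.exp (lam * ψ y) * Real.exp (lam * ψ y) *
      Lap h ψ y + Grd h (fun x => Real.exp (lam * ψ x) * Real.exp (lam * ψ x)) ψ y) := by
    intro y
    rw [hGW y]
    have h1 := hle y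
    have h2 : 0 ≤ Real.exp (lam * ψ y) ^ 2 := by positivity
    have h3 : Scal h y ≤ ε + κ * (k - 1) * Grd h ψ ψ y + 2 * (k - 1) * Lap h ψ y +
      (k - 1) * (k - 2) * Grd h ψ ψ y := by linarith
    have h4 := mul_le_mul_of_nonneg_right h3 h2
    refine h4.trans (le_of_eq ?_)
    ring
  have i12 : Integrable (fun y => ε * Real.exp (lam * ψ y) ^ 2 + ((k - 1) * (k - 2) +
      κ * (k - 1) - 4 * lam * (k - 1)) * (Grd h ψ ψ y * Real.exp (lam * ψ y) ^ 2)) μ :=
    i1.add i2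
  have h5 := integral_mono i0 (i12.add i3) hpt
  simp only [Pi.add_apply] at h5
  rw [integral_add i12 i3, integral_add i1 i2, integral_const_mul, integral_const_mul,
    integral_const_mul, hgreen, mul_zero, add_zero] at h5
  exact h5

omit [MeasurableSpace E] [BorelSpace E] [MeasurableSpace M] [BorelSpace M]
  [CompactSpace M] [T2Space M] in
/-- `Grd v v = lam² v² Grd ψ ψ` for `v = exp (lam ψ)`: `Perm.grd_comp` with
`φ t = exp (lam t)`. -/
theorem grd_exp (h : Met E M) {ψ : M → ℝ} (hψ : Sm E ψ) (lam : ℝ) (x : M) :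
    Sm E (fun y => Real.exp (lam * ψ y)) ∧
    Grd h (fun y => Real.exp (lam * ψ y)) (fun y => Real.exp (lam * ψ y)) x =
      lam ^ 2 * (Grd h ψ ψ x * Real.exp (lam * ψ x) ^ 2) := by
  refine ⟨sm_expc hψ lam, ?_⟩
  rw [grd_expc h hψ, grd_comm, grd_expc h hψ]
  ring

/-- Let `k = finrank ℝ E`.  Choose `κ = (n-k)/(2(n-1))`, `lam = (k-1)(n-2)/(2(n-1)) > 0`,
`c₁ = (n-2)(k-1)(n-k)/(n-1) > 0`.  For `ε > 0` take `ψ` from `Perm.exists_almost_nonpos` and
`v = exp (lam ψ)`.  With `J = ∫ Grd ψ ψ v²`, `int_exp` and `grd_exp`: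
`PF v = (n-2) ∫ S v² - (n-2) ∫ q v² + 4(n-1) lam² J
  ≤ (n-2) ε ∫ v² - (n-2) ∫ q v² + [(n-2)((k-1)(k-2) + κ(k-1) - 4 lam (k-1)) + 4(n-1) lam²] J`
and the bracket is `- c₁ + κ(n-2)(k-1) = - c₁/2` (since
`(n-2)(k-1)(k-2) - (k-1)²(n-2)²/(n-1) = -(n-2)(k-1)(n-k)/(n-1)`).  As `0 ≤ PF v` (`hform`), one gets
`(n-2) ∫ q v² + (c₁/2) J ≤ (n-2) ε ∫ v²` and `PF v ≤ (n-2) ε ∫ v²`, and
`∫ Grd v v = lam² J`.  Now divide `v` by the square root of `∫ v² > 0` (`Perm.sm_smul`,
`grd_smul_left`, `grd_comm`): everything is homogeneous of degree 2.  The constant is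
`C = 1 + (n-2) (1 + 2 lam²/c₁)` (or any larger one). -/
theorem exists_v [ConnectedSpace M] (hd : 2 ≤ finrank ℝ E)
    {h : Met E M} {μ : Measure M} (hμ : IsRVol h μ) (hno : ¬ ConfPSC h) {n : ℕ} (hn : 3 ≤ n)
    (hn' : finrank ℝ E < n) {q : M → ℝ} (hq : Continuous q) (hq0 : ∀ y, 0 ≤ q y)
    (hform : ∀ v : M → ℝ, Sm E v → 0 ≤ PF h q n μ v) :
    ∃ C : ℝ, 0 < C ∧ ∀ ε : ℝ, 0 < ε → ∃ v : M → ℝ, Sm E v ∧ ∫ y, v y ^ 2 ∂μ = 1 ∧
      ∫ y, q y * v y ^ 2 ∂μ ≤ C * ε ∧ ∫ y, Grd h v v y ∂μ ≤ C * ε ∧ PF h q n μ v ≤ C * ε := by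
  have hfin := hμ.fin
  set k : ℝ := (finrank ℝ E : ℝ) with hk
  set N : ℝ := (n : ℝ) with hN
  have hk2 : 2 ≤ k := by rw [hk]; exact_mod_cast hd
  have hN3 : 3 ≤ N := by rw [hN]; exact_mod_cast hn
  have hkN : 0 < N - k := by
    have : k < N := by rw [hk, hN]; exact_mod_cast hn'
    linarith
  have hN1 : 0 < N - 1 := by linarith
  have hN2 : 0 < N - 2 := by linarith
  have hk1 : 0 < k - 1 := by linarith
  set κ : ℝ := (N - k) / (2 * (N - 1)) with hκ
  set lam : ℝ := (k - 1) * (N - 2) / (2 * (N - 1)) with hlam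
  set c₁ : ℝ := (N - 2) * (k - 1) * (N - k) / (N - 1) with hc₁
  have hκ0 : 0 < κ := by positivity
  have hlam0 : 0 < lam := by positivity
  have hc₁0 : 0 < c₁ := by positivity
  set C : ℝ := 1 + (N - 2) * (1 + 2 * lam ^ 2 / c₁) with hC
  have hC0 : 0 < C := by positivity
  refine ⟨C, hC0, fun ε hε => ?_⟩
  obtain ⟨ψ, hψ, hψ2⟩ := exists_almost_nonpos (M := M) (E := E) (by omega) h hno hε hκ0
  rw [← hk] at hψ2
  have hint := int_exp (lam := lam) hμ hψ hk1.le hψ2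
  have hv : Sm E (fun y => Real.exp (lam * ψ y)) := sm_expc hψ lam
  have hvG := fun x => (grd_exp h hψ lam x).2
  obtain ⟨y₀⟩ : Nonempty M := inferInstance
  have c1 : Continuous fun x => Real.exp (lam * ψ x) := hv.continuous
  have c2 := (Circ.sm_grd h hψ hψ).continuous
  have c4 := scal_cont h
  set A : ℝ := ∫ y, Real.exp (lam * ψ y) ^ 2 ∂μ with hA
  set J : ℝ := ∫ y, Grd h ψ ψ y * Real.exp (lam * ψ y) ^ 2 ∂μ with hJ
  set Q : ℝ := ∫ y, q y * Real.exp (lam * ψ y) ^ 2 ∂μ with hQ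
  set S : ℝ := ∫ y, Scal h y * Real.exp (lam * ψ y) ^ 2 ∂μ with hS
  have hA0 : 0 < A := hμ.pos (c1.pow 2) (fun p => sq_nonneg _) (p := y₀) (by positivity)
  have hJ0 : 0 ≤ J := integral_nonneg fun y => mul_nonneg (grd_nonneg h ψ y) (sq_nonneg _)
  have hQ0 : 0 ≤ Q := integral_nonneg fun y => mul_nonneg (hq0 y) (sq_nonneg _)
  have hPF : PF h q n μ (fun y => Real.exp (lam * ψ y)) =
      (N - 2) * S - (N - 2) * Q + 4 * (N - 1) * lam ^ 2 * J := by
    unfold PF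
    have e1 : ∀ y, ((n : ℝ) - 2) * (Scal h y - q y) * Real.exp (lam * ψ y) ^ 2 +
        4 * ((n : ℝ) - 1) * Grd h (fun y => Real.exp (lam * ψ y))
          (fun y => Real.exp (lam * ψ y)) y =
        ((N - 2) * (Scal h y * Real.exp (lam * ψ y) ^ 2) -
          (N - 2) * (q y * Real.exp (lam * ψ y) ^ 2)) +
          4 * (N - 1) * lam ^ 2 * (Grd h ψ ψ y * Real.exp (lam * ψ y) ^ 2) := by
      intro y
      rw [hvG y]
      ring
    rw [integral_congr_ae (Eventually.of_forall e1)]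
    have i1 : Integrable (fun y => (N - 2) * (Scal h y * Real.exp (lam * ψ y) ^ 2)) μ :=
      integ hμ (continuous_const.mul (c4.mul (c1.pow 2)))
    have i2 : Integrable (fun y => (N - 2) * (q y * Real.exp (lam * ψ y) ^ 2)) μ :=
      integ hμ (continuous_const.mul (hq.mul (c1.pow 2)))
    have i3 : Integrable (fun y => 4 * (N - 1) * lam ^ 2 *
        (Grd h ψ ψ y * Real.exp (lam * ψ y) ^ 2)) μ :=
      integ hμ (continuous_const.mul (c2.mul (c1.pow 2)))
    have i12 : Integrable (fun y => (N - 2) * (Scal h y * Real.exp (lam * ψ y) ^ 2) -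
        (N - 2) * (q y * Real.exp (lam * ψ y) ^ 2)) μ := i1.sub i2
    rw [integral_add i12 i3, integral_sub i1 i2, integral_const_mul, integral_const_mul,
      integral_const_mul]
  have hPF0 := hform _ hv
  have hbr : (N - 2) * ((k - 1) * (k - 2) + κ * (k - 1) - 4 * lam * (k - 1)) +
      4 * (N - 1) * lam ^ 2 = -(c₁ / 2) := by
    rw [hκ, hlam, hc₁]
    field_simp
    ring
  have hup : PF h q n μ (fun y => Real.exp (lam * ψ y)) ≤
      (N - 2) * ε * A - (N - 2) * Q - c₁ / 2 * J := by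
    rw [hPF]
    have h1 := mul_le_mul_of_nonneg_left hint hN2.le
    have h2 : (N - 2) * (ε * A + ((k - 1) * (k - 2) + κ * (k - 1) - 4 * lam * (k - 1)) * J) +
        4 * (N - 1) * lam ^ 2 * J = (N - 2) * ε * A + ((N - 2) * ((k - 1) * (k - 2) +
          κ * (k - 1) - 4 * lam * (k - 1)) + 4 * (N - 1) * lam ^ 2) * J := by ring
    rw [hbr] at h2
    linarith
  have hQle : Q ≤ ε * A := by
    have h1 : 0 ≤ (N - 2) * (ε * A - Q) := by
      have h3 : 0 ≤ c₁ / 2 * J := by positivity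
      have h4 : (N - 2) * (ε * A - Q) = (N - 2) * ε * A - (N - 2) * Q := by ring
      rw [h4]
      linarith only [h3, hup, hPF0]
    have h2 := nonneg_of_mul_nonneg_right h1 hN2
    linarith
  have hJle : J ≤ 2 * (N - 2) / c₁ * (ε * A) := by
    have h1 : c₁ / 2 * J ≤ (N - 2) * (ε * A) := by
      have h3 : 0 ≤ (N - 2) * Q := by positivity
      have h4 : (N - 2) * (ε * A) = (N - 2) * ε * A := by ring
      rw [h4]
      linarith only [h3, hup, hPF0]
    have h2 : J = 2 / c₁ * (c₁ / 2 * J) := by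
      field_simp
    rw [h2]
    calc 2 / c₁ * (c₁ / 2 * J) ≤ 2 / c₁ * ((N - 2) * (ε * A)) :=
          mul_le_mul_of_nonneg_left h1 (by positivity)
      _ = _ := by ring
  have hPFle : PF h q n μ (fun y => Real.exp (lam * ψ y)) ≤ (N - 2) * (ε * A) := by
    have h1 : 0 ≤ (N - 2) * Q := by positivity
    have h2 : 0 ≤ c₁ / 2 * J := by positivity
    linarith
  -- normalization
  set s : ℝ := (√A)⁻¹ with hs
  have hs2 : s ^ 2 * A = 1 := by
    rw [hs, inv_pow, Real.sq_sqrt hA0.le]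
    exact inv_mul_cancel₀ hA0.ne'
  have hs20 : 0 ≤ s ^ 2 := sq_nonneg s
  have hscale : ∀ X : ℝ, ∀ c : ℝ, X ≤ c * (ε * A) → c ≤ C → s ^ 2 * X ≤ C * ε := by
    intro X c hX hc
    calc s ^ 2 * X ≤ s ^ 2 * (c * (ε * A)) := mul_le_mul_of_nonneg_left hX hs20
      _ = c * ε * (s ^ 2 * A) := by ring
      _ = c * ε := by rw [hs2, mul_one]
      _ ≤ C * ε := mul_le_mul_of_nonneg_right hc hε.le
  have hsv : Sm E (fun y => s * Real.exp (lam * ψ y)) := sm_smul hv s
  have hGs : ∀ y, Grd h (fun y => s * Real.exp (lam * ψ y))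
      (fun y => s * Real.exp (lam * ψ y)) y =
      s ^ 2 * Grd h (fun y => Real.exp (lam * ψ y)) (fun y => Real.exp (lam * ψ y)) y := by
    intro y
    rw [grd_smul_left h hv, grd_comm, grd_smul_left h hv]
    ring
  have hpos1 : 0 ≤ 2 * lam ^ 2 / c₁ := by positivity
  refine ⟨fun y => s * Real.exp (lam * ψ y), hsv, ?_, ?_, ?_, ?_⟩
  · have e1 : ∀ y, (s * Real.exp (lam * ψ y)) ^ 2 = s ^ 2 * Real.exp (lam * ψ y) ^ 2 :=
      fun y => by ring
    rw [integral_congr_ae (Eventually.of_forall e1), integral_const_mul, ← hA]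
    exact hs2
  · have e1 : ∀ y, q y * (s * Real.exp (lam * ψ y)) ^ 2 =
        s ^ 2 * (q y * Real.exp (lam * ψ y) ^ 2) := fun y => by ring
    rw [integral_congr_ae (Eventually.of_forall e1), integral_const_mul, ← hQ]
    refine hscale Q 1 (by linarith) ?_
    rw [hC]
    have : 0 ≤ (N - 2) * (1 + 2 * lam ^ 2 / c₁) := by positivity
    linarith
  · have e1 : ∀ y, Grd h (fun y => s * Real.exp (lam * ψ y))
        (fun y => s * Real.exp (lam * ψ y)) y =
        s ^ 2 * lam ^ 2 * (Grd h ψ ψ y * Real.exp (lam * ψ y) ^ 2) := by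
      intro y
      rw [hGs y, hvG y]
      ring
    rw [integral_congr_ae (Eventually.of_forall e1), integral_const_mul, ← hJ, mul_assoc]
    refine hscale _ (2 * (N - 2) * lam ^ 2 / c₁) ?_ ?_
    · calc lam ^ 2 * J ≤ lam ^ 2 * (2 * (N - 2) / c₁ * (ε * A)) :=
            mul_le_mul_of_nonneg_left hJle (sq_nonneg _)
        _ = _ := by ring
    · rw [hC]
      have : (N - 2) * (1 + 2 * lam ^ 2 / c₁) = (N - 2) + 2 * (N - 2) * lam ^ 2 / c₁ := by ring
      rw [this]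
      linarith
  · have e1 : PF h q n μ (fun y => s * Real.exp (lam * ψ y)) =
        s ^ 2 * PF h q n μ (fun y => Real.exp (lam * ψ y)) := by
      unfold PF
      rw [← integral_const_mul]
      refine integral_congr_ae (Eventually.of_forall fun y => ?_)
      simp only
      rw [hGs y]
      ring
    rw [e1]
    refine hscale _ (N - 2) hPFle ?_
    rw [hC]
    have : (N - 2) * (1 + 2 * lam ^ 2 / c₁) = (N - 2) + (N - 2) * (2 * lam ^ 2 / c₁) := by ring
    have h2 : 0 ≤ (N - 2) * (2 * lam ^ 2 / c₁) := by positivity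
    rw [this]
    linarith

end Pool.Agent.Lib.MP_df705a_gt.Coll.Y
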