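import Pool.Agent.Lib.MP_df705a_gt.Coll.IX
import Pool.Agent.Lib.MP_df705a_gt.Coll.Y.RigidA

/-!
# Module Y: rigidity
-/

open scoped Manifold ContDiff Topology
open Set Bundle Module Filter MeasureTheory

noncomputable section

namespace Pool.Agent.Lib.MP_df705a_gt.Coll.Y

open Pool.Agent.Lib.MP_df705a_gt.Twist Pool.Agent.Lib.MP_df705a_gt.Perm
open Pool.Agent.Lib.MP_df705a_gt.Circ (Horizontal Submersion cf Para HorConf)

variable {E : Type*} [NormedAddCommGroup E] [NormedSpace ℝ E] [FiniteDimensional ℝ E]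
  {M : Type*} [TopologicalSpace M] [ChartedSpace E M] [IsManifold 𝓘(ℝ, E) ∞ M]
  [MeasurableSpace E] [BorelSpace E] [MeasurableSpace M] [BorelSpace M]
  [CompactSpace M] [T2Space M]

namespace RigidBAux

theorem le_zero_of_small {X D t₀ : ℝ} (hD : 0 < D) (ht₀ : 0 < t₀)
    (h : ∀ t : ℝ, 0 < t → t ≤ t₀ → X ≤ D * t) : X ≤ 0 := by
  by_contra hX
  push Not at hX
  have h1 : 0 < X / (2 * D) := by positivity
  have h2 := h (min t₀ (X / (2 * D))) (lt_min ht₀ h1) (min_le_left _ _)
  have h3 : D * min t₀ (X / (2 * D)) ≤ D * (X / (2 * D)) :=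
    mul_le_mul_of_nonneg_left (min_le_right _ _) hD.le
  have h4 : D * (X / (2 * D)) = X / 2 := by
    field_simp
  linarith

theorem eq_zero_of_quad {a P : ℝ} (h : ∀ t : ℝ, 0 ≤ t * a + t ^ 2 * P) : a = 0 := by
  by_contra ha
  have h1 := h (-a / (2 * (|P| + 1)))
  have hP : 0 < |P| + 1 := by positivity
  have h2 : (-a / (2 * (|P| + 1))) ^ 2 * P ≤ a ^ 2 / (4 * (|P| + 1)) := by
    have h3 : (-a / (2 * (|P| + 1))) ^ 2 * P ≤ (-a / (2 * (|P| + 1))) ^ 2 * (|P| + 1) := by
      apply mul_le_mul_of_nonneg_left _ (sq_nonneg _)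
      have := le_abs_self P
      linarith
    refine h3.trans (le_of_eq ?_)
    field_simp
    ring
  have h3 : -a / (2 * (|P| + 1)) * a = -(2 * (a ^ 2 / (4 * (|P| + 1)))) := by
    field_simp
    ring
  have h4 : 0 < a ^ 2 / (4 * (|P| + 1)) := by positivity
  rw [h3] at h1
  linarith

end RigidBAux

open RigidBAux

omit [T2Space M] in
/-- Expand `(m + w)²` and `Grd (m + w) (m + w) = Grd w w` (`grd_add_left`, `grd_const_left`,
`grd_comm`); all functions are continuous (`Perm.scal_cont`, `Circ.sm_grd`), hence integrable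
(`integ`). -/
theorem PF_const_add {h : Met E M} {μ : Measure M} (hμ : IsRVol h μ) {q : M → ℝ}
    (hq : Continuous q) (n : ℕ) (m : ℝ) {w : M → ℝ} (hw : Sm E w) :
    PF h q n μ (fun y => m + w y) = m ^ 2 * PF h q n μ (fun _ => 1) +
      2 * m * ((n : ℝ) - 2) * (∫ y, (Scal h y - q y) * w y ∂μ) + PF h q n μ w := by
  have hG : ∀ y, Grd h (fun y => m + w y) (fun y => m + w y) y = Grd h w w y := by
    intro y
    rw [grd_add_left h (sm_const m) hw, grd_const_left, zero_add, grd_comm,
      grd_add_left h (sm_const m) hw, grd_const_left, zero_add]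
  have hG1 : ∀ y, Grd h (fun _ => (1 : ℝ)) (fun _ => (1 : ℝ)) y = 0 := fun y =>
    grd_const_left h 1 _ y
  have c1 := hw.continuous
  have c2 := (Circ.sm_grd h hw hw).continuous
  have c4 := scal_cont h
  have i1 : Integrable (fun y => m ^ 2 * (((n : ℝ) - 2) * (Scal h y - q y) * 1 ^ 2 +
      4 * ((n : ℝ) - 1) * 0)) μ :=
    integ hμ (continuous_const.mul (((continuous_const.mul (c4.sub hq)).mul
      (continuous_const)).add (continuous_const)))
  have i2 : Integrable (fun y => 2 * m * ((n : ℝ) - 2) * ((Scal h y - q y) * w y)) μ :=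
    integ hμ (continuous_const.mul ((c4.sub hq).mul c1))
  have i3 : Integrable (fun y => ((n : ℝ) - 2) * (Scal h y - q y) * w y ^ 2 +
      4 * ((n : ℝ) - 1) * Grd h w w y) μ :=
    integ hμ (((continuous_const.mul (c4.sub hq)).mul (c1.pow 2)).add
      (continuous_const.mul c2))
  have i12 : Integrable (fun y => m ^ 2 * (((n : ℝ) - 2) * (Scal h y - q y) * 1 ^ 2 +
      4 * ((n : ℝ) - 1) * 0) + 2 * m * ((n : ℝ) - 2) * ((Scal h y - q y) * w y)) μ := i1.add i2
  unfold PF
  simp only [hG, hG1]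
  rw [← integral_const_mul, ← integral_const_mul, ← integral_add i1 i2, ← integral_add i12 i3]
  refine integral_congr_ae (Eventually.of_forall fun y => ?_)
  simp only
  ring

/-- Let `V = μ.real univ > 0` (`hμ.pos` for the function `1`), `C_P` the constant of `poincare` and `K`
a bound of `|q|` and `|Scal h - q|` (compactness).  For `ε > 0` take `v` from `hv`, its mean
`m = (∫ v)/V` and `z = v - m`: `∫ z = 0`, `Grd z z = Grd v v`, so `∫ z² ≤ C_P C ε`, and
`1 = ∫ v² = m² V + ∫ z²`; for `C_P C ε ≤ 1/2` this gives `m² V ≥ 1/2`, and `m² V ≤ 1`.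
1. `q m² ≤ 2 q v² + 2 q z²` gives `m² ∫ q ≤ 2 C ε + 2 K C_P C ε`, so `∫ q ≤ C' ε` with `C'` not
   depending on `ε`; hence `∫ q ≤ 0`.
2. `PF_const_add`: `m² PF 1 = PF v - 2 m (n-2) ∫ (S - q) z - PF z ≤ C ε + 2 |m| (n-2) K ∫ |z|`, and
   `∫ |z| ≤ (V ∫ z²)^{1/2} ≤ (V C_P C ε)^{1/2}` (Cauchy-Schwarz, or `|z| ≤ (t + z²/t)/2` with
   `t = ε^{1/2}`, integrated); the right hand side tends to 0 as `ε → 0`, while `m² ≥ 1/(2V)`.
   Hence `PF 1 ≤ 0`. -/
theorem rigid_lim [ConnectedSpace M] {h : Met E M} {μ : Measure M} (hμ : IsRVol h μ) {n : ℕ}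
    (hn : 3 ≤ n) {q : M → ℝ} (hq : Continuous q) (hq0 : ∀ y, 0 ≤ q y)
    (hform : ∀ v : M → ℝ, Sm E v → 0 ≤ PF h q n μ v)
    {C : ℝ} (hC : 0 < C) (hv : ∀ ε : ℝ, 0 < ε → ∃ v : M → ℝ, Sm E v ∧ ∫ y, v y ^ 2 ∂μ = 1 ∧
      ∫ y, q y * v y ^ 2 ∂μ ≤ C * ε ∧ ∫ y, Grd h v v y ∂μ ≤ C * ε ∧ PF h q n μ v ≤ C * ε) :
    ∫ y, q y ∂μ ≤ 0 ∧ PF h q n μ (fun _ => 1) ≤ 0 := by
  have hfin := hμ.fin
  obtain ⟨y₀⟩ : Nonempty M := inferInstance
  have c4 := scal_cont h
  have hV : 0 < ∫ _ : M, (1 : ℝ) ∂μ :=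
    hμ.pos (f := fun _ => (1 : ℝ)) continuous_const (fun _ => zero_le_one) (p := y₀) one_pos
  set V : ℝ := ∫ _ : M, (1 : ℝ) ∂μ with hVdef
  obtain ⟨CP, hCP, hpoin⟩ := poincare hμ
  obtain ⟨K₁, hK₁⟩ := (isCompact_range hq.abs).bddAbove
  obtain ⟨K₂, hK₂⟩ := (isCompact_range (c4.sub hq).abs).bddAbove
  set K : ℝ := |K₁| + |K₂| + 1 with hK
  have hK0 : 0 < K := by positivity
  have hKq : ∀ y, q y ≤ K := by
    intro y
    have h1 : |q y| ≤ K₁ := hK₁ ⟨y, rfl⟩
    have h2 := le_abs_self (q y)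
    have h3 := le_abs_self K₁
    have h4 := abs_nonneg K₂
    rw [hK]
    linarith only [h1, h2, h3, h4]
  have hKs : ∀ y, |Scal h y - q y| ≤ K := by
    intro y
    have h1 : |Scal h y - q y| ≤ K₂ := hK₂ ⟨y, rfl⟩
    have h3 := le_abs_self K₂
    have h4 := abs_nonneg K₁
    rw [hK]
    linarith only [h1, h3, h4]
  have hN3 : (3 : ℝ) ≤ (n : ℝ) := by exact_mod_cast hn
  set N : ℝ := (n : ℝ) with hN
  have hN2 : 0 < N - 2 := by linarith only [hN3]
  -- the main estimate
  set t₀ : ℝ := min 1 (1 / (2 * (CP * C))) with ht₀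
  have ht₀0 : 0 < t₀ := lt_min one_pos (by positivity)
  have key : ∀ t : ℝ, 0 < t → t ≤ t₀ →
      ∫ y, q y ∂μ ≤ 2 * V * (2 * C + 2 * K * (CP * C)) * t ∧
      PF h q n μ (fun _ => 1) ≤
        2 * V * (C + (1 / V + 1) * (N - 2) * (K * ((V + CP * C) / 2))) * t := by
    intro t ht htt
    have ht1 : t ≤ 1 := htt.trans (min_le_left _ _)
    have ht2 : t * (2 * (CP * C)) ≤ 1 := by
      have h1 : t ≤ 1 / (2 * (CP * C)) := htt.trans (min_le_right _ _)
      rwa [le_div_iff₀ (by positivity)] at h1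
    have htsq : t ^ 2 ≤ t := by
      rw [sq]
      exact mul_le_of_le_one_left ht.le ht1
    obtain ⟨v, hvs, hv1, hvq, hvG, hvP⟩ := hv (t ^ 2) (by positivity)
    have cv := hvs.continuous
    set m : ℝ := (∫ y, v y ∂μ) / V with hm
    set z : M → ℝ := fun y => -m + v y with hz
    have hzs : Sm E z := sm_add (sm_const (-m)) hvs
    have cz := hzs.continuous
    have hzG : ∀ y, Grd h z z y = Grd h v v y := by
      intro y
      rw [hz, grd_add_left h (sm_const (-m)) hvs, grd_const_left, zero_add, grd_comm,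
        grd_add_left h (sm_const (-m)) hvs, grd_const_left, zero_add]
    have hz0 : ∫ y, z y ∂μ = 0 := by
      have e1 : ∫ y, z y ∂μ = ∫ y, (-m * 1 + v y) ∂μ := by
        refine integral_congr_ae (Eventually.of_forall fun y => ?_)
        simp only [hz, mul_one]
      have i1 : Integrable (fun _ : M => -m * (1 : ℝ)) μ :=
        integ hμ (continuous_const.mul continuous_const)
      rw [e1, integral_add i1 (integ hμ cv), integral_const_mul, ← hVdef, hm]
      field_simp
      ring
    set Z : ℝ := ∫ y, z y ^ 2 ∂μ with hZ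
    have hZ0 : 0 ≤ Z := integral_nonneg fun y => sq_nonneg _
    have hZle : Z ≤ CP * C * t ^ 2 := by
      have h1 := hpoin z hzs hz0
      have h2 : ∫ p, Grd h z z p ∂μ = ∫ p, Grd h v v p ∂μ :=
        integral_congr_ae (Eventually.of_forall hzG)
      rw [h2] at h1
      calc Z ≤ CP * ∫ p, Grd h v v p ∂μ := h1
        _ ≤ CP * (C * t ^ 2) := mul_le_mul_of_nonneg_left hvG hCP.le
        _ = _ := by ring
    have hZt : Z ≤ CP * C * t :=
      hZle.trans (mul_le_mul_of_nonneg_left htsq (by positivity))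
    have hZhalf : Z ≤ 1 / 2 := by linarith only [hZt, ht2]
    have hmV : 1 = m ^ 2 * V + Z := by
      have e1 : ∫ y, v y ^ 2 ∂μ = ∫ y, ((m ^ 2 * 1 + 2 * m * z y) + z y ^ 2) ∂μ := by
        refine integral_congr_ae (Eventually.of_forall fun y => ?_)
        simp only [hz]
        ring
      have i1 : Integrable (fun _ : M => m ^ 2 * (1 : ℝ)) μ :=
        integ hμ (continuous_const.mul continuous_const)
      have i2 : Integrable (fun y => 2 * m * z y) μ := integ hμ (continuous_const.mul cz)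
      have i12 : Integrable (fun y => m ^ 2 * 1 + 2 * m * z y) μ := i1.add i2
      have i3 : Integrable (fun y => z y ^ 2) μ := integ hμ (cz.pow 2)
      rw [← hv1, e1, integral_add i12 i3, integral_add i1 i2, integral_const_mul,
        integral_const_mul, hz0, mul_zero, add_zero]
    have hmV2 : 1 / 2 ≤ m ^ 2 * V := by linarith only [hmV, hZhalf]
    have hm2 : m ^ 2 ≤ 1 / V := by
      rw [le_div_iff₀ hV]
      linarith only [hmV, hZ0]
    have hX : ∀ X Y : ℝ, m ^ 2 * X ≤ Y → 0 ≤ X → X ≤ 2 * V * Y := by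
      intro X Y hXY hX0
      have h1 : 1 / 2 * X ≤ m ^ 2 * V * X := mul_le_mul_of_nonneg_right hmV2 hX0
      have h2 : V * (m ^ 2 * X) ≤ V * Y := mul_le_mul_of_nonneg_left hXY hV.le
      have h3 : V * (m ^ 2 * X) = m ^ 2 * V * X := by ring
      linarith only [h1, h2, h3]
    constructor
    · -- the integral of q
      have i1 : Integrable (fun y => m ^ 2 * q y) μ := integ hμ (continuous_const.mul hq)
      have i2 : Integrable (fun y => 2 * (q y * v y ^ 2)) μ :=
        integ hμ (continuous_const.mul (hq.mul (cv.pow 2)))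
      have i3 : Integrable (fun y => 2 * K * z y ^ 2) μ :=
        integ hμ (continuous_const.mul (cz.pow 2))
      have hpt : ∀ y, m ^ 2 * q y ≤ 2 * (q y * v y ^ 2) + 2 * K * z y ^ 2 := by
        intro y
        have h1 : m ^ 2 ≤ 2 * v y ^ 2 + 2 * z y ^ 2 := by
          have h2 : z y = -m + v y := rfl
          rw [h2]
          nlinarith [sq_nonneg (2 * v y - m)]
        have h2 := mul_le_mul_of_nonneg_right h1 (hq0 y)
        have h3 : z y ^ 2 * q y ≤ z y ^ 2 * K := mul_le_mul_of_nonneg_left (hKq y) (sq_nonneg _)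
        linarith only [h2, h3]
      have h1 := integral_mono i1 (i2.add i3) hpt
      simp only [Pi.add_apply] at h1
      rw [integral_add i2 i3, integral_const_mul, integral_const_mul, integral_const_mul,
        ← hZ] at h1
      have h2 : ∫ y, q y * v y ^ 2 ∂μ ≤ C * t :=
        hvq.trans (mul_le_mul_of_nonneg_left htsq hC.le)
      have h3 : 2 * K * Z ≤ 2 * K * (CP * C * t) :=
        mul_le_mul_of_nonneg_left hZt (by positivity)
      have h4 : m ^ 2 * ∫ y, q y ∂μ ≤ (2 * C + 2 * K * (CP * C)) * t := by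
        linarith only [h1, h2, h3]
      have h5 := hX _ _ h4 (integral_nonneg hq0)
      calc ∫ y, q y ∂μ ≤ 2 * V * ((2 * C + 2 * K * (CP * C)) * t) := h5
        _ = _ := by ring
    · -- the form at 1
      have hD0 : 0 < 2 * V * (C + (1 / V + 1) * (N - 2) * (K * ((V + CP * C) / 2))) * t := by
        positivity
      rcases le_or_gt (PF h q n μ (fun _ => 1)) 0 with hP | hP
      · linarith only [hP, hD0]
      have e1 : PF h q n μ v = m ^ 2 * PF h q n μ (fun _ => 1) +
          2 * m * (N - 2) * (∫ y, (Scal h y - q y) * z y ∂μ) + PF h q n μ z := by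
        rw [← PF_const_add hμ hq n m hzs]
        congr 1
        funext y
        simp only [hz]
        ring
      have h0 := hform z hzs
      -- the linear term
      have hlin : |∫ y, (Scal h y - q y) * z y ∂μ| ≤ K * ((V + CP * C) / 2) * t := by
        have i1 : Integrable (fun y => K * ((1 / 2) * (t * 1 + (1 / t) * z y ^ 2))) μ :=
          integ hμ (continuous_const.mul (continuous_const.mul ((continuous_const.mul
            continuous_const).add (continuous_const.mul (cz.pow 2)))))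
        have i0 : Integrable (fun y => |(Scal h y - q y) * z y|) μ :=
          integ hμ ((c4.sub hq).mul cz).abs
        have hpt : ∀ y, |(Scal h y - q y) * z y| ≤
            K * ((1 / 2) * (t * 1 + (1 / t) * z y ^ 2)) := by
          intro y
          rw [abs_mul]
          have h1 : |z y| ≤ (1 / 2) * (t * 1 + (1 / t) * z y ^ 2) := by
            have h2 : 0 ≤ (t - |z y|) ^ 2 := sq_nonneg _
            have h3 : (t - |z y|) ^ 2 = t ^ 2 - 2 * t * |z y| + z y ^ 2 := by
              rw [sub_sq, sq_abs]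
            rw [h3] at h2
            have h4 : (1 / 2) * (t * 1 + (1 / t) * z y ^ 2) = (t ^ 2 + z y ^ 2) / (2 * t) := by
              field_simp
            rw [h4, le_div_iff₀ (by positivity)]
            linarith only [h2]
          exact mul_le_mul (hKs y) h1 (abs_nonneg _) hK0.le
        calc |∫ y, (Scal h y - q y) * z y ∂μ| ≤ ∫ y, |(Scal h y - q y) * z y| ∂μ :=
              abs_integral_le_integral_abs
          _ ≤ ∫ y, K * ((1 / 2) * (t * 1 + (1 / t) * z y ^ 2)) ∂μ := integral_mono i0 i1 hpt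
          _ = K * ((1 / 2) * (t * V + (1 / t) * Z)) := by
            have j1 : Integrable (fun _ : M => t * (1 : ℝ)) μ :=
              integ hμ (continuous_const.mul continuous_const)
            have j2 : Integrable (fun y => (1 / t) * z y ^ 2) μ :=
              integ hμ (continuous_const.mul (cz.pow 2))
            rw [integral_const_mul, integral_const_mul, integral_add j1 j2, integral_const_mul,
              integral_const_mul]
          _ ≤ K * ((1 / 2) * (t * V + (1 / t) * (CP * C * t ^ 2))) := by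
            gcongr
          _ = _ := by
            field_simp
      have habs : -(2 * m * (∫ y, (Scal h y - q y) * z y ∂μ)) ≤
          (1 / V + 1) * (K * ((V + CP * C) / 2) * t) := by
        have h1 : -(2 * m * (∫ y, (Scal h y - q y) * z y ∂μ)) ≤
            |2 * m * (∫ y, (Scal h y - q y) * z y ∂μ)| := neg_le_abs _
        have h2 : |2 * m| ≤ 1 / V + 1 := by
          rw [abs_mul, abs_two]
          have h3 : 0 ≤ (|m| - 1) ^ 2 := sq_nonneg _
          have h4 : |m| ^ 2 = m ^ 2 := sq_abs m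
          nlinarith only [h3, h4, hm2]
        rw [abs_mul] at h1
        exact h1.trans (mul_le_mul h2 hlin (abs_nonneg _) (by positivity))
      have h2 : m ^ 2 * PF h q n μ (fun _ => 1) ≤
          (C + (1 / V + 1) * (N - 2) * (K * ((V + CP * C) / 2))) * t := by
        have h3 := mul_le_mul_of_nonneg_left habs hN2.le
        have h4 : PF h q n μ v ≤ C * t := hvP.trans (mul_le_mul_of_nonneg_left htsq hC.le)
        linarith only [e1, h0, h3, h4]
      have h5 := hX _ _ h2 hP.le
      calc PF h q n μ (fun _ => 1) ≤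
          2 * V * ((C + (1 / V + 1) * (N - 2) * (K * ((V + CP * C) / 2))) * t) := h5
        _ = _ := by ring
  constructor
  · exact le_zero_of_small (D := 2 * V * (2 * C + 2 * K * (CP * C))) (by positivity) ht₀0
      fun t h1 h2 => (key t h1 h2).1
  · exact le_zero_of_small
      (D := 2 * V * (C + (1 / V + 1) * (N - 2) * (K * ((V + CP * C) / 2)))) (by positivity) ht₀0
      fun t h1 h2 => (key t h1 h2).2

/-- If the form is nonnegative and vanishes at `1` then `∫ (Scal - q) w = 0` for all smooth `w`: for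
all real `t`, by `PF_const_add` with `m = 1` and `t w` (and the homogeneity
`PF (t w) = t² PF w`), `0 ≤ PF (1 + t w) = 2 t (n-2) ∫ (Scal - q) w + t² PF w` for all `t`. -/
theorem rigid_ortho {h : Met E M} {μ : Measure M} (hμ : IsRVol h μ) {n : ℕ}
    (hn : 3 ≤ n) {q : M → ℝ} (hq : Continuous q)
    (hform : ∀ v : M → ℝ, Sm E v → 0 ≤ PF h q n μ v) (h1 : PF h q n μ (fun _ => 1) ≤ 0)
    {w : M → ℝ} (hw : Sm E w) : ∫ y, (Scal h y - q y) * w y ∂μ = 0 := by
  have hN3 : (3 : ℝ) ≤ (n : ℝ) := by exact_mod_cast hn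
  have hN2 : 0 < (n : ℝ) - 2 := by linarith
  have hquad : ∀ t : ℝ, 0 ≤ t * (2 * ((n : ℝ) - 2) * ∫ y, (Scal h y - q y) * w y ∂μ) +
      t ^ 2 * PF h q n μ w := by
    intro t
    have h2 := hform _ (sm_add (sm_const (1 : ℝ)) (sm_smul hw t))
    rw [PF_const_add hμ hq n 1 (sm_smul hw t)] at h2
    have e1 : ∫ y, (Scal h y - q y) * (t * w y) ∂μ = t * ∫ y, (Scal h y - q y) * w y ∂μ := by
      rw [← integral_const_mul]
      refine integral_congr_ae (Eventually.of_forall fun y => ?_)
      simp only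
      ring
    have e2 : PF h q n μ (fun y => t * w y) = t ^ 2 * PF h q n μ w := by
      unfold PF
      rw [← integral_const_mul]
      refine integral_congr_ae (Eventually.of_forall fun y => ?_)
      simp only
      rw [grd_smul_left h hw, grd_comm, grd_smul_left h hw]
      ring
    rw [e1, e2] at h2
    linarith only [h1, h2]
  have h2 := eq_zero_of_quad hquad
  have h3 : (2 * ((n : ℝ) - 2)) ≠ 0 := by positivity
  exact (mul_eq_zero.1 h2).resolve_left h3

/-- `¬ ConfPSC h` by `hno`.  If `finrank ℝ E = 1` then `Scal h = 0` (`Perm.scal_one`) and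
`hform 1` says `- (n-2) ∫ q ≥ 0`, so `q = 0` by `IsRVol.pos`.  Otherwise use `exists_v` and
`rigid_lim`: `∫ q ≤ 0` gives `q = 0` (`IsRVol.pos`), and `rigid_ortho` with `w = Scal h`
(`sm_scal`) gives `∫ (Scal h)² = 0`, so `Scal h = 0` (`IsRVol.pos`). -/
theorem rigid [ConnectedSpace M] (hd : 0 < finrank ℝ E) {h : Met E M}
    {μ : Measure M} (hμ : IsRVol h μ) (hno : ∀ h' : Met E M, ¬ PosScal h') {n : ℕ} (hn : 3 ≤ n)
    (hn' : finrank ℝ E < n) {q : M → ℝ} (hq : Continuous q) (hq0 : ∀ y, 0 ≤ q y)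
    (hform : ∀ v : M → ℝ, Sm E v → 0 ≤ ∫ y, (((n : ℝ) - 2) * (Scal h y - q y) * v y ^ 2 +
      4 * ((n : ℝ) - 1) * Grd h v v y) ∂μ) : ∀ y, q y = 0 ∧ Scal h y = 0 := by
  have hnc : ¬ ConfPSC h := by
    rintro ⟨_, g', _, _, hg'⟩
    exact hno g' hg'
  have hN3 : (3 : ℝ) ≤ (n : ℝ) := by exact_mod_cast hn
  have hN2 : 0 < (n : ℝ) - 2 := by linarith
  have hqz : ∫ y, q y ∂μ ≤ 0 → ∀ y, q y = 0 := by
    intro h0 y
    by_contra hne
    have hpos : 0 < q y := lt_of_le_of_ne (hq0 y) (Ne.symm hne)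
    have := hμ.pos hq hq0 hpos
    linarith
  rcases Nat.lt_or_ge 1 (finrank ℝ E) with h2 | h2
  · obtain ⟨C, hC, hv⟩ := exists_v (by omega) hμ hnc hn hn' hq hq0 hform
    obtain ⟨hq1, hP1⟩ := rigid_lim hμ hn hq hq0 hform hC hv
    have hq00 := hqz hq1
    have h3 := rigid_ortho hμ hn hq hform hP1 (sm_scal h)
    intro y
    refine ⟨hq00 y, ?_⟩
    by_contra hne
    have h4 : 0 < ∫ y, (Scal h y - q y) * Scal h y ∂μ := by
      refine hμ.pos (((scal_cont h).sub hq).mul (scal_cont h)) (fun p => ?_) (p := y) ?_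
      · rw [hq00 p, sub_zero]
        exact mul_self_nonneg _
      · rw [hq00 y, sub_zero]
        exact mul_self_pos.2 hne
    linarith
  · have hd1 : finrank ℝ E = 1 := by omega
    have hS : ∀ y, Scal h y = 0 := scal_one h hd1
    have h3 := hform _ (sm_const (E := E) (M := M) (1 : ℝ))
    have e1 : ∀ y, ((n : ℝ) - 2) * (Scal h y - q y) * (1 : ℝ) ^ 2 +
        4 * ((n : ℝ) - 1) * Grd h (fun _ => (1 : ℝ)) (fun _ => (1 : ℝ)) y =
        -((n : ℝ) - 2) * q y := by
      intro y
      rw [hS y, grd_const_left]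
      ring
    rw [integral_congr_ae (Eventually.of_forall e1), integral_const_mul] at h3
    have h4 : ∫ y, q y ∂μ ≤ 0 := by
      by_contra hcon
      push Not at hcon
      nlinarith
    intro y
    exact ⟨hqz h4 y, hS y⟩

end Pool.Agent.Lib.MP_df705a_gt.Coll.Y
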