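import Pool.Agent.Lib.MP_df705a_gt.Coll.IX
import Pool.Agent.Lib.MP_df705a_gt.Coll.Y.Barta
import Pool.Agent.Lib.MP_df705a_gt.Coll.Y.Conf
import Pool.Agent.Lib.MP_df705a_gt.Coll.Y.RigidB
import Pool.Agent.Lib.MP_df705a_gt.Coll.Y.HorVol
import Pool.Agent.Lib.MP_df705a_gt.Coll.Y.RiemSub
import Pool.Agent.Lib.MP_df705a_gt.Coll.Y.Limit

/-!
# Module Y: conformal classes and collapse
-/

open scoped Manifold ContDiff Topology
open Set Bundle Module Filter MeasureTheory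

noncomputable section

namespace Pool.Agent.Lib.MP_df705a_gt.Coll

open Pool.Agent.Lib.MP_df705a_gt.Twist Pool.Agent.Lib.MP_df705a_gt.Perm
open Pool.Agent.Lib.MP_df705a_gt.Circ (Horizontal Submersion cf Para HorConf)
open Pool.Agent.Lib.MP_df705a_gt.Fib (RiemSub Biconformal)

section closed

variable {E : Type*} [NormedAddCommGroup E] [NormedSpace ℝ E] [FiniteDimensional ℝ E]
  {M : Type*} [TopologicalSpace M] [ChartedSpace E M] [IsManifold 𝓘(ℝ, E) ∞ M]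

theorem barta [MeasurableSpace E] [BorelSpace E] [MeasurableSpace M] [BorelSpace M]
    [CompactSpace M] [T2Space M] [Nonempty M] (hn : 3 ≤ finrank ℝ E) {g : Met E M}
    {μ : Measure M} (hμ : IsRVol g μ) (hc : ConfPSC g) :
    ∃ δ : ℝ, 0 < δ ∧ ∀ φ : M → ℝ, Sm E φ → δ * ∫ p, φ p ^ 2 ∂μ ≤
      ∫ p, (4 * ((finrank ℝ E : ℝ) - 1) * Grd g φ φ p +
        ((finrank ℝ E : ℝ) - 2) * Scal g p * φ p ^ 2) ∂μ :=
  Y.barta hn hμ hc

theorem almost_nonpos0 [CompactSpace M] [T2Space M] [ConnectedSpace M] (hn : 3 ≤ finrank ℝ E)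
    {g : Met E M} (hg : ¬ ConfPSC g) {ε : ℝ} (hε : 0 < ε) :
    ∃ ψ : M → ℝ, Sm E ψ ∧ ∀ x, Scal g x - 2 * ((finrank ℝ E : ℝ) - 1) * Lap g ψ x -
      ((finrank ℝ E : ℝ) - 1) * ((finrank ℝ E : ℝ) - 2) * Grd g ψ ψ x ≤ ε :=
  Y.almost_nonpos0 hn hg hε

/-- If the limit form is nonnegative and the manifold has no metric of positive scalar curvature
then the limit form is `4 (n - 1) |dv|²`. -/
theorem rigid [MeasurableSpace E] [BorelSpace E] [MeasurableSpace M] [BorelSpace M]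
    [CompactSpace M] [T2Space M] [ConnectedSpace M] (hd : 0 < finrank ℝ E) {h : Met E M}
    {μ : Measure M} (hμ : IsRVol h μ) (hno : ∀ h' : Met E M, ¬ PosScal h') {n : ℕ} (hn : 3 ≤ n)
    (hn' : finrank ℝ E < n) {q : M → ℝ} (hq : Continuous q) (hq0 : ∀ y, 0 ≤ q y)
    (hform : ∀ v : M → ℝ, Sm E v → 0 ≤ ∫ y, (((n : ℝ) - 2) * (Scal h y - q y) * v y ^ 2 +
      4 * ((n : ℝ) - 1) * Grd h v v y) ∂μ) : ∀ y, q y = 0 ∧ Scal h y = 0 :=
  Y.rigid hd hμ hno hn hn' hq hq0 hform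

theorem ConfPSC.of_conf {g g' : Met E M} {ψ : M → ℝ} (hψ : Sm E ψ) (hg : IsConf ψ g g')
    (hc : ConfPSC g) : ConfPSC g' :=
  Y.of_conf hψ hg hc

end closed

section bundle

variable {E₁ : Type*} [NormedAddCommGroup E₁] [NormedSpace ℝ E₁] [FiniteDimensional ℝ E₁]
  {B : Type*} [TopologicalSpace B] [ChartedSpace E₁ B] [IsManifold 𝓘(ℝ, E₁) ∞ B]
  {E₂ : Type*} [NormedAddCommGroup E₂] [NormedSpace ℝ E₂] [FiniteDimensional ℝ E₂]
  {F : Type*} [TopologicalSpace F] [ChartedSpace E₂ F] [IsManifold 𝓘(ℝ, E₂) ∞ F]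
  {E : Type*} [NormedAddCommGroup E] [NormedSpace ℝ E] [FiniteDimensional ℝ E]
  {M : Type*} [TopologicalSpace M] [ChartedSpace E M] [IsManifold 𝓘(ℝ, E) ∞ M]

theorem biconf_conf {pr : M → B} {g g' gε gε' : Met E M} {ψ : M → ℝ} {ε : ℝ}
    (hg : IsConf ψ g g') (hε : IsConf ψ gε gε')
    (h : Biconformal E₁ g gε pr (fun _ => 1) (fun _ => ε)) :
    Biconformal E₁ g' gε' pr (fun _ => 1) (fun _ => ε) :=
  Y.biconf_conf hg hε h

theorem exists_horVol [CompactSpace M] [T2Space M] (hd : finrank ℝ E = finrank ℝ E₁ + finrank ℝ E₂)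
    (hd₁ : 0 < finrank ℝ E₁) {pr : M → B} (hpr : Submersion E E₁ pr) (g : Met E M)
    (gB : Met E₁ B) :
    ∃ ψ : M → ℝ, Sm E ψ ∧ ∀ g' : Met E M, IsConf ψ g g' → HorVol E₂ g' gB pr :=
  Y.exists_horVol hd hd₁ hpr g gB

/-- The collapse of a metric whose horizontal volume form comes from the base. -/
theorem limit_form [MeasurableSpace E₂] [BorelSpace E₂] [MeasurableSpace F] [BorelSpace F]
    [CompactSpace M] [T2Space M] [CompactSpace B] [T2Space B] [CompactSpace F] [T2Space F]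
    [Nonempty M] (hd : finrank ℝ E = finrank ℝ E₁ + finrank ℝ E₂) (hn : 3 ≤ finrank ℝ E)
    (hd₁ : 0 < finrank ℝ E₁) (hd₂ : 0 < finrank ℝ E₂)
    {pr : M → B} (hpr : IsFibreBundle E E₁ E₂ F pr) {g : Met E M} {gB : Met E₁ B}
    (hv : HorVol E₂ g gB pr)
    (hseq : ∀ ε₀ : ℝ, 0 < ε₀ → ∃ (ε : ℝ) (g' : Met E M), 0 < ε ∧ ε < ε₀ ∧
      Biconformal E₁ g g' pr (fun _ => 1) (fun _ => ε) ∧ ConfPSC g')
    {U : Set B} {Φ : B × F → M} (hΦ : Triv E E₁ E₂ pr U Φ) {x : B} (hx : x ∈ U)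
    {h : Met E₂ F} (hh : IsFib g Φ x h) {ν : Measure F} (hν : IsRVol h ν) :
    ∃ q : F → ℝ, Continuous q ∧ (∀ y, 0 ≤ q y) ∧
      (∀ v : F → ℝ, Sm E₂ v → 0 ≤ ∫ y, (((finrank ℝ E : ℝ) - 2) * (Scal h y - q y) * v y ^ 2 +
        4 * ((finrank ℝ E : ℝ) - 1) * Grd h v v y) ∂ν) ∧
      ∀ y, q y = 0 → ∀ (w : E₂) i j, fderiv ℝ (fun p => hm g (psi E₁ E₂ Φ x y) p i j)
        (pt E₁ E₂ x y x y) (0, w) = 0 :=
  Y.limit_form hd hn hd₁ hd₂ hpr hv hseq hΦ hx hh hν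

/-- If the horizontal metric is constant along the fibres then the map is a Riemannian
submersion. -/
theorem exists_riemSub [CompactSpace M] [T2Space M] [CompactSpace B] [T2Space B] [CompactSpace F]
    [T2Space F] [ConnectedSpace F] (hd : finrank ℝ E = finrank ℝ E₁ + finrank ℝ E₂)
    {pr : M → B} (hpr : IsFibreBundle E E₁ E₂ F pr) {g : Met E M}
    (hc : ∀ (U : Set B) (Φ : B × F → M), Triv E E₁ E₂ pr U Φ → ∀ x ∈ U, ∀ (y : F) (w : E₂) (i j),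
      fderiv ℝ (fun p => hm g (psi E₁ E₂ Φ x y) p i j) (pt E₁ E₂ x y x y) (0, w) = 0) :
    ∃ gB : Met E₁ B, RiemSub g gB pr :=
  Y.exists_riemSub hd hpr hc

end bundle

end Pool.Agent.Lib.MP_df705a_gt.Coll
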