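import Pool.Agent.Lib.MP_df705a_gt.Coll.IX
import Pool.Agent.Lib.MP_df705a_gt.Coll.Y.Hm

/-!
# Module Y: the horizontal metric is constant along the fibres
-/

open scoped Manifold ContDiff Topology
open Set Bundle Module Filter MeasureTheory

noncomputable section

namespace Pool.Agent.Lib.MP_df705a_gt.Coll.Y

open Pool.Agent.Lib.MP_df705a_gt.Twist Pool.Agent.Lib.MP_df705a_gt.Perm
open Pool.Agent.Lib.MP_df705a_gt.Sub (mB)
open Pool.Agent.Lib.MP_df705a_gt.Circ (Horizontal Submersion cf Para HorConf)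
open Pool.Agent.Lib.MP_df705a_gt.Fib (RiemSub Biconformal gσ fm gam normT)

variable {E₁ : Type*} [NormedAddCommGroup E₁] [NormedSpace ℝ E₁] [FiniteDimensional ℝ E₁]
  {B : Type*} [TopologicalSpace B] [ChartedSpace E₁ B] [IsManifold 𝓘(ℝ, E₁) ∞ B]
  {E₂ : Type*} [NormedAddCommGroup E₂] [NormedSpace ℝ E₂] [FiniteDimensional ℝ E₂]
  {F : Type*} [TopologicalSpace F] [ChartedSpace E₂ F] [IsManifold 𝓘(ℝ, E₂) ∞ F]
  {E : Type*} [NormedAddCommGroup E] [NormedSpace ℝ E] [FiniteDimensional ℝ E]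
  {M : Type*} [TopologicalSpace M] [ChartedSpace E M] [IsManifold 𝓘(ℝ, E) ∞ M]

namespace HmConstAux

omit [FiniteDimensional ℝ E₂] [IsManifold 𝓘(ℝ, E₂) ∞ F] in
theorem hasM {f : F → ℝ} (y : F)
    (hd : DifferentiableAt ℝ (rd E₂ y f) (extChartAt 𝓘(ℝ, E₂) y y))
    (h0 : fderiv ℝ (rd E₂ y f) (extChartAt 𝓘(ℝ, E₂) y y) = 0) :
    HasMFDerivAt 𝓘(ℝ, E₂) 𝓘(ℝ, ℝ) f y
      (0 : TangentSpace 𝓘(ℝ, E₂) y →L[ℝ] TangentSpace 𝓘(ℝ, ℝ) (f y)) := by
  have h1 : HasFDerivAt (rd E₂ y f) (0 : E₂ →L[ℝ] ℝ) (extChartAt 𝓘(ℝ, E₂) y y) := by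
    have := hd.hasFDerivAt
    rwa [h0] at this
  refine ⟨?_, ?_⟩
  · have h2 : ContinuousAt (fun p => rd E₂ y f (extChartAt 𝓘(ℝ, E₂) y p)) y :=
      ContinuousAt.comp (f := fun p => extChartAt 𝓘(ℝ, E₂) y p) (g := rd E₂ y f)
        h1.continuousAt (continuousAt_extChartAt y)
    refine h2.congr ?_
    filter_upwards [extChartAt_source_mem_nhds (I := 𝓘(ℝ, E₂)) y] with p hp
    unfold rd
    rw [(extChartAt 𝓘(ℝ, E₂) y).left_inv hp]
  · exact h1.hasFDerivWithinAt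

omit [FiniteDimensional ℝ E₂] in
theorem fd_zero {f : F → ℝ}
    (hf : ∀ y, HasMFDerivAt 𝓘(ℝ, E₂) 𝓘(ℝ, ℝ) f y
      (0 : TangentSpace 𝓘(ℝ, E₂) y →L[ℝ] TangentSpace 𝓘(ℝ, ℝ) (f y))) (y : F) {z : E₂}
    (hz : z ∈ (extChartAt 𝓘(ℝ, E₂) y).target) : HasFDerivAt (rd E₂ y f) (0 : E₂ →L[ℝ] ℝ) z := by
  have : IsManifold 𝓘(ℝ, E₂) 1 F := IsManifold.of_le (n := ∞) (by exact_mod_cast le_top)
  have h1 : MDifferentiableAt 𝓘(ℝ, E₂) 𝓘(ℝ, E₂) (extChartAt 𝓘(ℝ, E₂) y).symm z := by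
    have h2 := mdifferentiableWithinAt_extChartAt_symm (I := 𝓘(ℝ, E₂)) (x := y) hz
    rw [ModelWithCorners.range_eq_univ] at h2
    exact mdifferentiableWithinAt_univ.1 h2
  have h3 := (hf ((extChartAt 𝓘(ℝ, E₂) y).symm z)).comp z h1.hasMFDerivAt
  rw [hasMFDerivAt_iff_hasFDerivAt] at h3
  exact HasFDerivAt.congr_fderiv h3 (ContinuousLinearMap.zero_comp _)

end HmConstAux

/-- A function on a connected manifold whose derivative in the preferred chart at every point vanishes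
is constant.  For `y'` near `y` the derivative of `rd E₂ y f` at the point `extChartAt y y'` is the
composition of the derivative of `rd E₂ y' f` at `extChartAt y' y'` with the derivative of the
coordinate change (chain rule), so it vanishes; so `rd E₂ y f` is constant on a ball in the target of
the chart at `y` (`IsOpen.is_const_of_fderiv_eq_zero` or the mean value inequality), `f` is locally
constant, and `F` is connected (`IsLocallyConstant.…`). -/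
theorem const_of_deriv [ConnectedSpace F] {f : F → ℝ}
    (hf : ∀ y, ∀ᶠ z in 𝓝 (extChartAt 𝓘(ℝ, E₂) y y), DifferentiableAt ℝ (rd E₂ y f) z)
    (h0 : ∀ y, fderiv ℝ (rd E₂ y f) (extChartAt 𝓘(ℝ, E₂) y y) = 0) (y y' : F) : f y = f y' := by
  have h1 := fun y => HmConstAux.hasM y (hf y).self_of_nhds (h0 y)
  have h2 : IsLocallyConstant f := by
    rw [IsLocallyConstant.iff_eventually_eq]
    intro y
    have ht : (extChartAt 𝓘(ℝ, E₂) y).target ∈ 𝓝 (extChartAt 𝓘(ℝ, E₂) y y) :=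
      extChartAt_target_mem_nhds y
    obtain ⟨r, hr, hb⟩ := Metric.mem_nhds_iff.1 ht
    have h3 : ∀ᶠ p in 𝓝 y, extChartAt 𝓘(ℝ, E₂) y p ∈
        Metric.ball (extChartAt 𝓘(ℝ, E₂) y y) r :=
      (continuousAt_extChartAt y) (Metric.ball_mem_nhds _ hr)
    filter_upwards [extChartAt_source_mem_nhds (I := 𝓘(ℝ, E₂)) y, h3] with p hp hp3
    have h4 : rd E₂ y f (extChartAt 𝓘(ℝ, E₂) y p) = rd E₂ y f (extChartAt 𝓘(ℝ, E₂) y y) := by
      refine Metric.isOpen_ball.is_const_of_fderiv_eq_zero (𝕜 := ℝ)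
        (convex_ball _ r).isPreconnected (fun z hz => ?_) (fun z hz => ?_) hp3
        (Metric.mem_ball_self hr)
      · exact (HmConstAux.fd_zero h1 y (hb hz)).differentiableAt.differentiableWithinAt
      · exact (HmConstAux.fd_zero h1 y (hb hz)).fderiv
    unfold rd at h4
    rwa [(extChartAt 𝓘(ℝ, E₂) y).left_inv hp,
      (extChartAt 𝓘(ℝ, E₂) y).left_inv (mem_extChartAt_source y)] at h4
  exact h2.apply_eq_of_preconnectedSpace y y'

/-- Fix `x ∈ U` and the indices `i, j`, and let `f y = hm g (psi Φ x y) (pt x y x y) i j`.  For `y'`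
near `y` the parametrization `psi Φ x y` at the point `(x̂, ŷ')`, `ŷ' = extChartAt y y'`, is adapted
over the same chart (`ac_psi`, `ac_ev`) and `psi Φ x y (x̂, ŷ') = Φ (x, y')`, so by `hm_eq`
`f y' = hm g (psi Φ x y) (x̂, ŷ') i j`: near `ŷ` the function `rd E₂ y f` is
`z ↦ hm g (psi Φ x y) (x̂, z) i j`, smooth by `hm_smooth`, with derivative at `ŷ` zero by `hc`.
Use `const_of_deriv`. -/
theorem hm_const [ConnectedSpace F] {pr : M → B} (hpr : Submersion E E₁ pr) {g : Met E M}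
    {U : Set B} {Φ : B × F → M} (hΦ : Triv E E₁ E₂ pr U Φ) {x : B} (hx : x ∈ U)
    (hc : ∀ (y : F) (w : E₂) (i j), fderiv ℝ (fun p => hm g (psi E₁ E₂ Φ x y) p i j)
      (pt E₁ E₂ x y x y) (0, w) = 0) (y y' : F) :
    hm g (psi E₁ E₂ Φ x y) (pt E₁ E₂ x y x y) =
      hm g (psi E₁ E₂ Φ x y') (pt E₁ E₂ x y' x y') := by
  funext i j
  have key : ∀ y, ∀ᶠ z in 𝓝 (extChartAt 𝓘(ℝ, E₂) y y),
      rd E₂ y (fun y => hm g (psi E₁ E₂ Φ x y) (pt E₁ E₂ x y x y) i j) z =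
        hm g (psi E₁ E₂ Φ x y) (extChartAt 𝓘(ℝ, E₁) x x, z) i j := by
    intro y
    have hc1 : Tendsto (fun z : E₂ => (extChartAt 𝓘(ℝ, E₁) x x, z))
        (𝓝 (extChartAt 𝓘(ℝ, E₂) y y)) (𝓝 (pt E₁ E₂ x y x y)) := by
      have : ContinuousAt (fun z : E₂ => (extChartAt 𝓘(ℝ, E₁) x x, z))
        (extChartAt 𝓘(ℝ, E₂) y y) := by fun_prop
      exact this
    filter_upwards [hc1.eventually (ac_ev (ac_psi hΦ hx y))] with z hz
    unfold rd
    refine congrFun (congrFun (hm_eq hpr g (ac_psi hΦ hx ((extChartAt 𝓘(ℝ, E₂) y).symm z)) hz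
      ?_) i) j
    unfold psi pt
    simp only [extChartAt_to_inv]
  refine const_of_deriv (E₂ := E₂) (F := F) (f := fun y => hm g (psi E₁ E₂ Φ x y) (pt E₁ E₂ x y x y) i j)
    (fun y => ?_) (fun y => ?_) y y'
  · have hc1 : Tendsto (fun z : E₂ => (extChartAt 𝓘(ℝ, E₁) x x, z))
        (𝓝 (extChartAt 𝓘(ℝ, E₂) y y)) (𝓝 (pt E₁ E₂ x y x y)) := by
      have : ContinuousAt (fun z : E₂ => (extChartAt 𝓘(ℝ, E₁) x x, z))
        (extChartAt 𝓘(ℝ, E₂) y y) := by fun_prop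
      exact this
    filter_upwards [hc1.eventually (ac_ev (ac_psi hΦ hx y)), (key y).eventually_nhds] with z hz hk
    have h5 : DifferentiableAt ℝ (fun p => hm g (psi E₁ E₂ Φ x y) p i j)
        (extChartAt 𝓘(ℝ, E₁) x x, z) := (hm_smooth g hz.para i j).differentiableAt (by simp)
    have h6 : DifferentiableAt ℝ (fun z => hm g (psi E₁ E₂ Φ x y)
        (extChartAt 𝓘(ℝ, E₁) x x, z) i j) z :=
      DifferentiableAt.comp z h5 ((differentiableAt_const _).prodMk differentiableAt_id)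
    exact h6.congr_of_eventuallyEq hk
  · have hk : rd E₂ y (fun y => hm g (psi E₁ E₂ Φ x y) (pt E₁ E₂ x y x y) i j)
        =ᶠ[𝓝 (extChartAt 𝓘(ℝ, E₂) y y)]
        fun z => hm g (psi E₁ E₂ Φ x y) (extChartAt 𝓘(ℝ, E₁) x x, z) i j := key y
    rw [hk.fderiv_eq]
    have h5 : HasFDerivAt (fun p => hm g (psi E₁ E₂ Φ x y) p i j)
        (fderiv ℝ (fun p => hm g (psi E₁ E₂ Φ x y) p i j) (pt E₁ E₂ x y x y))
        (extChartAt 𝓘(ℝ, E₁) x x, extChartAt 𝓘(ℝ, E₂) y y) :=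
      ((hm_smooth g (ac_psi hΦ hx y).para i j).differentiableAt (by simp)).hasFDerivAt
    have h6 : HasFDerivAt (fun z => hm g (psi E₁ E₂ Φ x y) (extChartAt 𝓘(ℝ, E₁) x x, z) i j)
        ((fderiv ℝ (fun p => hm g (psi E₁ E₂ Φ x y) p i j) (pt E₁ E₂ x y x y)).comp
          (ContinuousLinearMap.inr ℝ E₁ E₂)) (extChartAt 𝓘(ℝ, E₂) y y) :=
      h5.comp (extChartAt 𝓘(ℝ, E₂) y y)
        (hasFDerivAt_prodMk_right (extChartAt 𝓘(ℝ, E₁) x x) (extChartAt 𝓘(ℝ, E₂) y y))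
    rw [h6.fderiv]
    ext w
    exact hc y w i j

end Pool.Agent.Lib.MP_df705a_gt.Coll.Y
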